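import Mathlib

/-!
# Basic set-up

* `linSub M` : the substitution `f ↦ f ∘ M` on `k[V]`, `ffSub M` its extension to `k(V)`.
* tuples of matrices `MatT n S = ∏ Mat_{n_i}(S)`, polynomial matrices in the entries, evaluation.
-/

set_option linter.unusedSectionVars false

open MvPolynomial

namespace VDual

section linSub

variable {k : Type*} [Field k] {ι : Type*} [Fintype ι] [DecidableEq ι]

/-- the substitution `f ↦ f ∘ M` on the polynomial ring `k[V]`, `V = k^ι` -/
noncomputable def linSub (M : Matrix ι ι k) : MvPolynomial ι k →ₐ[k] MvPolynomial ι k :=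
  aeval (fun i => ∑ j, C (M i j) * X j)

theorem linSub_X (M : Matrix ι ι k) (i : ι) : linSub M (X i) = ∑ j, C (M i j) * X j := by
  simp [linSub]

theorem linSub_mul (M N : Matrix ι ι k) : linSub (M * N) = (linSub N).comp (linSub M) := by
  apply MvPolynomial.algHom_ext
  intro i
  rw [AlgHom.comp_apply, linSub_X, linSub_X, map_sum]
  simp only [map_mul, linSub_X, Matrix.mul_apply, map_sum, Finset.sum_mul, Finset.mul_sum]
  rw [Finset.sum_comm]
  refine Finset.sum_congr rfl fun j _ => Finset.sum_congr rfl fun l _ => ?_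
  have : linSub N (C (M i j)) = C (M i j) := by
    simp [linSub]
  rw [this]
  ring

theorem linSub_one : linSub (1 : Matrix ι ι k) = AlgHom.id k _ := by
  apply MvPolynomial.algHom_ext
  intro i
  rw [linSub_X, AlgHom.id_apply, Finset.sum_eq_single i]
  · simp
  · intro j _ hj
    rw [Matrix.one_apply_ne hj.symm, C_0, zero_mul]
  · simp

/-- the substitution by an invertible matrix, as an automorphism of `k[V]` -/
noncomputable def linSubEquiv (M : Matrix.GeneralLinearGroup ι k) :
    MvPolynomial ι k ≃ₐ[k] MvPolynomial ι k :=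
  AlgEquiv.ofAlgHom (linSub (M : Matrix ι ι k)) (linSub ((M⁻¹ : Matrix.GeneralLinearGroup ι k) : Matrix ι ι k))
    (by rw [← linSub_mul, ← Units.val_mul, inv_mul_cancel, Units.val_one, linSub_one])
    (by rw [← linSub_mul, ← Units.val_mul, mul_inv_cancel, Units.val_one, linSub_one])

/-- the function field `k(V)`, `V = k^ι` -/
abbrev FF (k ι : Type*) [Field k] : Type _ := FractionRing (MvPolynomial ι k)

/-- the substitution `f ↦ f ∘ M` on the function field `k(V)`, for `M` invertible -/
noncomputable def ffSub (M : Matrix.GeneralLinearGroup ι k) : FF k ι ≃ₐ[k] FF k ι :=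
  IsFractionRing.fieldEquivOfAlgEquiv k (FF k ι) (FF k ι) (linSubEquiv M)

theorem ffSub_algebraMap (M : Matrix.GeneralLinearGroup ι k) (p : MvPolynomial ι k) :
    ffSub M (algebraMap _ (FF k ι) p) = algebraMap _ (FF k ι) (linSub (M : Matrix ι ι k) p) := by
  rw [ffSub, IsFractionRing.fieldEquivOfAlgEquiv_algebraMap]
  rfl

/-- two algebra homomorphisms from the function field that agree on the coordinates agree -/
theorem ff_hom_ext {A : Type*} [Semiring A] [Algebra k A] {f g : FF k ι →ₐ[k] A}
    (h : ∀ i, f (algebraMap (MvPolynomial ι k) (FF k ι) (X i)) =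
      g (algebraMap (MvPolynomial ι k) (FF k ι) (X i))) : f = g := by
  have h1 : (f : FF k ι →+* A).comp (algebraMap (MvPolynomial ι k) (FF k ι)) =
      (g : FF k ι →+* A).comp (algebraMap (MvPolynomial ι k) (FF k ι)) := by
    apply MvPolynomial.ringHom_ext
    · intro c
      have e : algebraMap (MvPolynomial ι k) (FF k ι) (C c) = algebraMap k (FF k ι) c := by
        rw [IsScalarTower.algebraMap_apply k (MvPolynomial ι k) (FF k ι)]
        rfl
      simp only [RingHom.comp_apply, e]
      change f _ = g _
      rw [AlgHom.commutes, AlgHom.commutes]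
    · intro i
      exact h i
  have h2 := IsLocalization.ringHom_ext (nonZeroDivisors (MvPolynomial ι k)) h1
  apply AlgHom.ext
  intro x
  exact DFunLike.congr_fun h2 x

theorem ffSub_mul (M N : Matrix.GeneralLinearGroup ι k) (f : FF k ι) :
    ffSub (M * N) f = ffSub N (ffSub M f) := by
  have : ((ffSub (M * N) : FF k ι ≃ₐ[k] FF k ι) : FF k ι →ₐ[k] FF k ι) =
      ((ffSub N : FF k ι ≃ₐ[k] FF k ι) : FF k ι →ₐ[k] FF k ι).comp
        ((ffSub M : FF k ι ≃ₐ[k] FF k ι) : FF k ι →ₐ[k] FF k ι) := by
    apply ff_hom_ext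
    intro i
    simp only [AlgHom.comp_apply, AlgEquiv.coe_toAlgHom, ffSub_algebraMap, Units.val_mul, linSub_mul]
  exact DFunLike.congr_fun this f

theorem ffSub_one (f : FF k ι) : ffSub (1 : Matrix.GeneralLinearGroup ι k) f = f := by
  have : ((ffSub (1 : Matrix.GeneralLinearGroup ι k) : FF k ι ≃ₐ[k] FF k ι) : FF k ι →ₐ[k] FF k ι) =
      AlgHom.id k _ := by
    apply ff_hom_ext
    intro i
    simp only [AlgEquiv.coe_toAlgHom, ffSub_algebraMap, Units.val_one, linSub_one, AlgHom.id_apply]
  exact DFunLike.congr_fun this f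

end linSub

section MatT

variable {I : Type*} [Fintype I] [DecidableEq I] (n : I → Type*) [∀ i, Fintype (n i)]
  [∀ i, DecidableEq (n i)]

/-- index set of the entries of a tuple of matrices -/
abbrev Ent : Type _ := Σ i, n i × n i

/-- tuples of matrices -/
abbrev MatT (S : Type*) : Type _ := ∀ i, Matrix (n i) (n i) S

variable {n}

/-- the point of affine space given by a tuple of matrices -/
def pt {S : Type*} (g : MatT n S) : Ent n → S := fun e => g e.1 e.2.1 e.2.2

/-- the tuple of matrices given by a point of affine space -/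
def unpt {S : Type*} (s : Ent n → S) : MatT n S := fun i => Matrix.of fun p q => s ⟨i, (p, q)⟩

theorem pt_unpt {S : Type*} (s : Ent n → S) : pt (unpt s) = s := by
  funext e; rfl

theorem unpt_pt {S : Type*} (g : MatT n S) : unpt (pt g) = g := by
  funext i; rfl

/-- the generic tuple of matrices -/
noncomputable def gen (n : I → Type*) (S : Type*) [CommSemiring S] : MatT n (MvPolynomial (Ent n) S) :=
  unpt (fun e => X e)

/-- apply a map entrywise -/
def mapT {S S' : Type*} (φ : S → S') (g : MatT n S) : MatT n S' := fun i => (g i).map φ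

variable {k : Type*} [Field k] {ι : Type*} [Fintype ι] [DecidableEq ι]

/-- evaluation of a polynomial matrix at a tuple of matrices -/
noncomputable def ev {S : Type*} [CommRing S] [Algebra k S] (P : Matrix ι ι (MvPolynomial (Ent n) k))
    (g : MatT n S) : Matrix ι ι S := P.map (aeval (pt g))

theorem ev_apply {S : Type*} [CommRing S] [Algebra k S] (P : Matrix ι ι (MvPolynomial (Ent n) k))
    (g : MatT n S) (a b : ι) : ev P g a b = aeval (pt g) (P a b) := rfl

theorem ev_map {S S' : Type*} [CommRing S] [Algebra k S] [CommRing S'] [Algebra k S']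
    (φ : S →ₐ[k] S') (P : Matrix ι ι (MvPolynomial (Ent n) k)) (g : MatT n S) :
    (ev P g).map φ = ev P (mapT φ g) := by
  ext a b
  rw [Matrix.map_apply, ev_apply, ev_apply, ← AlgHom.comp_apply, comp_aeval]
  rfl

theorem mapT_mul {S S' : Type*} [CommRing S] [CommRing S'] (φ : S →+* S') (g h : MatT n S) :
    mapT φ (g * h) = mapT φ g * mapT φ h := by
  funext i
  exact Matrix.map_mul

/-- a polynomial representation of `∏ Mat_{n_i}`: a polynomial matrix, multiplicative on
`k`-points -/
structure PolyRep (k : Type*) [Field k] (n : I → Type*) [∀ i, Fintype (n i)]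
    [∀ i, DecidableEq (n i)] (ι : Type*) [Fintype ι] [DecidableEq ι] where
  P : Matrix ι ι (MvPolynomial (Ent n) k)
  one : ev P (1 : MatT n k) = 1
  mul : ∀ g h : MatT n k, ev P (g * h) = ev P g * ev P h

theorem PolyRep.one' (ρ : PolyRep k n ι) (S : Type*) [CommRing S] [Algebra k S] :
    ev ρ.P (1 : MatT n S) = 1 := by
  have h : (ev ρ.P (1 : MatT n k)).map (Algebra.ofId k S) = (1 : Matrix ι ι k).map (Algebra.ofId k S) := by
    rw [ρ.one]
  rw [ev_map] at h
  have e1 : mapT (Algebra.ofId k S) (1 : MatT n k) = 1 := by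
    funext i
    exact Matrix.map_one _ (map_zero _) (map_one _)
  rw [e1] at h
  rw [h]
  exact Matrix.map_one _ (map_zero _) (map_one _)

theorem PolyRep.mul' [Infinite k] (ρ : PolyRep k n ι) {S : Type*} [CommRing S] [Algebra k S]
    (g h : MatT n S) : ev ρ.P (g * h) = ev ρ.P g * ev ρ.P h := by
  -- the universal case
  let U := MvPolynomial (Ent n ⊕ Ent n) k
  let G1 : MatT n U := unpt (fun e => X (Sum.inl e))
  let G2 : MatT n U := unpt (fun e => X (Sum.inr e))
  have huniv : ev ρ.P (G1 * G2) = ev ρ.P G1 * ev ρ.P G2 := by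
    refine Matrix.ext fun a b => ?_
    apply MvPolynomial.funext
    intro v
    have e1 : ∀ (M : MatT n U), (ev ρ.P M).map (aeval v : U →ₐ[k] k) =
      ev ρ.P (mapT (aeval v : U →ₐ[k] k) M) := fun M => ev_map _ _ _
    have e2 : ((ev ρ.P (G1 * G2)).map (aeval v : U →ₐ[k] k)) a b =
        ((ev ρ.P G1 * ev ρ.P G2).map (aeval v : U →ₐ[k] k)) a b := by
      have e3 : mapT (aeval v : U →ₐ[k] k) (G1 * G2) =
          mapT (aeval v : U →ₐ[k] k) G1 * mapT (aeval v : U →ₐ[k] k) G2 :=
        mapT_mul ((aeval v : U →ₐ[k] k) : U →+* k) G1 G2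
      rw [e1, e3, ρ.mul, ← e1, ← e1, ← Matrix.map_mul]
    exact e2
  let φ : U →ₐ[k] S := aeval (Sum.elim (pt g) (pt h))
  have h1 : (ev ρ.P (G1 * G2)).map φ = (ev ρ.P G1 * ev ρ.P G2).map φ := by
    rw [huniv]
  rw [Matrix.map_mul, ev_map, ev_map, ev_map] at h1
  have e1 : mapT φ G1 = g := by
    funext i
    ext p q
    change φ (X (Sum.inl ⟨i, (p, q)⟩)) = g i p q
    simp only [φ]
    rw [aeval_X]
    rfl
  have e2 : mapT φ G2 = h := by
    funext i
    ext p q
    change φ (X (Sum.inr ⟨i, (p, q)⟩)) = h i p q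
    simp only [φ]
    rw [aeval_X]
    rfl
  have e3 : mapT φ (G1 * G2) = mapT φ G1 * mapT φ G2 := mapT_mul (φ : U →+* S) G1 G2
  rw [e3, e1, e2] at h1
  exact h1

/-- the representation as a monoid homomorphism over any commutative `k`-algebra -/
noncomputable def PolyRep.hom [Infinite k] (ρ : PolyRep k n ι) (S : Type*) [CommRing S] [Algebra k S] :
    MatT n S →* Matrix ι ι S where
  toFun := ev ρ.P
  map_one' := ρ.one' S
  map_mul' := ρ.mul'

end MatT

/-- density of the rational points -/
theorem eq_zero_of_forall_eval {k L σ : Type*} [Field k] [Infinite k] [Field L] [Algebra k L]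
    (p : MvPolynomial σ L) (h : ∀ t : σ → k, eval (fun i => algebraMap k L (t i)) p = 0) :
    p = 0 := by
  apply MvPolynomial.funext_set (fun _ => Set.range (algebraMap k L))
  · intro _
    exact Set.infinite_range_of_injective (algebraMap k L).injective
  · intro x hx
    choose t ht using fun i => hx i (Set.mem_univ i)
    have : x = fun i => algebraMap k L (t i) := by
      funext i
      exact (ht i).symm
    rw [this, h t, map_zero]

end VDual
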