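import Mathlib
import Pool.Agent.Helper59.VDual.Basic

/-!
# The action of `∏ GL_{n_i}(k)` on the function field, and evaluation at field-valued points
-/

set_option linter.unusedSectionVars false

open MvPolynomial Matrix

namespace VDual

variable {I : Type*} [Fintype I] [DecidableEq I] {n : I → Type*} [∀ i, Fintype (n i)]
  [∀ i, DecidableEq (n i)]
variable {k : Type*} [Field k] {ι : Type*} [Fintype ι] [DecidableEq ι]

/-- the coordinate functions in the function field -/
noncomputable def xx (k ι : Type*) [Field k] : ι → FF k ι :=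
  fun t => algebraMap (MvPolynomial ι k) (FF k ι) (X t)

theorem aeval_xx (p : MvPolynomial ι k) : aeval (xx k ι) p = algebraMap (MvPolynomial ι k) (FF k ι) p := by
  have : (aeval (xx k ι) : MvPolynomial ι k →ₐ[k] FF k ι) =
      IsScalarTower.toAlgHom k (MvPolynomial ι k) (FF k ι) := by
    apply MvPolynomial.algHom_ext
    intro i
    rw [aeval_X]
    rfl
  rw [this]
  rfl

/-- inclusion of `k`-points -/
noncomputable def inc {k : Type*} [Field k] (L : Type*) [Field L] [Algebra k L] (g : MatT n k) : MatT n L :=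
  mapT (algebraMap k L) g

theorem inc_mul (L : Type*) [Field L] [Algebra k L] (g h : MatT n k) :
    inc L (g * h) = inc L g * inc L h := mapT_mul (algebraMap k L) g h

theorem inc_one (L : Type*) [Field L] [Algebra k L] : inc L (1 : MatT n k) = 1 := by
  funext i
  exact Matrix.map_one _ (map_zero _) (map_one _)

/-- inclusion of `k`-points, invertible -/
noncomputable def incU (L : Type*) [Field L] [Algebra k L] : (MatT n k)ˣ →* (MatT n L)ˣ :=
  Units.map { toFun := inc L, map_one' := inc_one L, map_mul' := inc_mul L }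

theorem incU_val (L : Type*) [Field L] [Algebra k L] (g : (MatT n k)ˣ) :
    ((incU L g : (MatT n L)ˣ) : MatT n L) = inc L (g : MatT n k) := rfl

theorem ev_inc (L : Type*) [Field L] [Algebra k L] (P : Matrix ι ι (MvPolynomial (Ent n) k))
    (g : MatT n k) : ev P (inc L g) = (ev P g).map (algebraMap k L) := by
  have := ev_map (Algebra.ofId k L) P g
  exact this.symm

variable (ρ : PolyRep k n ι)

/-- the representation on invertible elements -/
noncomputable def PolyRep.u [Infinite k] (S : Type*) [CommRing S] [Algebra k S] :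
    (MatT n S)ˣ →* (Matrix ι ι S)ˣ := Units.map (ρ.hom S)

theorem PolyRep.u_val [Infinite k] (S : Type*) [CommRing S] [Algebra k S] (g : (MatT n S)ˣ) :
    ((ρ.u S g : (Matrix ι ι S)ˣ) : Matrix ι ι S) = ev ρ.P (g : MatT n S) := rfl

/-- the automorphism `f ↦ f ∘ ρ(g)` of the function field -/
noncomputable def PolyRep.A [Infinite k] (g : (MatT n k)ˣ) : FF k ι ≃ₐ[k] FF k ι :=
  ffSub (ρ.u k g)

theorem PolyRep.A_xx [Infinite k] (g : (MatT n k)ˣ) (t : ι) :
    ρ.A g (xx k ι t) = (ev ρ.P (inc (FF k ι) (g : MatT n k)) *ᵥ xx k ι) t := by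
  rw [PolyRep.A, xx, ffSub_algebraMap, linSub_X, map_sum, ev_inc]
  simp only [mulVec, dotProduct, map_mul]
  refine Finset.sum_congr rfl fun j _ => ?_
  congr 1

theorem PolyRep.A_mul [Infinite k] (g h : (MatT n k)ˣ) (f : FF k ι) :
    ρ.A (g * h) f = ρ.A h (ρ.A g f) := by
  rw [PolyRep.A, map_mul, ffSub_mul]
  rfl

theorem PolyRep.A_one [Infinite k] (f : FF k ι) : ρ.A 1 f = f := by
  rw [PolyRep.A, map_one, ffSub_one]

/-- the action of the opposite group -/
noncomputable def PolyRep.actHom [Infinite k] : ((MatT n k)ˣ)ᵐᵒᵖ →* (FF k ι ≃ₐ[k] FF k ι) where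
  toFun g := ρ.A g.unop
  map_one' := by
    ext f
    exact ρ.A_one f
  map_mul' g h := by
    ext f
    exact ρ.A_mul h.unop g.unop f

/-- the action of the opposite group -/
@[reducible] noncomputable def PolyRep.actInst [Infinite k] :
    MulSemiringAction ((MatT n k)ˣ)ᵐᵒᵖ (FF k ι) :=
  MulSemiringAction.compHom _ ρ.actHom

/-- the product of the determinants of the generic tuple -/
noncomputable def omg (n : I → Type*) [∀ i, Fintype (n i)] [∀ i, DecidableEq (n i)]
    (S : Type*) [CommRing S] : MvPolynomial (Ent n) S := ∏ i, (gen n S i).det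

theorem gen_eval {S T : Type*} [CommRing S] [CommRing T] [Algebra S T] (θ : MatT n T) (i : I) :
    (gen n S i).map (aeval (pt θ) : MvPolynomial (Ent n) S →ₐ[S] T) = θ i := by
  ext p q
  change aeval (pt θ) (X (⟨i, (p, q)⟩ : Ent n)) = _
  rw [aeval_X]
  rfl

theorem omg_eval {S T : Type*} [CommRing S] [CommRing T] [Algebra S T] (θ : MatT n T) :
    aeval (pt θ) (omg n S) = ∏ i, (θ i).det := by
  rw [omg, map_prod]
  refine Finset.prod_congr rfl fun i _ => ?_
  rw [AlgHom.map_det]
  congr 1
  exact gen_eval θ i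

theorem isUnit_of_omg_ne_zero {F : Type*} [Field F] (θ : MatT n F) (h : ∏ i, (θ i).det ≠ 0) :
    IsUnit θ := by
  rw [Pi.isUnit_iff]
  intro i
  rw [Matrix.isUnit_iff_isUnit_det]
  exact isUnit_iff_ne_zero.mpr (Finset.prod_ne_zero_iff.mp h i (Finset.mem_univ i))

theorem omg_ne_zero (F : Type*) [Field F] : omg n F ≠ 0 := by
  intro h
  have h1 : aeval (pt (1 : MatT n F)) (omg n F) = 1 := by
    rw [omg_eval]
    simp
  rw [h, map_zero] at h1
  exact zero_ne_one h1

/-- density of the `k`-points of `∏ GL` -/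
theorem eq_zero_of_GL {L : Type*} [Infinite k] [Field L] [Algebra k L]
    (p : MvPolynomial (Ent n) L)
    (h : ∀ g : (MatT n k)ˣ, eval (pt (inc L (g : MatT n k))) p = 0) : p = 0 := by
  have h1 : p * omg n L = 0 := by
    apply eq_zero_of_forall_eval (k := k)
    intro t
    rw [map_mul]
    have e1 : (fun e => algebraMap k L (t e)) = pt (inc L (unpt t)) := by
      funext e; rfl
    rw [e1]
    by_cases hdet : ∏ i, (unpt t i).det = 0
    · have e2 : eval (pt (inc L (unpt t))) (omg n L) = 0 := by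
        have e3 := omg_eval (S := L) (inc L (unpt t))
        have e4 : ∏ i, (inc L (unpt t) i).det = algebraMap k L (∏ i, (unpt t i).det) := by
          rw [map_prod]
          refine Finset.prod_congr rfl fun i _ => ?_
          exact (RingHom.map_det _ _).symm
        rw [e4, hdet, map_zero] at e3
        exact e3
      rw [e2, mul_zero]
    · obtain ⟨g, hg⟩ := isUnit_of_omg_ne_zero (unpt t) hdet
      rw [← hg, h g, zero_mul]
  rcases mul_eq_zero.mp h1 with h2 | h2
  · exact h2
  · exact absurd h2 (omg_ne_zero L)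

/-- the vector `ρ(h) v` with `h` generic -/
noncomputable def PolyRep.Y {L : Type*} [Field L] [Algebra k L] (v : ι → L) :
    ι → MvPolynomial (Ent n) L :=
  ev ρ.P (gen n L) *ᵥ (fun t => C (v t))

theorem PolyRep.Y_eval {L : Type*} [Field L] [Algebra k L] (v : ι → L) (θ : MatT n L) (t : ι) :
    eval (pt θ) (ρ.Y v t) = (ev ρ.P θ *ᵥ v) t := by
  let φ : MvPolynomial (Ent n) L →ₐ[k] L :=
    (aeval (pt θ) : MvPolynomial (Ent n) L →ₐ[L] L).restrictScalars k
  have h1 : (ev ρ.P (gen n L)).map φ = ev ρ.P θ := by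
    rw [ev_map]
    congr 1
    funext i
    exact gen_eval θ i
  have h2 : ∀ a b, eval (pt θ) (ev ρ.P (gen n L) a b) = ev ρ.P θ a b := by
    intro a b
    rw [← h1]
    rfl
  simp only [PolyRep.Y, mulVec, dotProduct, map_sum, map_mul, h2, eval_C]

theorem PolyRep.aeval_Y_eval {L : Type*} [Field L] [Algebra k L] (v : ι → L) (θ : MatT n L)
    (p : MvPolynomial ι k) :
    eval (pt θ) (aeval (ρ.Y v) p) = aeval (ev ρ.P θ *ᵥ v) p := by
  have : ((aeval (pt θ) : MvPolynomial (Ent n) L →ₐ[L] L).restrictScalars k).comp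
      (aeval (ρ.Y v)) = (aeval (ev ρ.P θ *ᵥ v) : MvPolynomial ι k →ₐ[k] L) := by
    apply MvPolynomial.algHom_ext
    intro t
    rw [AlgHom.comp_apply, aeval_X, aeval_X]
    exact ρ.Y_eval v θ t
  exact DFunLike.congr_fun this p

/-- the action of a group element on (the image of) a polynomial -/
theorem PolyRep.A_algebraMap [Infinite k] (g : (MatT n k)ˣ) (p : MvPolynomial ι k) :
    ρ.A g (algebraMap (MvPolynomial ι k) (FF k ι) p) =
      aeval (ev ρ.P (inc (FF k ι) (g : MatT n k)) *ᵥ xx k ι) p := by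
  rw [← aeval_xx]
  have : ((ρ.A g : FF k ι ≃ₐ[k] FF k ι) : FF k ι →ₐ[k] FF k ι).comp (aeval (xx k ι)) =
      (aeval (ev ρ.P (inc (FF k ι) (g : MatT n k)) *ᵥ xx k ι) : MvPolynomial ι k →ₐ[k] FF k ι) := by
    apply MvPolynomial.algHom_ext
    intro t
    rw [AlgHom.comp_apply, aeval_X, aeval_X]
    exact ρ.A_xx g t
  exact DFunLike.congr_fun this p

/-- **transfer**: a linear relation between the translates `g • u_l`, polynomial in `g`, persists
after substituting the field-valued point `B` for `g`. -/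
theorem PolyRep.transfer [Infinite k] (B : MatT n (FF k ι)) (Θ : FF k ι →ₐ[k] FF k ι)
    (hΘ : ∀ t, Θ (xx k ι t) = (ev ρ.P B *ᵥ xx k ι) t) {T : Type*} [Fintype T]
    (u : T → FF k ι) (c : T → MvPolynomial (Ent n) (FF k ι))
    (h : ∀ g : (MatT n k)ˣ, ∑ l, eval (pt (inc (FF k ι) (g : MatT n k))) (c l) * ρ.A g (u l) = 0) :
    ∑ l, eval (pt B) (c l) * Θ (u l) = 0 := by
  classical
  obtain ⟨q, hq⟩ := IsLocalization.exist_integer_multiples (nonZeroDivisors (MvPolynomial ι k))
    (Finset.univ : Finset T) u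
  have hq0 : algebraMap (MvPolynomial ι k) (FF k ι) (q : MvPolynomial ι k) ≠ 0 := by
    intro h0
    have : (q : MvPolynomial ι k) = 0 :=
      (IsFractionRing.injective (MvPolynomial ι k) (FF k ι)) (by rw [h0, map_zero])
    exact nonZeroDivisors.ne_zero q.2 this
  choose p hp using fun l => hq l (Finset.mem_univ l)
  have hp' : ∀ l, algebraMap (MvPolynomial ι k) (FF k ι) (p l) =
      algebraMap (MvPolynomial ι k) (FF k ι) (q : MvPolynomial ι k) * u l := by
    intro l
    rw [hp l, Algebra.smul_def]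
  have hΘp : ∀ f : MvPolynomial ι k, Θ (algebraMap (MvPolynomial ι k) (FF k ι) f) =
      aeval (ev ρ.P B *ᵥ xx k ι) f := by
    intro f
    rw [← aeval_xx]
    have : Θ.comp (aeval (xx k ι)) =
        (aeval (ev ρ.P B *ᵥ xx k ι) : MvPolynomial ι k →ₐ[k] FF k ι) := by
      apply MvPolynomial.algHom_ext
      intro t
      rw [AlgHom.comp_apply, aeval_X, aeval_X]
      exact hΘ t
    exact DFunLike.congr_fun this f
  -- the polynomial identity
  have hpoly : ∑ l, c l * aeval (ρ.Y (xx k ι)) (p l) = 0 := by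
    apply eq_zero_of_GL (k := k)
    intro g
    rw [map_sum]
    have h1 := congrArg (fun z => ρ.A g (algebraMap (MvPolynomial ι k) (FF k ι) (q : MvPolynomial ι k)) * z) (h g)
    simp only [mul_zero, Finset.mul_sum] at h1
    rw [← h1]
    refine Finset.sum_congr rfl fun l _ => ?_
    rw [map_mul, ρ.aeval_Y_eval, ← ρ.A_algebraMap, hp', map_mul]
    ring
  have h2 := congrArg (eval (pt B)) hpoly
  rw [map_sum, map_zero] at h2
  have h3 : Θ (algebraMap (MvPolynomial ι k) (FF k ι) (q : MvPolynomial ι k)) *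
      ∑ l, eval (pt B) (c l) * Θ (u l) = 0 := by
    rw [← h2, Finset.mul_sum]
    refine Finset.sum_congr rfl fun l _ => ?_
    rw [map_mul, ρ.aeval_Y_eval, ← hΘp, hp', map_mul]
    ring
  rcases mul_eq_zero.mp h3 with h4 | h4
  · exact absurd h4 ((map_ne_zero_iff Θ Θ.toRingHom.injective).mpr hq0)
  · exact h4

end VDual
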