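import Mathlib
import Pool.Agent.Helper59.VDual.Action

/-!
# Characters of `∏ GL_{n_i}`
-/

set_option linter.unusedSectionVars false

open MvPolynomial Matrix

namespace VDual

variable {I : Type*} [Fintype I] [DecidableEq I] {n : I → Type*} [∀ i, Fintype (n i)]
  [∀ i, DecidableEq (n i)]

/-- determinant of the `l`-th component -/
noncomputable def detl (S : Type*) [CommRing S] (l : I) : (MatT n S)ˣ →* Sˣ :=
  Units.map (Matrix.detMonoidHom.comp (Pi.evalMonoidHom (fun i => Matrix (n i) (n i) S) l))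

theorem detl_val (S : Type*) [CommRing S] (l : I) (g : (MatT n S)ˣ) :
    ((detl S l g : Sˣ) : S) = ((g : MatT n S) l).det := rfl

/-- the character `∏ det(g_l)^{c_l}` -/
noncomputable def chi (S : Type*) [CommRing S] (c : I → ℤ) : (MatT n S)ˣ →* Sˣ where
  toFun g := ∏ l, (detl S l g) ^ (c l)
  map_one' := by simp
  map_mul' g h := by simp [mul_zpow, Finset.prod_mul_distrib]

theorem chi_apply (S : Type*) [CommRing S] (c : I → ℤ) (g : (MatT n S)ˣ) :
    chi S c g = ∏ l, (detl S l g) ^ (c l) := rfl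

/-- the numerator polynomial of a character -/
noncomputable def ep {S : Type*} [CommRing S] (c : I → ℤ) (g : MatT n S) : S :=
  ∏ l, (g l).det ^ (c l).toNat

theorem chi_mul_ep {S : Type*} [CommRing S] (c : I → ℤ) (g : (MatT n S)ˣ) :
    (chi S c g : S) * ep (-c) (g : MatT n S) = ep c (g : MatT n S) := by
  have h1 : ∀ l, (detl S l g) ^ (c l) * (detl S l g) ^ ((-c) l).toNat =
      (detl S l g) ^ (c l).toNat := by
    intro l
    rw [← _root_.zpow_natCast, ← _root_.zpow_natCast, ← _root_.zpow_add]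
    congr 1
    have := Int.toNat_sub_toNat_neg (c l)
    simp only [Pi.neg_apply]
    omega
  have h2 : ∀ (m : I → ℕ), ((∏ l, (detl S l g) ^ (m l) : Sˣ) : S) = ∏ l, ((g : MatT n S) l).det ^ (m l) := by
    intro m
    rw [Units.coe_prod]
    refine Finset.prod_congr rfl fun l _ => ?_
    rw [Units.val_pow_eq_pow_val, detl_val]
  rw [ep, ep, ← h2, ← h2, ← Units.val_mul, chi_apply, ← Finset.prod_mul_distrib]
  congr 1
  exact Finset.prod_congr rfl fun l _ => h1 l

theorem ep_ne_zero {F : Type*} [Field F] (c : I → ℤ) (g : (MatT n F)ˣ) :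
    ep c (g : MatT n F) ≠ 0 := by
  rw [ep, Finset.prod_ne_zero_iff]
  intro l _
  apply pow_ne_zero
  rw [← detl_val]
  exact Units.ne_zero _

theorem ep_gen {S T : Type*} [CommRing S] [CommRing T] [Algebra S T] (c : I → ℤ) (θ : MatT n T) :
    aeval (pt θ) (ep c (gen n S)) = ep c θ := by
  rw [ep, ep, map_prod]
  refine Finset.prod_congr rfl fun i _ => ?_
  rw [map_pow, AlgHom.map_det]
  congr 2
  exact gen_eval θ i

theorem chi_inc {k L : Type*} [Field k] [Field L] [Algebra k L] (c : I → ℤ) (g : (MatT n k)ˣ) :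
    ((chi L c (incU L g) : Lˣ) : L) = algebraMap k L (chi k c g : k) := by
  rw [chi_apply, chi_apply, Units.coe_prod, Units.coe_prod, map_prod]
  refine Finset.prod_congr rfl fun l _ => ?_
  rw [Units.val_zpow_eq_zpow_val, Units.val_zpow_eq_zpow_val, map_zpow₀, detl_val, detl_val]
  congr 1
  exact (RingHom.map_det (algebraMap k L) _).symm

/-- scalar tuple -/
def scal {S : Type*} [CommRing S] (c : I → S) : MatT n S := fun i => c i • (1 : Matrix (n i) (n i) S)

end VDual
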