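import Mathlib
import Pool.Agent.Helper59.VDual.Chi

/-!
# Extending a rational representation of `∏ SL_{n_i}` with a central character to a
multihomogeneous polynomial representation of `∏ Mat_{n_i}`
-/

set_option linter.unusedSectionVars false
set_option linter.style.haveILetI false

open MvPolynomial Matrix

namespace VDual

variable {I : Type*} [Fintype I] [DecidableEq I] {n : I → Type*} [∀ i, Fintype (n i)]
  [∀ i, DecidableEq (n i)]
variable {k : Type*} [Field k] {ι : Type*} [Fintype ι] [DecidableEq ι]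

/-- a polynomial matrix which is multiplicative on `∏ GL` is a polynomial representation -/
noncomputable def PolyRep.ofGL [Infinite k] (P : Matrix ι ι (MvPolynomial (Ent n) k))
    (h1 : ev P (1 : MatT n k) = 1)
    (hmul : ∀ g h : (MatT n k)ˣ, ev P ((g : MatT n k) * (h : MatT n k)) =
      ev P (g : MatT n k) * ev P (h : MatT n k)) : PolyRep k n ι where
  P := P
  one := h1
  mul := by
    let U := MvPolynomial (Ent n ⊕ Ent n) k
    let G1 : MatT n U := unpt (fun e => X (Sum.inl e))
    let G2 : MatT n U := unpt (fun e => X (Sum.inr e))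
    have hv1 : ∀ v : Ent n ⊕ Ent n → k, mapT (aeval v : U →ₐ[k] k) G1 = unpt (fun e => v (Sum.inl e)) := by
      intro v
      funext i
      ext p q
      change aeval v (X (Sum.inl ⟨i, (p, q)⟩)) = _
      rw [aeval_X]
      rfl
    have hv2 : ∀ v : Ent n ⊕ Ent n → k, mapT (aeval v : U →ₐ[k] k) G2 = unpt (fun e => v (Sum.inr e)) := by
      intro v
      funext i
      ext p q
      change aeval v (X (Sum.inr ⟨i, (p, q)⟩)) = _
      rw [aeval_X]
      rfl
    have hv3 : ∀ v : Ent n ⊕ Ent n → k, mapT (aeval v : U →ₐ[k] k) (G1 * G2) =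
        unpt (fun e => v (Sum.inl e)) * unpt (fun e => v (Sum.inr e)) := by
      intro v
      have := mapT_mul ((aeval v : U →ₐ[k] k) : U →+* k) G1 G2
      have h2 : mapT (aeval v : U →ₐ[k] k) (G1 * G2) =
        mapT (aeval v : U →ₐ[k] k) G1 * mapT (aeval v : U →ₐ[k] k) G2 := this
      rw [h2, hv1, hv2]
    have huniv : ev P (G1 * G2) = ev P G1 * ev P G2 := by
      refine Matrix.ext fun a b => ?_
      have hF : ((ev P (G1 * G2)) a b - (ev P G1 * ev P G2) a b) *
          (rename Sum.inl (omg n k) * rename Sum.inr (omg n k)) = 0 := by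
        apply MvPolynomial.funext
        intro v
        rw [map_mul, map_zero, map_mul, eval_rename, eval_rename]
        by_cases hd1 : ∏ i, (unpt (n := n) (fun e => v (Sum.inl e)) i).det = 0
        · have e3 := omg_eval (S := k) (unpt (n := n) (fun e => v (Sum.inl e)))
          rw [hd1, pt_unpt] at e3
          have e4 : eval (v ∘ Sum.inl) (omg n k) = 0 := e3
          rw [e4, zero_mul, mul_zero]
        by_cases hd2 : ∏ i, (unpt (n := n) (fun e => v (Sum.inr e)) i).det = 0
        · have e3 := omg_eval (S := k) (unpt (n := n) (fun e => v (Sum.inr e)))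
          rw [hd2, pt_unpt] at e3
          have e4 : eval (v ∘ Sum.inr) (omg n k) = 0 := e3
          rw [e4, mul_zero, mul_zero]
        obtain ⟨g, hg⟩ := isUnit_of_omg_ne_zero _ hd1
        obtain ⟨h, hh⟩ := isUnit_of_omg_ne_zero _ hd2
        have e1 : eval v ((ev P (G1 * G2)) a b) = (ev P ((g : MatT n k) * (h : MatT n k))) a b := by
          have := congrFun (congrFun (ev_map (aeval v : U →ₐ[k] k) P (G1 * G2)) a) b
          rw [hv3, ← hg, ← hh] at this
          exact this
        have e2 : eval v ((ev P G1 * ev P G2) a b) = (ev P (g : MatT n k) * ev P (h : MatT n k)) a b := by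
          have e3 : (ev P G1 * ev P G2).map (aeval v : U →ₐ[k] k) =
              (ev P G1).map (aeval v : U →ₐ[k] k) * (ev P G2).map (aeval v : U →ₐ[k] k) :=
            Matrix.map_mul
          rw [ev_map, ev_map, hv1, hv2, ← hg, ← hh] at e3
          exact congrFun (congrFun e3 a) b
        rw [map_sub, e1, e2, hmul, sub_self, zero_mul]
      rcases mul_eq_zero.mp hF with h | h
      · exact sub_eq_zero.mp h
      · rcases mul_eq_zero.mp h with h | h
        · exact absurd (rename_injective _ Sum.inl_injective (by rw [h, map_zero])) (omg_ne_zero k)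
        · exact absurd (rename_injective _ Sum.inr_injective (by rw [h, map_zero])) (omg_ne_zero k)
    intro g h
    let v : Ent n ⊕ Ent n → k := Sum.elim (pt g) (pt h)
    have h2 : (ev P (G1 * G2)).map (aeval v : U →ₐ[k] k) = (ev P G1 * ev P G2).map (aeval v : U →ₐ[k] k) := by
      rw [huniv]
    rw [Matrix.map_mul, ev_map, ev_map, ev_map, hv1, hv2, hv3] at h2
    exact h2

theorem PolyRep.ofGL_P [Infinite k] (P : Matrix ι ι (MvPolynomial (Ent n) k)) (h1) (hmul) :
    (PolyRep.ofGL (k := k) P h1 hmul).P = P := rfl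

/-- block degree of a monomial -/
def bdeg (s : Ent n →₀ ℕ) (i : I) : ℕ := ∑ pq : n i × n i, s ⟨i, pq⟩

/-- compatible monomials -/
def Good (e : I → ℕ) (s : Ent n →₀ ℕ) : Prop :=
  ∀ i, bdeg s i ≤ e i ∧ Fintype.card (n i) ∣ e i - bdeg s i

open Classical in
/-- the homogenised polynomial -/
noncomputable def extP (e : I → ℕ) (p : MvPolynomial (Ent n) k) : MvPolynomial (Ent n) k :=
  ∑ s ∈ p.support, if Good e s then
    monomial s (p.coeff s) * ∏ i, (gen n k i).det ^ ((e i - bdeg s i) / Fintype.card (n i)) else 0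

theorem aeval_monomial' {S : Type*} [CommRing S] [Algebra k S] (g : MatT n S) (s : Ent n →₀ ℕ) (a : k) :
    aeval (pt g) (monomial s a) = algebraMap k S a * ∏ i, ∏ pq : n i × n i, (g i pq.1 pq.2) ^ (s ⟨i, pq⟩) := by
  rw [aeval_monomial, Finsupp.prod_fintype _ _ (fun _ => pow_zero _), Fintype.prod_sigma]
  rfl

open Classical in
theorem aeval_extP {S : Type*} [CommRing S] [Algebra k S] (g : MatT n S) (e : I → ℕ)
    (p : MvPolynomial (Ent n) k) : aeval (pt g) (extP e p) =
      ∑ s ∈ p.support, if Good e s then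
        (algebraMap k S (p.coeff s) * ∏ i, ∏ pq : n i × n i, (g i pq.1 pq.2) ^ (s ⟨i, pq⟩)) *
          ∏ i, (g i).det ^ ((e i - bdeg s i) / Fintype.card (n i)) else 0 := by
  rw [extP, map_sum]
  refine Finset.sum_congr rfl fun s _ => ?_
  split_ifs with h
  · rw [map_mul, aeval_monomial', map_prod]
    congr 1
    refine Finset.prod_congr rfl fun i _ => ?_
    rw [map_pow, AlgHom.map_det]
    congr 2
    exact gen_eval g i
  · rw [map_zero]

theorem mon_scal {S : Type*} [CommRing S] (c : I → S) (g : MatT n S) (s : Ent n →₀ ℕ) :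
    ∏ i, ∏ pq : n i × n i, ((scal c * g : MatT n S) i pq.1 pq.2) ^ (s ⟨i, pq⟩) =
      (∏ i, c i ^ bdeg s i) * ∏ i, ∏ pq : n i × n i, (g i pq.1 pq.2) ^ (s ⟨i, pq⟩) := by
  rw [← Finset.prod_mul_distrib]
  refine Finset.prod_congr rfl fun i _ => ?_
  rw [bdeg, ← Finset.prod_pow_eq_pow_sum, ← Finset.prod_mul_distrib]
  refine Finset.prod_congr rfl fun pq _ => ?_
  rw [← mul_pow]
  congr 1
  simp [scal, Pi.mul_apply]

theorem aeval_extP_scal {S : Type*} [CommRing S] [Algebra k S] (c : I → S) (g : MatT n S) (e : I → ℕ)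
    (p : MvPolynomial (Ent n) k) : aeval (pt (scal c * g)) (extP e p) =
      (∏ i, c i ^ e i) * aeval (pt g) (extP e p) := by
  classical
  rw [aeval_extP, aeval_extP, Finset.mul_sum]
  refine Finset.sum_congr rfl fun s _ => ?_
  split_ifs with h
  · rw [mon_scal]
    have h1 : ∏ i, ((scal c * g : MatT n S) i).det ^ ((e i - bdeg s i) / Fintype.card (n i)) =
        (∏ i, c i ^ (e i - bdeg s i)) * ∏ i, (g i).det ^ ((e i - bdeg s i) / Fintype.card (n i)) := by
      rw [← Finset.prod_mul_distrib]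
      refine Finset.prod_congr rfl fun i _ => ?_
      have e1 : (scal c * g : MatT n S) i = c i • g i := by simp [scal, Pi.mul_apply]
      rw [e1, Matrix.det_smul, mul_pow, ← pow_mul, Nat.mul_div_cancel' (h i).2]
    have h2 : ∏ i, c i ^ e i = (∏ i, c i ^ bdeg s i) * ∏ i, c i ^ (e i - bdeg s i) := by
      rw [← Finset.prod_mul_distrib]
      refine Finset.prod_congr rfl fun i _ => ?_
      rw [← pow_add, Nat.add_sub_cancel' (h i).1]
    rw [h1, h2]
    ring
  · rw [mul_zero]

/-- the finite group of central elements -/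
abbrev ZZ (n : I → Type*) [∀ i, Fintype (n i)] (k : Type*) [Field k] : Type _ :=
  ∀ i, rootsOfUnity (Fintype.card (n i)) k

theorem extP_SL [IsAlgClosed k] [CharZero k] [∀ i, Nonempty (n i)] (e : I → ℕ)
    (p : MvPolynomial (Ent n) k)
    (hdeg : ∀ s ∈ p.support, ∀ i, bdeg s i ≤ e i) (g : MatT n k) (hg : ∀ i, (g i).det = 1)
    (hz : ∀ z : ZZ n k, aeval (pt (scal (fun i => (((z i : kˣ)) : k)) * g)) p =
      (∏ i, ((z i : kˣ) : k) ^ e i) * aeval (pt g) p) :
    aeval (pt g) (extP e p) = aeval (pt g) p := by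
  classical
  haveI : ∀ i, NeZero (Fintype.card (n i)) := fun i => ⟨Fintype.card_ne_zero⟩
  haveI : Finite (ZZ n k) := inferInstanceAs (Finite (∀ i, rootsOfUnity (Fintype.card (n i)) k))
  haveI : Fintype (ZZ n k) := Fintype.ofFinite _
  let ψ : (Ent n →₀ ℕ) → (ZZ n k →* k) := fun s =>
    { toFun := fun z => ∏ i, (((z i : kˣ) : k) ^ bdeg s i * ((((z i : kˣ)⁻¹ : kˣ) : k)) ^ e i)
      map_one' := by
        apply Finset.prod_eq_one
        intro i _
        have h1 : (((1 : ZZ n k) i : kˣ)) = 1 := rfl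
        rw [h1]
        simp
      map_mul' := by
        intro z w
        rw [← Finset.prod_mul_distrib]
        refine Finset.prod_congr rfl fun i _ => ?_
        have h1 : (((z * w : ZZ n k) i : kˣ)) = (z i : kˣ) * (w i : kˣ) := rfl
        rw [h1, mul_inv, Units.val_mul, Units.val_mul, mul_pow, mul_pow]
        ring }
  have hψ : ∀ s ∈ p.support, (ψ s = 1 ↔ Good e s) := by
    intro s hs
    constructor
    · intro h i
      refine ⟨hdeg s hs i, ?_⟩
      obtain ⟨ζ, hζ⟩ : ∃ ζ : k, IsPrimitiveRoot ζ (Fintype.card (n i)) :=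
        HasEnoughRootsOfUnity.exists_primitiveRoot k (Fintype.card (n i))
      let ζu : rootsOfUnity (Fintype.card (n i)) k := hζ.toRootsOfUnity
      have h1 := DFunLike.congr_fun h (Pi.mulSingle i ζu : ZZ n k)
      have h2 : ψ s (Pi.mulSingle i ζu : ZZ n k) = ζ ^ bdeg s i * (ζ⁻¹) ^ e i := by
        change ∏ j, ((((Pi.mulSingle i ζu : ZZ n k) j : kˣ) : k) ^ bdeg s j *
          (((((Pi.mulSingle i ζu : ZZ n k) j : kˣ))⁻¹ : kˣ) : k) ^ e j) = _
        rw [Finset.prod_eq_single i]
        · rw [Pi.mulSingle_eq_same, Units.val_inv_eq_inv_val]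
          rfl
        · intro j _ hj
          rw [Pi.mulSingle_eq_of_ne hj]
          simp
        · simp
      rw [h2] at h1
      have hζ0 : ζ ≠ 0 := hζ.ne_zero Fintype.card_ne_zero
      have h3 : ζ ^ bdeg s i = ζ ^ e i := by
        have h4 : (1 : ZZ n k →* k) (Pi.mulSingle i ζu : ZZ n k) = 1 := rfl
        rw [h4, inv_pow, mul_inv_eq_one₀ (pow_ne_zero _ hζ0)] at h1
        exact h1
      apply hζ.dvd_of_pow_eq_one
      have h5 : ζ ^ bdeg s i * ζ ^ (e i - bdeg s i) = ζ ^ bdeg s i * 1 := by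
        rw [← pow_add, Nat.add_sub_cancel' (hdeg s hs i), mul_one, h3]
      exact mul_left_cancel₀ (pow_ne_zero _ hζ0) h5
    · intro h
      apply MonoidHom.ext
      intro z
      change ∏ i, (((z i : kˣ) : k) ^ bdeg s i * ((((z i : kˣ)⁻¹ : kˣ) : k)) ^ e i) = 1
      apply Finset.prod_eq_one
      intro i _
      obtain ⟨h1, t, ht⟩ := h i
      have h2 : e i = bdeg s i + Fintype.card (n i) * t := by omega
      have h3 : ((z i : kˣ) : k) ^ (Fintype.card (n i)) = 1 := by
        have := (z i).2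
        rw [mem_rootsOfUnity] at this
        rw [← Units.val_pow_eq_pow_val, this, Units.val_one]
      rw [Units.val_inv_eq_inv_val, h2, inv_pow, pow_add, pow_mul, h3, one_pow, mul_one]
      exact mul_inv_cancel₀ (pow_ne_zero _ (Units.ne_zero _))
  -- average
  have hp : ∀ (g : MatT n k), aeval (pt g) p =
      ∑ s ∈ p.support, p.coeff s * ∏ i, ∏ pq : n i × n i, (g i pq.1 pq.2) ^ (s ⟨i, pq⟩) := by
    intro g
    conv_lhs => rw [p.as_sum, map_sum]
    refine Finset.sum_congr rfl fun s _ => ?_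
    rw [aeval_monomial']
    rfl
  have havg : ∑ z : ZZ n k, (∏ i, ((((z i : kˣ)⁻¹ : kˣ) : k)) ^ e i) *
      aeval (pt (scal (fun i => (((z i : kˣ)) : k)) * g)) p = (Fintype.card (ZZ n k) : k) * aeval (pt g) p := by
    have : ∀ z : ZZ n k, (∏ i, ((((z i : kˣ)⁻¹ : kˣ) : k)) ^ e i) *
      aeval (pt (scal (fun i => (((z i : kˣ)) : k)) * g)) p = aeval (pt g) p := by
      intro z
      rw [hz z, ← mul_assoc, ← Finset.prod_mul_distrib]
      have : ∏ i, (((((z i : kˣ)⁻¹ : kˣ) : k)) ^ e i * ((z i : kˣ) : k) ^ e i) = 1 := by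
        apply Finset.prod_eq_one
        intro i _
        rw [← mul_pow, Units.inv_mul, one_pow]
      rw [this, one_mul]
    rw [Finset.sum_congr rfl fun z _ => this z, Finset.sum_const, Finset.card_univ, nsmul_eq_mul]
  have havg2 : ∑ z : ZZ n k, (∏ i, ((((z i : kˣ)⁻¹ : kˣ) : k)) ^ e i) *
      aeval (pt (scal (fun i => (((z i : kˣ)) : k)) * g)) p =
      (Fintype.card (ZZ n k) : k) * ∑ s ∈ p.support, if Good e s then
        (p.coeff s * ∏ i, ∏ pq : n i × n i, (g i pq.1 pq.2) ^ (s ⟨i, pq⟩)) else 0 := by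
    have h1 : ∀ z : ZZ n k, (∏ i, ((((z i : kˣ)⁻¹ : kˣ) : k)) ^ e i) *
        aeval (pt (scal (fun i => (((z i : kˣ)) : k)) * g)) p =
        ∑ s ∈ p.support, (p.coeff s * ∏ i, ∏ pq : n i × n i, (g i pq.1 pq.2) ^ (s ⟨i, pq⟩)) * ψ s z := by
      intro z
      rw [hp, Finset.mul_sum]
      refine Finset.sum_congr rfl fun s _ => ?_
      rw [mon_scal]
      have : ψ s z = (∏ i, ((z i : kˣ) : k) ^ bdeg s i) * ∏ i, ((((z i : kˣ)⁻¹ : kˣ) : k)) ^ e i := by
        rw [← Finset.prod_mul_distrib]
        rfl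
      rw [this]
      ring
    rw [Finset.sum_congr rfl fun z _ => h1 z, Finset.sum_comm, Finset.mul_sum]
    refine Finset.sum_congr rfl fun s hs => ?_
    rw [← Finset.mul_sum, sum_hom_units]
    by_cases h : Good e s
    · rw [if_pos h, if_pos ((hψ s hs).mpr h)]
      push_cast
      ring
    · rw [if_neg h, if_neg (fun h' => h ((hψ s hs).mp h'))]
      simp
  have hcard : (Fintype.card (ZZ n k) : k) ≠ 0 := by
    rw [Nat.cast_ne_zero]
    exact Fintype.card_ne_zero
  have h3 := havg.symm.trans havg2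
  have h4 := mul_left_cancel₀ hcard h3
  rw [h4, aeval_extP]
  refine Finset.sum_congr rfl fun s _ => ?_
  split_ifs with h
  · have : ∏ i, (g i).det ^ ((e i - bdeg s i) / Fintype.card (n i)) = 1 := by
      apply Finset.prod_eq_one
      intro i _
      rw [hg i, one_pow]
    rw [this, mul_one]
    rfl
  · rfl

end VDual
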