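import Mathlib

/-!
# The integers `c_il`, `ε_ij`
-/

set_option linter.unusedSectionVars false
set_option linter.style.haveILetI false

namespace VDual

theorem exists_int (k : Type*) [Field k] [IsAlgClosed k] [CharZero k] {I J : Type*} [Fintype I]
    [DecidableEq I] [Fintype J] (n : I → ℕ) (hn : ∀ i, n i ≠ 0) (e : J → I → ℕ)
    (h : ∀ z : I → kˣ, (∀ i, z i ^ n i = 1) → (∀ j, ∏ i, z i ^ e j i = 1) → ∀ i, z i ^ 2 = 1)
    (i0 : I) :
    ∃ (c : I → ℤ) (ε : J → ℤ), ∀ l, (n l : ℤ) * c l - ∑ j, (e j l : ℤ) * ε j =
      if l = i0 then 2 else 0 := by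
  classical
  haveI : ∀ i, NeZero (n i) := fun i => ⟨hn i⟩
  let Γ := ∀ l, ZMod (n l)
  let vec : J → Γ := fun j l => (e j l : ZMod (n l))
  let x : Γ := Pi.single i0 2
  let H : Submodule ℤ Γ := Submodule.span ℤ (Set.range vec)
  have hx : x ∈ H := by
    by_contra hx
    haveI : Finite Γ := inferInstanceAs (Finite (∀ l, ZMod (n l)))
    haveI : Finite (Γ ⧸ H) := inferInstance
    let Q := Multiplicative (Γ ⧸ H)
    haveI : Finite Q := inferInstanceAs (Finite (Γ ⧸ H))
    let xb : Q := Multiplicative.ofAdd (Submodule.Quotient.mk x)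
    have hxb : xb ≠ 1 := by
      intro h0
      apply hx
      rw [← Submodule.Quotient.mk_eq_zero]
      exact Multiplicative.ofAdd.injective h0
    haveI : NeZero (Monoid.exponent Q) := ⟨Monoid.exponent_ne_zero_of_finite⟩
    obtain ⟨φ, hφ⟩ := CommGroup.exists_apply_ne_one_of_hasEnoughRootsOfUnity Q k hxb
    -- the homomorphism on `Γ`
    let ψ : Γ → kˣ := fun y => φ (Multiplicative.ofAdd (Submodule.Quotient.mk y))
    have hadd : ∀ y y', ψ (y + y') = ψ y * ψ y' := by
      intro y y'
      simp only [ψ]
      rw [← map_mul, ← ofAdd_add, ← Submodule.Quotient.mk_add]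
    have hzero : ψ 0 = 1 := by
      have := hadd 0 0
      rw [add_zero] at this
      exact (mul_eq_left.mp this.symm)
    have hsmul : ∀ (m : ℕ) y, ψ (m • y) = ψ y ^ m := by
      intro m y
      induction m with
      | zero => rw [zero_smul, hzero, pow_zero]
      | succ m ih => rw [succ_nsmul, hadd, ih, pow_succ]
    have hsum : ∀ (s : Finset I) (f : I → Γ), ψ (∑ i ∈ s, f i) = ∏ i ∈ s, ψ (f i) := by
      intro s f
      induction s using Finset.induction_on with
      | empty => rw [Finset.sum_empty, Finset.prod_empty, hzero]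
      | insert a s ha ih => rw [Finset.sum_insert ha, Finset.prod_insert ha, hadd, ih]
    let z : I → kˣ := fun l => ψ (Pi.single l 1)
    have hz1 : ∀ l, z l ^ n l = 1 := by
      intro l
      rw [← hsmul]
      have : (n l) • (Pi.single l 1 : Γ) = 0 := by
        funext l'
        by_cases hl : l' = l
        · subst hl
          simp
        · simp [hl]
      rw [this, hzero]
    have hz2 : ∀ j, ∏ i, z i ^ e j i = 1 := by
      intro j
      have h1 : vec j = ∑ i, (e j i) • (Pi.single i 1 : Γ) := by
        funext l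
        rw [Finset.sum_apply, Finset.sum_eq_single l]
        · simp [vec]
        · intro i _ hi
          simp [hi.symm]
        · simp
      have h2 : ψ (vec j) = 1 := by
        have h3 : (Submodule.Quotient.mk (vec j) : Γ ⧸ H) = 0 := by
          rw [Submodule.Quotient.mk_eq_zero]
          exact Submodule.subset_span ⟨j, rfl⟩
        simp only [ψ]
        rw [h3, ofAdd_zero, map_one]
      rw [← h2, h1, hsum]
      refine Finset.prod_congr rfl fun i _ => ?_
      rw [hsmul]
    have hz3 := h z hz1 hz2 i0
    apply hφ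
    have h1 : x = 2 • (Pi.single i0 1 : Γ) := by
      funext l
      by_cases hl : l = i0
      · subst hl
        simp [x]
      · simp [x, hl]
    change ψ x = 1
    rw [h1, hsmul]
    exact hz3
  rw [Submodule.mem_span_range_iff_exists_fun] at hx
  obtain ⟨c, hc⟩ := hx
  have hdvd : ∀ l, (n l : ℤ) ∣ (if l = i0 then 2 else 0) - ∑ j, (e j l : ℤ) * c j := by
    intro l
    have h1 := congrFun hc l
    rw [← ZMod.intCast_zmod_eq_zero_iff_dvd]
    push_cast
    rw [sub_eq_zero]
    have h2 : x l = ((if l = i0 then 2 else 0 : ℤ) : ZMod (n l)) := by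
      by_cases hl : l = i0
      · subst hl
        simp [x]
      · simp [x, hl]
    rw [Finset.sum_apply, h2] at h1
    push_cast at h1
    rw [← h1]
    refine Finset.sum_congr rfl fun j _ => ?_
    rw [Pi.smul_apply, zsmul_eq_mul, mul_comm]
  choose d hd using hdvd
  refine ⟨d, fun j => - c j, ?_⟩
  intro l
  rw [← hd l]
  simp only [mul_neg, Finset.sum_neg_distrib]
  ring

end VDual
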