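import Mathlib

/-!
# Lemma F

If `E / F` is an extension of fields of characteristic zero and `r ⊗ 1 - 1 ⊗ r` is nilpotent in
`E ⊗[F] E`, then `r ∈ F`.
-/

open scoped TensorProduct
open Polynomial

namespace VDual

variable {F E : Type*} [Field F] [Field E] [Algebra F E]

/-- the functional `id ⊗ ℓ : E ⊗ E → E` -/
noncomputable def idTensor (l : E →ₗ[F] F) : E ⊗[F] E →ₗ[F] E :=
  (TensorProduct.rid F E).toLinearMap ∘ₗ (TensorProduct.map LinearMap.id l)

theorem idTensor_tmul (l : E →ₗ[F] F) (a b : E) : idTensor l (a ⊗ₜ b) = l b • a := by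
  simp [idTensor]

theorem mem_range_of_tmul_eq (r : E) (h : r ⊗ₜ[F] (1 : E) = (1 : E) ⊗ₜ[F] r) :
    r ∈ Set.range (algebraMap F E) := by
  by_contra hr
  have hnot : r ∉ Submodule.span F {(1 : E)} := by
    intro hmem
    obtain ⟨c, hc⟩ := Submodule.mem_span_singleton.mp hmem
    exact hr ⟨c, by rw [Algebra.algebraMap_eq_smul_one]; exact hc⟩
  obtain ⟨l, hl, hl'⟩ := Submodule.exists_le_ker_of_notMem hnot
  have h1 : l 1 = 0 := by
    have : (1 : E) ∈ LinearMap.ker l := hl' (Submodule.mem_span_singleton_self 1)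
    simpa using this
  have h2 := congrArg (idTensor l) h
  rw [idTensor_tmul, idTensor_tmul, h1, zero_smul] at h2
  have h3 : (l r) • (1 : E) = 0 := h2.symm
  rcases smul_eq_zero.mp h3 with h4 | h4
  · exact hl h4
  · exact one_ne_zero h4

theorem not_nilpotent_of_transcendental (r : E) (hr : Transcendental F r) :
    ¬ IsNilpotent (r ⊗ₜ[F] (1 : E) - (1 : E) ⊗ₜ[F] r) := by
  rintro ⟨m, hm⟩
  have hinj := (transcendental_iff_injective (R := F) (x := r)).mp hr
  -- a functional which is non-zero at `1` and kills the positive powers of `r`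
  set W : Submodule F E := Submodule.map (aeval (R := F) r).toLinearMap
    (LinearMap.ker (Polynomial.lcoeff F 0)) with hW
  have h1W : (1 : E) ∉ W := by
    rintro ⟨p, hp, hp'⟩
    have hp1 : p = 1 := by
      apply hinj
      simpa using hp'
    rw [hp1] at hp
    simp at hp
  obtain ⟨l, hl, hl'⟩ := Submodule.exists_le_ker_of_notMem h1W
  have hpow : ∀ j : ℕ, j ≠ 0 → l (r ^ j) = 0 := by
    intro j hj
    have : r ^ j ∈ LinearMap.ker l := by
      apply hl'
      refine ⟨X ^ j, ?_, by simp⟩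
      simp [Polynomial.coeff_X_pow, hj.symm]
    simpa using this
  have hr0 : r ≠ 0 := by
    rintro rfl
    exact hr (isAlgebraic_zero)
  have key : idTensor l ((r ⊗ₜ[F] (1 : E) - (1 : E) ⊗ₜ[F] r) ^ m) = l 1 • r ^ m := by
    rw [sub_eq_add_neg, add_pow, map_sum, Finset.sum_eq_single m]
    · simp [Algebra.TensorProduct.tmul_pow, idTensor_tmul]
    · intro b hb hbm
      have hlt : m - b ≠ 0 := by
        have := Finset.mem_range.mp hb
        omega
      have e1 : (r ⊗ₜ[F] (1 : E)) ^ b * (-((1 : E) ⊗ₜ[F] r)) ^ (m - b) * ((m.choose b : ℕ) : E ⊗[F] E)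
          = ((-1) ^ (m - b) * (m.choose b : F)) • ((r ^ b) ⊗ₜ[F] (r ^ (m - b))) := by
        rw [neg_pow, Algebra.TensorProduct.tmul_pow, Algebra.TensorProduct.tmul_pow, one_pow,
          one_pow, Algebra.smul_def, map_mul, map_pow, map_neg, map_one, map_natCast]
        have : (r ^ b) ⊗ₜ[F] (r ^ (m - b)) = ((r ^ b) ⊗ₜ[F] (1 : E)) * ((1 : E) ⊗ₜ[F] (r ^ (m - b))) := by
          rw [Algebra.TensorProduct.tmul_mul_tmul, mul_one, one_mul]
        rw [this]
        ring
      rw [e1, map_smul, idTensor_tmul, hpow _ hlt, zero_smul, smul_zero]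
    · intro h
      exact absurd (Finset.mem_range.mpr (Nat.lt_succ_self m)) h
  rw [hm, map_zero] at key
  rcases smul_eq_zero.mp key.symm with h4 | h4
  · exact hl h4
  · exact pow_ne_zero m hr0 h4

theorem mem_range_of_algebraic [CharZero F] (r : E) (hr : IsAlgebraic F r)
    (hn : IsNilpotent (r ⊗ₜ[F] (1 : E) - (1 : E) ⊗ₜ[F] r)) :
    r ∈ Set.range (algebraMap F E) := by
  obtain ⟨m, hm⟩ := hn
  have hint : IsIntegral F r := hr.isIntegral
  set f : F[X] := minpoly F r with hf
  have hirr : Irreducible f := minpoly.irreducible hint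
  have hsep : f.Separable := hirr.separable
  -- factor over `E`
  set fE : E[X] := f.map (algebraMap F E) with hfE
  have hroot : fE.IsRoot r := by
    rw [IsRoot.def, hfE, eval_map_algebraMap, hf]
    exact minpoly.aeval F r
  obtain ⟨g, hg⟩ := dvd_iff_isRoot.mpr hroot
  have hgr : g.eval r ≠ 0 := by
    intro h0
    have hsepE : fE.Separable := hsep.map
    have hd := hsepE.eval₂_derivative_ne_zero (RingHom.id E) (x := r) (by simpa [eval₂_id] using hroot)
    apply hd
    rw [eval₂_id, hg, derivative_mul, eval_add, eval_mul, eval_mul]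
    simp [h0]
  have hcop : IsCoprime g ((X - C r) ^ m) := by
    apply IsCoprime.pow_right
    apply IsCoprime.symm
    rw [Polynomial.irreducible_X_sub_C r |>.coprime_iff_not_dvd]
    intro hdvd
    exact hgr (dvd_iff_isRoot.mp hdvd)
  obtain ⟨a, b, hab⟩ := hcop
  -- evaluate at `t = 1 ⊗ r`
  set t : E ⊗[F] E := (1 : E) ⊗ₜ[F] r with ht
  have e1 : aeval t ((X - C r) ^ m : E[X]) = 0 := by
    rw [map_pow, map_sub, aeval_X, aeval_C, Algebra.TensorProduct.algebraMap_apply]
    have : t - (algebraMap E E r) ⊗ₜ[F] (1 : E) = -(r ⊗ₜ[F] (1 : E) - (1 : E) ⊗ₜ[F] r) := by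
      simp [ht]
    rw [this, neg_pow, hm, mul_zero]
  have e2 : aeval t a * aeval t g = 1 := by
    have := congrArg (aeval t) hab
    rw [map_add, map_mul, map_mul, e1, mul_zero, add_zero, map_one] at this
    exact this
  have e3 : aeval t fE = 0 := by
    have h1 : aeval t fE = aeval (R := F) t f := by
      rw [hfE, aeval_map_algebraMap]
    rw [h1]
    have h2 : aeval (R := F) t f = Algebra.TensorProduct.includeRight (aeval (R := F) r f) := by
      have h3 : t = (Algebra.TensorProduct.includeRight : E →ₐ[F] E ⊗[F] E) r := rfl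
      rw [h3, aeval_algHom_apply]
    rw [h2, hf, minpoly.aeval, map_zero]
  have e4 : t - r ⊗ₜ[F] (1 : E) = 0 := by
    have h1 : aeval t fE = (t - r ⊗ₜ[F] (1 : E)) * aeval t g := by
      rw [hg, map_mul, map_sub, aeval_X, aeval_C, Algebra.TensorProduct.algebraMap_apply]
      rfl
    have h2 : (t - r ⊗ₜ[F] (1 : E)) * (aeval t a * aeval t g) = 0 := by
      calc (t - r ⊗ₜ[F] (1 : E)) * (aeval t a * aeval t g)
          = ((t - r ⊗ₜ[F] (1 : E)) * aeval t g) * aeval t a := by ring
        _ = 0 := by rw [← h1, e3, zero_mul]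
    rw [e2, mul_one] at h2
    exact h2
  apply mem_range_of_tmul_eq
  exact (sub_eq_zero.mp e4).symm

/-- **Lemma F**. -/
theorem mem_range_of_nilpotent [CharZero F] (r : E)
    (hn : IsNilpotent (r ⊗ₜ[F] (1 : E) - (1 : E) ⊗ₜ[F] r)) :
    r ∈ Set.range (algebraMap F E) := by
  by_cases hr : IsAlgebraic F r
  · exact mem_range_of_algebraic r hr hn
  · exact absurd hn (not_nilpotent_of_transcendental r hr)

end VDual
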