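import Mathlib
import Pool.Agent.Helper59.VDual.LemmaF

/-!
# Claim X

A polynomial function `u / w` of `(x, s)` that is determined, generically, by `(x, y(x, s))` is a
rational function of `(x, y)`.
-/

open scoped TensorProduct
open MvPolynomial

namespace VDual

variable {k : Type*} [Field k] [IsAlgClosed k] [CharZero k]
variable {ι ι' κ : Type*} [Finite ι] [Finite κ]

theorem claimX (y : ι' → MvPolynomial (ι ⊕ κ) k) (D u w : MvPolynomial (ι ⊕ κ) k)
    (hD : D ≠ 0) (hw : w ≠ 0)
    (h : ∀ (x : ι → k) (s s' : κ → k), eval (Sum.elim x s) D ≠ 0 → eval (Sum.elim x s') D ≠ 0 →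
      (∀ i, eval (Sum.elim x s) (y i) = eval (Sum.elim x s') (y i)) →
      eval (Sum.elim x s) u * eval (Sum.elim x s') w =
        eval (Sum.elim x s') u * eval (Sum.elim x s) w) :
    ∃ P Q : MvPolynomial (ι ⊕ ι') k,
      aeval (Sum.elim (fun i => X (Sum.inl i)) y) Q ≠ 0 ∧
      aeval (Sum.elim (fun i => X (Sum.inl i)) y) P * w =
        u * aeval (Sum.elim (fun i => X (Sum.inl i)) y) Q := by
  classical
  let S := MvPolynomial (ι ⊕ κ) k
  let E := FractionRing S
  let z0 : ι ⊕ ι' → S := Sum.elim (fun i => X (Sum.inl i)) y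
  let z : ι ⊕ ι' → E := fun i => algebraMap S E (z0 i)
  let F : IntermediateField k E := IntermediateField.adjoin k (Set.range z)
  let A := E ⊗[F] E
  let r : E := algebraMap S E u / algebraMap S E w
  have hinjE : Function.Injective (algebraMap S E) := IsFractionRing.injective S E
  have hwE : algebraMap S E w ≠ 0 := by
    intro h0
    exact hw (hinjE (by rw [h0, map_zero]))
  have hDE : algebraMap S E D ≠ 0 := by
    intro h0
    exact hD (hinjE (by rw [h0, map_zero]))
  -- the Nullstellensatz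
  let T := MvPolynomial (ι ⊕ (κ ⊕ κ)) k
  let f1 : ι ⊕ κ → ι ⊕ (κ ⊕ κ) := Sum.elim Sum.inl (fun c => Sum.inr (Sum.inl c))
  let f2 : ι ⊕ κ → ι ⊕ (κ ⊕ κ) := Sum.elim Sum.inl (fun c => Sum.inr (Sum.inr c))
  let j1 : S →ₐ[k] T := rename f1
  let j2 : S →ₐ[k] T := rename f2
  let J : Ideal T := Ideal.span (Set.range fun i => j1 (y i) - j2 (y i))
  let H : T := j1 D * j2 D * (j1 u * j2 w - j2 u * j1 w)
  have hev1 : ∀ (v : ι ⊕ (κ ⊕ κ) → k) (p : S), eval v (j1 p) =
      eval (Sum.elim (fun i => v (Sum.inl i)) (fun c => v (Sum.inr (Sum.inl c)))) p := by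
    intro v p
    change eval v (rename f1 p) = _
    rw [eval_rename]
    congr 1
    congr 1
    funext a
    rcases a with a | a <;> rfl
  have hev2 : ∀ (v : ι ⊕ (κ ⊕ κ) → k) (p : S), eval v (j2 p) =
      eval (Sum.elim (fun i => v (Sum.inl i)) (fun c => v (Sum.inr (Sum.inr c)))) p := by
    intro v p
    change eval v (rename f2 p) = _
    rw [eval_rename]
    congr 1
    congr 1
    funext a
    rcases a with a | a <;> rfl
  have hH : H ∈ J.radical := by
    rw [← vanishingIdeal_zeroLocus_eq_radical (K := k), mem_vanishingIdeal_iff]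
    intro v hv
    rw [mem_zeroLocus_iff] at hv
    have hv' : ∀ i, eval v (j1 (y i)) = eval v (j2 (y i)) := by
      intro i
      have h1 := hv (j1 (y i) - j2 (y i)) (Ideal.subset_span ⟨i, rfl⟩)
      rw [map_sub, sub_eq_zero] at h1
      exact h1
    change eval v H = 0
    simp only [H, map_mul, map_sub]
    by_cases h1 : eval v (j1 D) = 0
    · simp [h1]
    by_cases h2 : eval v (j2 D) = 0
    · simp [h2]
    have h3 := h (fun i => v (Sum.inl i)) (fun c => v (Sum.inr (Sum.inl c)))
      (fun c => v (Sum.inr (Sum.inr c))) (by rwa [← hev1]) (by rwa [← hev2])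
      (fun i => by rw [← hev1, ← hev2]; exact hv' i)
    rw [← hev1, ← hev2, ← hev1, ← hev2] at h3
    rw [h3, sub_self, mul_zero]
  -- the point with values in `E ⊗ E`
  let pt : ι ⊕ (κ ⊕ κ) → A := Sum.elim (fun i => (algebraMap S E (X (Sum.inl i))) ⊗ₜ[F] (1 : E))
    (Sum.elim (fun c => (algebraMap S E (X (Sum.inr c))) ⊗ₜ[F] (1 : E))
      (fun c => (1 : E) ⊗ₜ[F] (algebraMap S E (X (Sum.inr c)))))
  have hF : ∀ i, z i ∈ F := fun i => IntermediateField.subset_adjoin k _ ⟨i, rfl⟩
  have hswap : ∀ e : E, e ∈ F → e ⊗ₜ[F] (1 : E) = (1 : E) ⊗ₜ[F] e := by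
    intro e he
    have : e = (⟨e, he⟩ : F) • (1 : E) := by
      rw [IntermediateField.smul_def, smul_eq_mul, mul_one]
    rw [this, TensorProduct.smul_tmul]
  have hp1 : ∀ p : S, aeval pt (j1 p) = (algebraMap S E p) ⊗ₜ[F] (1 : E) := by
    intro p
    have : (aeval pt).comp j1 =
        ((Algebra.TensorProduct.includeLeft : E →ₐ[k] A).comp
          (IsScalarTower.toAlgHom k S E)) := by
      apply MvPolynomial.algHom_ext
      intro a
      rcases a with a | a
      · simp only [j1, f1, pt, AlgHom.comp_apply, rename_X, aeval_X, Sum.elim_inl]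
        rfl
      · simp only [j1, f1, pt, AlgHom.comp_apply, rename_X, aeval_X, Sum.elim_inl, Sum.elim_inr]
        rfl
    exact DFunLike.congr_fun this p
  have hp2 : ∀ p : S, aeval pt (j2 p) = (1 : E) ⊗ₜ[F] (algebraMap S E p) := by
    intro p
    have : (aeval pt).comp j2 =
        (((Algebra.TensorProduct.includeRight : E →ₐ[F] A).restrictScalars k).comp
          (IsScalarTower.toAlgHom k S E)) := by
      apply MvPolynomial.algHom_ext
      intro a
      rcases a with a | a
      · simp only [j2, f2, pt, AlgHom.comp_apply, rename_X, aeval_X, Sum.elim_inl]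
        exact hswap _ (hF (Sum.inl a))
      · simp only [j2, f2, pt, AlgHom.comp_apply, rename_X, aeval_X, Sum.elim_inl, Sum.elim_inr]
        rfl
    exact DFunLike.congr_fun this p
  have hJ : J ≤ RingHom.ker (aeval pt : T →ₐ[k] A) := by
    rw [Ideal.span_le]
    rintro _ ⟨i, rfl⟩
    rw [SetLike.mem_coe, RingHom.mem_ker, map_sub, hp1, hp2, sub_eq_zero]
    exact hswap _ (hF (Sum.inr i))
  have hnil : IsNilpotent (aeval pt H : A) := by
    obtain ⟨N, hN⟩ := hH
    refine ⟨N, ?_⟩
    rw [← map_pow]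
    exact hJ hN
  have hHval : (aeval pt H : A) =
      ((algebraMap S E D) ⊗ₜ[F] (algebraMap S E D)) * (((algebraMap S E w) ⊗ₜ[F] (algebraMap S E w)) *
        (r ⊗ₜ[F] (1 : E) - (1 : E) ⊗ₜ[F] r)) := by
    have e1 : (algebraMap S E w) * r = algebraMap S E u := mul_div_cancel₀ _ hwE
    simp only [H, map_mul, map_sub, hp1, hp2]
    rw [mul_sub ((algebraMap S E w) ⊗ₜ[F] (algebraMap S E w)),
      Algebra.TensorProduct.tmul_mul_tmul, Algebra.TensorProduct.tmul_mul_tmul,
      Algebra.TensorProduct.tmul_mul_tmul, Algebra.TensorProduct.tmul_mul_tmul,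
      Algebra.TensorProduct.tmul_mul_tmul]
    simp only [mul_one, one_mul, e1]
  have hunit : ∀ a b : E, a ≠ 0 → b ≠ 0 → IsUnit (a ⊗ₜ[F] b : A) := by
    intro a b ha hb
    refine IsUnit.of_mul_eq_one ((a⁻¹) ⊗ₜ[F] (b⁻¹)) ?_
    rw [Algebra.TensorProduct.tmul_mul_tmul, mul_inv_cancel₀ ha, mul_inv_cancel₀ hb]
    rfl
  have hnil2 : IsNilpotent (r ⊗ₜ[F] (1 : E) - (1 : E) ⊗ₜ[F] r : A) := by
    rw [hHval] at hnil
    obtain ⟨N, hN⟩ := hnil
    refine ⟨N, ?_⟩
    rw [mul_pow, ((hunit _ _ hDE hDE).pow N).mul_right_eq_zero, mul_pow,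
      ((hunit _ _ hwE hwE).pow N).mul_right_eq_zero] at hN
    exact hN
  obtain ⟨c, hc⟩ := mem_range_of_nilpotent r hnil2
  have hrF : r ∈ IntermediateField.adjoin k (Set.range z) := by
    rw [← hc]
    exact c.2
  rw [IntermediateField.mem_adjoin_range_iff] at hrF
  obtain ⟨P, Q, hPQ⟩ := hrF
  have haev : ∀ p : MvPolynomial (ι ⊕ ι') k, aeval z p = algebraMap S E (aeval z0 p) := by
    intro p
    have : aeval z = (IsScalarTower.toAlgHom k S E).comp (aeval z0) := by
      apply MvPolynomial.algHom_ext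
      intro i
      simp [z]
    rw [this]
    rfl
  by_cases hQ : aeval z0 Q = 0
  · refine ⟨0, 1, by simp, ?_⟩
    have hr0 : r = 0 := by
      rw [hPQ, haev Q, hQ, map_zero, div_zero]
    have hu : algebraMap S E u = 0 := by
      rcases div_eq_zero_iff.mp hr0 with h1 | h1
      · exact h1
      · exact absurd h1 hwE
    have hu0 : u = 0 := hinjE (by rw [hu, map_zero])
    simp [hu0]
  · refine ⟨P, Q, hQ, ?_⟩
    apply hinjE
    have hQE : algebraMap S E (aeval z0 Q) ≠ 0 := by
      intro h0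
      exact hQ (hinjE (by rw [h0, map_zero]))
    rw [haev P, haev Q] at hPQ
    change algebraMap S E u / algebraMap S E w = _ at hPQ
    rw [div_eq_div_iff hwE hQE] at hPQ
    rw [map_mul, map_mul]
    exact hPQ.symm

end VDual
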