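import Mathlib

/-!
# The descent lemma

`G` acts on the field `L`; `τ : G → Mat_d` a representation with `G`-fixed entries.  If a non-zero
multiple `Q τ` of `τ` by a function of the form `Q(h) = ∑ p_a h(b_a)` again has entries of this
form, then the covariants `w ∈ L^d`, `h(w) = τ(h⁻¹) w`, span `L^d`.
-/

namespace VDual

open Finset

section

variable (G : Type*) {L : Type*} [Group G] [Field L] [MulSemiringAction G L]

/-- the orbit function of an element -/
def orb (b : L) : G → L := fun h => h • b

/-- the functions `h ↦ ∑ p_a h(b_a)` -/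
def RR : Submodule L (G → L) := Submodule.span L (Set.range (orb G))

theorem orb_mem (b : L) : orb G b ∈ RR G (L := L) := Submodule.subset_span ⟨b, rfl⟩

variable {G}

theorem orb_mul_mem (c : L) {F : G → L} (hF : F ∈ RR G) : orb G c * F ∈ RR G := by
  induction hF using Submodule.span_induction with
  | mem x hx =>
    obtain ⟨b, rfl⟩ := hx
    have : orb G c * orb G b = orb G (c * b) := by
      funext h
      simp [orb, smul_mul']
    rw [this]
    exact orb_mem G _
  | zero => simp
  | add x y _ _ hx hy => rw [mul_add]; exact Submodule.add_mem _ hx hy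
  | smul a x _ hx =>
    rw [mul_smul_comm]
    exact Submodule.smul_mem _ _ hx

theorem mul_mem_RR {F F' : G → L} (hF : F ∈ RR G) (hF' : F' ∈ RR G) : F * F' ∈ RR G := by
  induction hF using Submodule.span_induction with
  | mem x hx =>
    obtain ⟨b, rfl⟩ := hx
    exact orb_mul_mem b hF'
  | zero => simp
  | add x y _ _ hx hy => rw [add_mul]; exact Submodule.add_mem _ hx hy
  | smul a x _ hx =>
    rw [smul_mul_assoc]
    exact Submodule.smul_mem _ _ hx

/-- twisted left translation -/
def tw (h' : G) (F : G → L) : G → L := fun h => h' • F (h'⁻¹ * h)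

theorem tw_mem (h' : G) {F : G → L} (hF : F ∈ RR G) : tw h' F ∈ RR G := by
  induction hF using Submodule.span_induction with
  | mem x hx =>
    obtain ⟨b, rfl⟩ := hx
    have : tw h' (orb G b) = orb G b := by
      funext h
      simp only [tw, orb, smul_smul, mul_inv_cancel_left]
    rw [this]
    exact orb_mem G _
  | zero =>
    have : tw h' (0 : G → L) = 0 := by funext h; simp [tw]
    rw [this]; exact Submodule.zero_mem _
  | add x y _ _ hx hy =>
    have : tw h' (x + y) = tw h' x + tw h' y := by funext h; simp [tw]
    rw [this]; exact Submodule.add_mem _ hx hy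
  | smul a x _ hx =>
    have : tw h' (a • x) = (h' • a) • tw h' x := by
      funext h; simp [tw, smul_mul']
    rw [this]; exact Submodule.smul_mem _ _ hx

/-- the fixed field -/
abbrev KK (G L : Type*) [Group G] [Field L] [MulSemiringAction G L] : Subfield L :=
  FixedPoints.subfield G L

theorem artin {X : Type*} {β : X → L} (hβ : LinearIndependent (KK G L) β) :
    LinearIndependent L (fun a => orb G (β a)) := by
  have h1 : LinearIndepOn (KK G L) id (Set.range β) := hβ.linearIndepOn_id
  have h2 : LinearIndepOn L (MulAction.toFun G L) (Set.range β) := by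
    rw [linearIndepOn_iff_linearIndepOn_finset]
    intro t ht
    exact FixedPoints.linearIndependent_smul_of_linearIndependent G L (h1.mono ht)
  rw [linearIndepOn_range_iff hβ.injective] at h2
  exact h2

/-- a basis of `L` over the fixed field -/
noncomputable def bas (G L : Type*) [Group G] [Field L] [MulSemiringAction G L] :
    Module.Basis (Module.Basis.ofVectorSpaceIndex (KK G L) L) (KK G L) L :=
  Module.Basis.ofVectorSpace (KK G L) L

/-- index set of the basis -/
abbrev XX (G L : Type*) [Group G] [Field L] [MulSemiringAction G L] : Type _ :=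
  Module.Basis.ofVectorSpaceIndex (KK G L) L

/-- `p ↦ ∑ p_a orb (β_a)` -/
noncomputable def Lam (G L : Type*) [Group G] [Field L] [MulSemiringAction G L] :
    (XX G L →₀ L) →ₗ[L] (G → L) :=
  Finsupp.linearCombination L (fun a => orb G (bas G L a))

theorem Lam_apply (p : XX G L →₀ L) (h : G) :
    Lam G L p h = p.sum (fun a c => c * (h • (bas G L a))) := by
  rw [Lam, Finsupp.linearCombination_apply, Finsupp.sum, Finsupp.sum, Finset.sum_apply]
  rfl

theorem Lam_injective : Function.Injective (Lam G L) :=
  artin (bas G L).linearIndependent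

theorem exists_Lam_eq_orb (b : L) : ∃ p : XX G L →₀ L, (∀ a (g : G), g • p a = p a) ∧
    Lam G L p = orb G b := by
  refine ⟨Finsupp.mapRange (fun c : KK G L => (c : L)) rfl ((bas G L).repr b), ?_, ?_⟩
  · intro a g
    rw [Finsupp.mapRange_apply]
    exact ((bas G L).repr b a).2 g
  · funext h
    rw [Lam_apply, Finsupp.sum_mapRange_index (by simp)]
    change _ = h • b
    conv_rhs => rw [← (bas G L).linearCombination_repr b, Finsupp.linearCombination_apply,
      Finsupp.sum, Finset.smul_sum]
    rw [Finsupp.sum]
    refine Finset.sum_congr rfl fun a _ => ?_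
    change _ = h • ((((bas G L).repr b) a : L) * bas G L a)
    rw [smul_mul']
    congr 1
    exact (((bas G L).repr b a).2 h).symm

theorem exists_Lam_eq {F : G → L} (hF : F ∈ RR G) : ∃ p : XX G L →₀ L, Lam G L p = F := by
  induction hF using Submodule.span_induction with
  | mem x hx =>
    obtain ⟨b, rfl⟩ := hx
    obtain ⟨p, _, hp⟩ := exists_Lam_eq_orb (G := G) b
    exact ⟨p, hp⟩
  | zero => exact ⟨0, map_zero _⟩
  | add x y _ _ hx hy =>
    obtain ⟨p, rfl⟩ := hx
    obtain ⟨q, rfl⟩ := hy
    exact ⟨p + q, map_add _ _ _⟩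
  | smul a x _ hx =>
    obtain ⟨p, rfl⟩ := hx
    exact ⟨a • p, map_smul _ _ _⟩

theorem Lam_mem (p : XX G L →₀ L) : Lam G L p ∈ RR G := by
  rw [Lam, Finsupp.linearCombination_apply]
  exact Submodule.sum_mem _ fun a _ => Submodule.smul_mem _ _ (orb_mem G _)

/-- coordinatewise action on coefficient vectors -/
noncomputable def coAct (h' : G) (p : XX G L →₀ L) : XX G L →₀ L :=
  Finsupp.mapRange (fun c => h' • c) (smul_zero _) p

theorem tw_Lam (h' : G) (p : XX G L →₀ L) : tw h' (Lam G L p) = Lam G L (coAct h' p) := by
  funext h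
  rw [Lam_apply, coAct, Finsupp.sum_mapRange_index (by simp)]
  change h' • (Lam G L p (h'⁻¹ * h)) = _
  rw [Lam_apply, Finsupp.sum, Finsupp.sum, Finset.smul_sum]
  refine Finset.sum_congr rfl fun a _ => ?_
  rw [smul_mul', smul_smul, mul_inv_cancel_left]

/-- a non-zero `L`-subspace of functions stable under multiplication by orbit functions and
twisted translations which meets `RR` contains the constant function `1`. -/
theorem one_mem_of_stable (I : Submodule L (G → L)) (h1 : ∀ (c : L) (F : G → L), F ∈ I → orb G c * F ∈ I)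
    (h2 : ∀ (h' : G) (F : G → L), F ∈ I → tw h' F ∈ I) (F : G → L) (hF : F ∈ I) (hFR : F ∈ RR G)
    (hF0 : F ≠ 0) : (1 : G → L) ∈ I := by
  classical
  -- minimal support
  have hex : ∃ m : ℕ, ∃ p : XX G L →₀ L, p ≠ 0 ∧ Lam G L p ∈ I ∧ p.support.card = m := by
    obtain ⟨p, rfl⟩ := exists_Lam_eq hFR
    exact ⟨_, p, by rintro rfl; simp at hF0, hF, rfl⟩
  obtain ⟨p, hp0, hpI, hpm⟩ := Nat.find_spec hex
  have hmin : ∀ q : XX G L →₀ L, q ≠ 0 → Lam G L q ∈ I → Nat.find hex ≤ q.support.card :=
    fun q hq0 hqI => Nat.find_min' hex ⟨q, hq0, hqI, rfl⟩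
  obtain ⟨a0, ha0⟩ := Finsupp.support_nonempty_iff.mpr hp0
  have hpa0 : p a0 ≠ 0 := Finsupp.mem_support_iff.mp ha0
  set q : XX G L →₀ L := (p a0)⁻¹ • p with hq
  have hqsupp : q.support = p.support := by
    ext a
    simp [hq, hpa0]
  have hqI : Lam G L q ∈ I := by
    rw [hq, map_smul]
    exact I.smul_mem _ hpI
  have hqa0 : q a0 = 1 := by
    simp [hq, hpa0]
  have hfix : ∀ (g : G) (a), g • q a = q a := by
    intro g a
    have hd : coAct g q - q = 0 := by
      by_contra hne
      have hI : Lam G L (coAct g q - q) ∈ I := by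
        rw [map_sub, ← tw_Lam]
        exact I.sub_mem (h2 g _ hqI) hqI
      have h3 := hmin _ hne hI
      have h4 : (coAct g q - q).support ⊆ p.support.erase a0 := by
        intro a ha
        rw [Finsupp.mem_support_iff, Finsupp.sub_apply] at ha
        rw [Finset.mem_erase]
        refine ⟨?_, ?_⟩
        · rintro rfl
          apply ha
          simp [coAct, hqa0]
        · rw [← hqsupp, Finsupp.mem_support_iff]
          intro h0
          apply ha
          simp [coAct, h0]
      have h5 := Finset.card_le_card h4
      have h6 : (p.support.erase a0).card < p.support.card := Finset.card_erase_lt_of_mem ha0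
      omega
    have h3 := DFunLike.congr_fun hd a
    rw [Finsupp.sub_apply, Finsupp.zero_apply, sub_eq_zero] at h3
    simpa [coAct] using h3
  -- so `Lam q` is an orbit function
  set c : L := q.sum (fun a e => e * bas G L a) with hc
  have horb : Lam G L q = orb G c := by
    funext h
    rw [Lam_apply]
    change _ = h • c
    rw [hc, Finsupp.sum, Finsupp.sum, Finset.smul_sum]
    refine Finset.sum_congr rfl fun a _ => ?_
    rw [smul_mul', hfix]
  have hc0 : c ≠ 0 := by
    intro h0
    have h3 : Lam G L q = 0 := by
      rw [horb, h0]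
      funext h
      simp [orb]
    have h4 : q = 0 := Lam_injective (by rw [h3, map_zero])
    rw [h4] at hqa0
    simp at hqa0
  have h3 : orb G c⁻¹ * Lam G L q = 1 := by
    rw [horb]
    funext h
    simp only [orb, Pi.mul_apply, Pi.one_apply]
    rw [← smul_mul', inv_mul_cancel₀ hc0, smul_one]
  rw [← h3]
  exact h1 _ _ hqI

variable {d : Type*} [Fintype d] [DecidableEq d]

/-- **descent**: the entries of `τ` are of the form `h ↦ ∑ p_a h(b_a)`. -/
theorem entries_mem_RR (τ : G → Matrix d d L) (hτ1 : τ 1 = 1) (hτ : ∀ g h, τ (g * h) = τ g * τ h)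
    (hfix : ∀ (g h : G) i j, g • τ h i j = τ h i j)
    (Q : G → L) (hQ : Q ∈ RR G) (hQ0 : Q ≠ 0)
    (hP : ∀ i j, (fun h => Q h * τ h i j) ∈ RR G) (i j : d) : (fun h => τ h i j) ∈ RR G := by
  let I : Submodule L (G → L) :=
    { carrier := {F | ∀ i, (fun h => F h * τ h i j) ∈ RR G}
      zero_mem' := by
        intro i
        have : (fun h => (0 : G → L) h * τ h i j) = 0 := by funext h; simp
        rw [this]; exact Submodule.zero_mem _
      add_mem' := by
        intro F F' hF hF' i
        have : (fun h => (F + F') h * τ h i j) = (fun h => F h * τ h i j) + (fun h => F' h * τ h i j) := by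
          funext h; simp [add_mul]
        rw [this]; exact Submodule.add_mem _ (hF i) (hF' i)
      smul_mem' := by
        intro c F hF i
        have : (fun h => (c • F) h * τ h i j) = c • (fun h => F h * τ h i j) := by
          funext h; simp [mul_assoc]
        rw [this]; exact Submodule.smul_mem _ _ (hF i) }
  have h1 : (1 : G → L) ∈ I := by
    apply one_mem_of_stable I ?_ ?_ Q (fun i => hP i j) hQ hQ0
    · intro c F hF i
      have : (fun h => (orb G c * F) h * τ h i j) = orb G c * (fun h => F h * τ h i j) := by
        funext h; simp [mul_assoc]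
      rw [this]; exact orb_mul_mem c (hF i)
    · intro g F hF i
      have : (fun h => (tw g F) h * τ h i j) =
          ∑ l, (τ g i l) • tw g (fun h => F h * τ h l j) := by
        funext h
        rw [Finset.sum_apply]
        have e1 : τ h i j = ∑ l, τ g i l * τ (g⁻¹ * h) l j := by
          have := congrFun (congrFun (hτ g (g⁻¹ * h)) i) j
          rw [mul_inv_cancel_left, Matrix.mul_apply] at this
          exact this
        rw [e1, Finset.mul_sum]
        refine Finset.sum_congr rfl fun l _ => ?_
        simp only [tw, Pi.smul_apply, smul_eq_mul, smul_mul']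
        rw [hfix]
        ring
      rw [this]
      exact Submodule.sum_mem _ fun l _ => Submodule.smul_mem _ _ (tw_mem g (hF l))
  have h2 := h1 i
  simpa using h2

/-- covariants -/
def IsCov (τ : G → Matrix d d L) (w : d → L) : Prop :=
  ∀ g : G, (fun i => g • w i) = Matrix.mulVec (τ g⁻¹) w

/-- **descent lemma**: the covariants span `L^d`. -/
theorem span_cov (τ : G → Matrix d d L) (hτ1 : τ 1 = 1) (hτ : ∀ g h, τ (g * h) = τ g * τ h)
    (hfix : ∀ (g h : G) i j, g • τ h i j = τ h i j)
    (Q : G → L) (hQ : Q ∈ RR G) (hQ0 : Q ≠ 0)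
    (hP : ∀ i j, (fun h => Q h * τ h i j) ∈ RR G) :
    Submodule.span L {w : d → L | IsCov τ w} = ⊤ := by
  classical
  have hent := entries_mem_RR τ hτ1 hτ hfix Q hQ hQ0 hP
  choose p hp using fun i j => exists_Lam_eq (hent i j)
  have hcov : ∀ (j : d) (a : XX G L), IsCov τ (fun i => p i j a) := by
    intro j a g
    funext i
    -- `τ (g⁻¹ * h) = τ g⁻¹ * τ h`
    have e1 : Lam G L (coAct g (p i j)) = Lam G L (∑ l, (τ g⁻¹ i l) • p l j) := by
      rw [← tw_Lam, hp, map_sum]
      funext h
      rw [Finset.sum_apply]
      change g • (τ (g⁻¹ * h) i j) = _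
      rw [hfix, hτ, Matrix.mul_apply]
      refine Finset.sum_congr rfl fun l _ => ?_
      rw [map_smul, hp]
      rfl
    have e2 := DFunLike.congr_fun (Lam_injective e1) a
    rw [coAct, Finsupp.mapRange_apply, Finsupp.finset_sum_apply] at e2
    rw [e2]
    rfl
  rw [eq_top_iff]
  intro w _
  -- it suffices to treat basis vectors
  have hbasis : ∀ j : d, (Pi.single j (1 : L) : d → L) ∈ Submodule.span L {w : d → L | IsCov τ w} := by
    intro j
    set s : Finset (XX G L) := Finset.univ.biUnion (fun i => (p i j).support) with hs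
    have e1 : (Pi.single j (1 : L) : d → L) = ∑ a ∈ s, (bas G L a) • (fun i => p i j a) := by
      funext i
      rw [Finset.sum_apply]
      have h3 : τ 1 i j = Lam G L (p i j) 1 := by rw [hp]
      rw [hτ1, Lam_apply, Finsupp.sum] at h3
      have h4 : (Pi.single j (1 : L) : d → L) i = (1 : Matrix d d L) i j := by
        rw [Matrix.one_apply, Pi.single_apply]
      rw [h4, h3]
      have h5 : (p i j).support ⊆ s := by
        intro a ha
        rw [hs, Finset.mem_biUnion]
        exact ⟨i, Finset.mem_univ _, ha⟩
      rw [Finset.sum_subset h5]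
      · refine Finset.sum_congr rfl fun a _ => ?_
        simp [mul_comm]
      · intro a _ ha
        rw [Finsupp.notMem_support_iff.mp ha, zero_mul]
    rw [e1]
    exact Submodule.sum_mem _ fun a _ => Submodule.smul_mem _ _
      (Submodule.subset_span (hcov j a))
  have e2 : w = ∑ j, (w j) • (Pi.single j (1 : L) : d → L) := by
    funext i
    simp [Finset.sum_apply, Pi.single_apply]
  rw [e2]
  exact Submodule.sum_mem _ fun j _ => Submodule.smul_mem _ _ (hbasis j)

end

end VDual
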