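import Mathlib
import Pool.Agent.Helper59.VDual.ClaimX
import Pool.Agent.Helper59.VDual.Descent
import Pool.Agent.Helper59.VDual.Chi

/-!
# Rational functions of the group as functions `h ↦ ∑ p_a h(b_a)`
-/

set_option linter.unusedSectionVars false

open MvPolynomial Matrix MulOpposite

namespace VDual

variable {I : Type*} [Fintype I] [DecidableEq I] {n : I → Type*} [∀ i, Fintype (n i)]
  [∀ i, DecidableEq (n i)]
variable {k : Type*} [Field k] {ι : Type*} [Fintype ι] [DecidableEq ι]
variable (ρ : PolyRep k n ι)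

/-- `g ↦ p(x, g x)` -/
noncomputable def PolyRep.Fn [Infinite k] (p : MvPolynomial (ι ⊕ ι) k) :
    ((MatT n k)ˣ)ᵐᵒᵖ → FF k ι :=
  fun g => aeval (Sum.elim (xx k ι) (fun t => ρ.A g.unop (xx k ι t))) p

theorem PolyRep.Fn_mem [Infinite k] (p : MvPolynomial (ι ⊕ ι) k) :
    letI := ρ.actInst
    ρ.Fn p ∈ RR ((MatT n k)ˣ)ᵐᵒᵖ := by
  letI := ρ.actInst
  induction p using MvPolynomial.induction_on with
  | C a =>
    have : ρ.Fn (C a) = (algebraMap k (FF k ι) a) • orb ((MatT n k)ˣ)ᵐᵒᵖ (1 : FF k ι) := by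
      funext g
      simp only [PolyRep.Fn, orb, Pi.smul_apply, smul_one]
      rw [aeval_C, smul_eq_mul, mul_one]
    rw [this]
    exact Submodule.smul_mem _ _ (orb_mem _ _)
  | add p q hp hq =>
    have : ρ.Fn (p + q) = ρ.Fn p + ρ.Fn q := by
      funext g
      simp only [PolyRep.Fn, Pi.add_apply, map_add]
    rw [this]
    exact Submodule.add_mem _ hp hq
  | mul_X p t hp =>
    have : ρ.Fn (p * X t) = ρ.Fn p * ρ.Fn (X t) := by
      funext g
      simp only [PolyRep.Fn, Pi.mul_apply, map_mul]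
    rw [this]
    apply mul_mem_RR hp
    rcases t with t | t
    · have : ρ.Fn (X (Sum.inl t)) = (xx k ι t) • orb ((MatT n k)ˣ)ᵐᵒᵖ (1 : FF k ι) := by
        funext g
        simp only [PolyRep.Fn, orb, Pi.smul_apply, smul_one]
        rw [aeval_X, smul_eq_mul, mul_one]
        rfl
      rw [this]
      exact Submodule.smul_mem _ _ (orb_mem _ _)
    · have : ρ.Fn (X (Sum.inr t)) = orb ((MatT n k)ˣ)ᵐᵒᵖ (xx k ι t) := by
        funext g
        simp only [PolyRep.Fn, orb]
        rw [aeval_X]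
        rfl
      rw [this]
      exact orb_mem _ _

/-- the coordinates of `ρ(h) x` as polynomials in `(x, h)` -/
noncomputable def PolyRep.yy (ρ : PolyRep k n ι) : ι → MvPolynomial (ι ⊕ Ent n) k :=
  fun t => ∑ t', rename Sum.inr (ρ.P t t') * X (Sum.inl t')

/-- specialisation of the group variable -/
noncomputable def specg (ι : Type*) (g : MatT n k) : MvPolynomial (ι ⊕ Ent n) k →ₐ[k] MvPolynomial ι k :=
  aeval (Sum.elim X (fun e => C (pt g e)))

theorem specg_inr (g : MatT n k) (p : MvPolynomial (Ent n) k) :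
    specg ι g (rename Sum.inr p) = C (aeval (pt g) p) := by
  rw [specg, aeval_rename]
  have : (Sum.elim X (fun e => C (pt g e)) : ι ⊕ Ent n → MvPolynomial ι k) ∘ Sum.inr =
      fun e => C (pt g e) := rfl
  rw [this]
  have h2 : (aeval (fun e => C (pt g e)) : MvPolynomial (Ent n) k →ₐ[k] MvPolynomial ι k) =
      (Algebra.ofId k (MvPolynomial ι k)).comp (aeval (pt g)) := by
    apply MvPolynomial.algHom_ext
    intro e
    rw [AlgHom.comp_apply, aeval_X, aeval_X]
    rfl
  rw [h2]
  rfl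

/-- the substitution `(x, y) ↦ (x, y(x, h))` -/
noncomputable def PolyRep.SS (ρ : PolyRep k n ι) : MvPolynomial (ι ⊕ ι) k →ₐ[k] MvPolynomial (ι ⊕ Ent n) k :=
  aeval (Sum.elim (fun i => X (Sum.inl i)) ρ.yy)

theorem PolyRep.Fn_eq [Infinite k] (q : MvPolynomial (ι ⊕ ι) k) (g : (MatT n k)ˣ) :
    ρ.Fn q (op g) = algebraMap (MvPolynomial ι k) (FF k ι) (specg ι (g : MatT n k) (ρ.SS q)) := by
  have : (aeval (Sum.elim (xx k ι) (fun t => ρ.A g (xx k ι t))) : MvPolynomial (ι ⊕ ι) k →ₐ[k] FF k ι) =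
      (IsScalarTower.toAlgHom k (MvPolynomial ι k) (FF k ι)).comp
        ((specg ι (g : MatT n k)).comp ρ.SS) := by
    apply MvPolynomial.algHom_ext
    intro t
    rw [AlgHom.comp_apply, AlgHom.comp_apply, aeval_X]
    rcases t with t | t
    · simp only [Sum.elim_inl, PolyRep.SS, aeval_X, specg]
      rfl
    · simp only [Sum.elim_inr, PolyRep.SS, aeval_X]
      rw [ρ.A_xx, PolyRep.yy, map_sum, map_sum, ev_inc]
      simp only [mulVec, dotProduct]
      refine Finset.sum_congr rfl fun j _ => ?_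
      rw [map_mul, map_mul, specg_inr]
      congr 1
      simp only [specg, aeval_X, Sum.elim_inl]
      rfl
  exact DFunLike.congr_fun this q

theorem eval_specg (g : MatT n k) (v : ι → k) (p : MvPolynomial (ι ⊕ Ent n) k) :
    eval v (specg ι g p) = eval (Sum.elim v (pt g)) p := by
  have : (aeval v : MvPolynomial ι k →ₐ[k] k).comp (specg ι g) =
      (aeval (Sum.elim v (pt g)) : MvPolynomial (ι ⊕ Ent n) k →ₐ[k] k) := by
    apply MvPolynomial.algHom_ext
    intro t
    rcases t with t | t <;> simp [specg]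
  exact DFunLike.congr_fun this p

theorem PolyRep.Fn_ne_zero [Infinite k] (q : MvPolynomial (ι ⊕ ι) k) (hq : ρ.SS q ≠ 0) :
    ρ.Fn q ≠ 0 := by
  intro h0
  have h1 : ρ.SS q * rename Sum.inr (omg n k) ≠ 0 :=
    mul_ne_zero hq (by
      intro h
      exact omg_ne_zero k (rename_injective _ Sum.inr_injective (by rw [h, map_zero])))
  apply h1
  apply MvPolynomial.funext
  intro z
  rw [map_mul, map_zero, eval_rename]
  by_cases hdet : ∏ i, (unpt (n := n) (fun e => z (Sum.inr e)) i).det = 0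
  · have e3 := omg_eval (S := k) (unpt (n := n) (fun e => z (Sum.inr e)))
    rw [hdet, pt_unpt] at e3
    have e4 : eval (z ∘ Sum.inr) (omg n k) = 0 := e3
    rw [e4, mul_zero]
  · obtain ⟨g, hg⟩ := isUnit_of_omg_ne_zero _ hdet
    have h2 := congrFun h0 (op g)
    rw [ρ.Fn_eq] at h2
    have h3 : specg ι (g : MatT n k) (ρ.SS q) = 0 :=
      (IsFractionRing.injective (MvPolynomial ι k) (FF k ι)) (by rw [h2, map_zero]; rfl)
    have h4 := eval_specg (g : MatT n k) (fun t => z (Sum.inl t)) (ρ.SS q)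
    rw [h3, map_zero, hg, pt_unpt] at h4
    have h5 : (Sum.elim (fun t => z (Sum.inl t)) (fun e => z (Sum.inr e)) : ι ⊕ Ent n → k) = z := by
      funext a
      rcases a with a | a <;> rfl
    rw [h5] at h4
    rw [← h4, zero_mul]

theorem eval_yy (v : ι → k) (s : Ent n → k) (t : ι) :
    eval (Sum.elim v s) (ρ.yy t) = (ev ρ.P (unpt s) *ᵥ v) t := by
  rw [PolyRep.yy, map_sum]
  simp only [mulVec, dotProduct]
  refine Finset.sum_congr rfl fun j _ => ?_
  rw [map_mul, eval_rename, eval_X]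
  rfl

/-- rational functions on the group which factor through generic orbits. -/
theorem PolyRep.exists_common [IsAlgClosed k] [CharZero k] (D : MvPolynomial ι k) (hD : D ≠ 0)
    {T : Type*} [Fintype T] (u : T → MvPolynomial (Ent n) k) (w : MvPolynomial (Ent n) k)
    (hw : ∀ g : (MatT n k)ˣ, eval (pt (g : MatT n k)) w ≠ 0)
    (h : ∀ v : ι → k, eval v D ≠ 0 → ∀ g g' : (MatT n k)ˣ,
      ev ρ.P (g : MatT n k) *ᵥ v = ev ρ.P (g' : MatT n k) *ᵥ v → ∀ e,
      eval (pt (g : MatT n k)) (u e) * eval (pt (g' : MatT n k)) w =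
        eval (pt (g' : MatT n k)) (u e) * eval (pt (g : MatT n k)) w) :
    letI := ρ.actInst
    ∃ Q : ((MatT n k)ˣ)ᵐᵒᵖ → FF k ι, Q ∈ RR ((MatT n k)ˣ)ᵐᵒᵖ ∧ Q ≠ 0 ∧
      ∀ e, (fun g => Q g * algebraMap k (FF k ι)
        (eval (pt (g.unop : MatT n k)) (u e) / eval (pt (g.unop : MatT n k)) w)) ∈
          RR ((MatT n k)ˣ)ᵐᵒᵖ := by
  classical
  letI := ρ.actInst
  haveI : Infinite k := CharZero.infinite k
  have hw0 : rename (Sum.inr : Ent n → ι ⊕ Ent n) w ≠ 0 := by
    intro h0
    have : w = 0 := rename_injective _ Sum.inr_injective (by rw [h0, map_zero])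
    exact hw 1 (by rw [this, map_zero])
  have key : ∀ e, ∃ P Q : MvPolynomial (ι ⊕ ι) k, ρ.SS Q ≠ 0 ∧
      ρ.SS P * rename Sum.inr w = rename Sum.inr (u e) * ρ.SS Q := by
    intro e
    apply claimX ρ.yy (rename Sum.inl D * rename Sum.inr (omg n k)) (rename Sum.inr (u e))
      (rename Sum.inr w)
    · apply mul_ne_zero
      · intro h0
        exact hD (rename_injective _ Sum.inl_injective (by rw [h0, map_zero]))
      · intro h0
        exact omg_ne_zero k (rename_injective _ Sum.inr_injective (by rw [h0, map_zero]))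
    · exact hw0
    · intro x s s' h1 h2 h3
      rw [map_mul, eval_rename, eval_rename] at h1 h2
      have h1a : eval x D ≠ 0 := left_ne_zero_of_mul h1
      have h1b : eval s (omg n k) ≠ 0 := right_ne_zero_of_mul h1
      have h2b : eval s' (omg n k) ≠ 0 := right_ne_zero_of_mul h2
      have e1 := omg_eval (S := k) (unpt (n := n) s)
      have e2 := omg_eval (S := k) (unpt (n := n) s')
      rw [pt_unpt] at e1 e2
      obtain ⟨g, hg⟩ := isUnit_of_omg_ne_zero (unpt (n := n) s) (by rw [← e1]; exact h1b)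
      obtain ⟨g', hg'⟩ := isUnit_of_omg_ne_zero (unpt (n := n) s') (by rw [← e2]; exact h2b)
      have h4 := h x h1a g g' (by
        rw [hg, hg']
        funext t
        rw [← eval_yy, ← eval_yy]
        exact h3 t) e
      rw [hg, hg', pt_unpt, pt_unpt] at h4
      rw [eval_rename, eval_rename, eval_rename, eval_rename]
      exact h4
  choose P Q hQ hPQ using key
  refine ⟨ρ.Fn (∏ e, Q e), ρ.Fn_mem _, ρ.Fn_ne_zero _ ?_, ?_⟩
  · rw [map_prod, Finset.prod_ne_zero_iff]
    intro e _
    exact hQ e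
  · intro e
    have h1 : (fun g : ((MatT n k)ˣ)ᵐᵒᵖ => ρ.Fn (∏ e, Q e) g * algebraMap k (FF k ι)
        (eval (pt (g.unop : MatT n k)) (u e) / eval (pt (g.unop : MatT n k)) w)) =
        ρ.Fn (P e * ∏ e' ∈ Finset.univ.erase e, Q e') := by
      funext g
      obtain ⟨g, rfl⟩ : ∃ g', g = op g' := ⟨g.unop, rfl⟩
      rw [unop_op]
      have e1 : (∏ e, Q e) = Q e * ∏ e' ∈ Finset.univ.erase e, Q e' :=
        (Finset.mul_prod_erase _ _ (Finset.mem_univ e)).symm
      have e2 : ∀ p q, ρ.Fn (p * q) (op g) = ρ.Fn p (op g) * ρ.Fn q (op g) := by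
        intro p q
        simp only [PolyRep.Fn, map_mul]
      rw [e1, e2, e2]
      have e3 := congrArg (fun z => algebraMap (MvPolynomial ι k) (FF k ι) (specg ι (g : MatT n k) z)) (hPQ e)
      simp only [map_mul, specg_inr] at e3
      rw [← ρ.Fn_eq, ← ρ.Fn_eq] at e3
      have e4 : ∀ c : k, algebraMap (MvPolynomial ι k) (FF k ι) (C c) = algebraMap k (FF k ι) c := by
        intro c
        rw [IsScalarTower.algebraMap_apply k (MvPolynomial ι k) (FF k ι)]
        rfl
      rw [e4, e4] at e3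
      have hwg : algebraMap k (FF k ι) (eval (pt (g : MatT n k)) w) ≠ 0 := by
        rw [map_ne_zero]
        exact hw g
      have e5 : ρ.Fn (P e) (op g) = ρ.Fn (Q e) (op g) * algebraMap k (FF k ι)
        (eval (pt (g : MatT n k)) (u e) / eval (pt (g : MatT n k)) w) := by
        rw [map_div₀]
        field_simp
        have e6 : ρ.Fn (P e) (op g) * algebraMap k (FF k ι) (eval (pt (g : MatT n k)) w) =
          algebraMap k (FF k ι) (eval (pt (g : MatT n k)) (u e)) * ρ.Fn (Q e) (op g) := e3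
        linear_combination e6
      rw [e5]
      ring
    rw [h1]
    exact ρ.Fn_mem _

end VDual
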