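import Mathlib
import Pool.Agent.Helper59.VDual.CovX

/-!
# Existence of an invertible covariant bilinear form
-/

set_option linter.unusedSectionVars false
set_option linter.style.haveILetI false

open MvPolynomial Matrix MulOpposite

namespace VDual

variable {I : Type*} [Fintype I] [DecidableEq I] {n : I → Type*} [∀ i, Fintype (n i)]
  [∀ i, DecidableEq (n i)]
variable {k : Type*} [Field k] {ι : Type*} [Fintype ι] [DecidableEq ι]
variable (ρ : PolyRep k n ι)

/-- a set of matrices closed under `k`-combinations whose `L`-span contains the identity contains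
an invertible matrix -/
theorem exists_det_ne_zero {k L m : Type*} [Field k] [Infinite k] [Field L] [Algebra k L]
    [Fintype m] [DecidableEq m] (W : Submodule k (Matrix m m L))
    (h : (1 : Matrix m m L) ∈ Submodule.span L (W : Set (Matrix m m L))) :
    ∃ B ∈ W, B.det ≠ 0 := by
  classical
  obtain ⟨r, f, g, hfg⟩ := (Submodule.mem_span_set').mp h
  let p : MvPolynomial (Fin r) L :=
    (∑ a : Fin r, (X a : MvPolynomial (Fin r) L) • ((g a : Matrix m m L).map (C : L →+* MvPolynomial (Fin r) L))).det
  have hp : ∀ t : Fin r → L, eval t p = (∑ a, t a • (g a : Matrix m m L)).det := by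
    intro t
    simp only [p]
    rw [RingHom.map_det]
    congr 1
    ext x y
    simp only [RingHom.mapMatrix_apply, Matrix.map_apply, Matrix.sum_apply, Matrix.smul_apply,
      map_sum, smul_eq_mul, map_mul, eval_X, eval_C]
  have hp0 : p ≠ 0 := by
    intro h0
    have := hp f
    rw [hfg, h0, map_zero, det_one] at this
    exact zero_ne_one this
  by_contra hcon
  push Not at hcon
  apply hp0
  apply eq_zero_of_forall_eval (k := k)
  intro t
  rw [hp]
  apply hcon
  apply Submodule.sum_mem
  intro a _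
  rw [algebraMap_smul]
  exact W.smul_mem _ (g a).2

/-- the representation on bilinear forms -/
noncomputable def tauB (L : Type*) [Field L] [Algebra k L] (c : I → ℤ) (i0 : I) (g : ((MatT n k)ˣ)ᵐᵒᵖ) :
    Matrix (n i0 × n i0) (n i0 × n i0) L :=
  Matrix.of fun a b => algebraMap k L (((chi k c g.unop)⁻¹ : kˣ) * (g.unop : MatT n k) i0 b.1 a.1 *
    (g.unop : MatT n k) i0 b.2 a.2)

theorem tauB_one (L : Type*) [Field L] [Algebra k L] (c : I → ℤ) (i0 : I) :
    tauB (n := n) (k := k) L c i0 1 = 1 := by
  ext a b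
  simp only [tauB, Matrix.of_apply, unop_one, map_one, inv_one, Units.val_one, one_mul]
  change algebraMap k L ((1 : Matrix (n i0) (n i0) k) b.1 a.1 * (1 : Matrix (n i0) (n i0) k) b.2 a.2) = _
  rw [Matrix.one_apply, Matrix.one_apply, Matrix.one_apply]
  by_cases h : a = b
  · subst h
    simp
  · rw [if_neg h]
    rw [Prod.ext_iff, not_and_or] at h
    rcases h with h | h
    · rw [if_neg (fun h' => h h'.symm)]
      simp
    · rw [if_neg (c := b.2 = a.2) (fun h' => h h'.symm)]
      simp

theorem tauB_mul (L : Type*) [Field L] [Algebra k L] (c : I → ℤ) (i0 : I)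
    (g h : ((MatT n k)ˣ)ᵐᵒᵖ) : tauB L c i0 (g * h) = tauB L c i0 g * tauB L c i0 h := by
  ext a b
  rw [Matrix.mul_apply, Fintype.sum_prod_type]
  simp only [tauB, Matrix.of_apply, unop_mul, map_mul, mul_inv, Units.val_mul]
  simp only [← map_mul, ← map_sum]
  congr 1
  change _ * _ * (((h.unop : MatT n k) i0 * (g.unop : MatT n k) i0) b.1 a.1) *
    (((h.unop : MatT n k) i0 * (g.unop : MatT n k) i0) b.2 a.2) = _
  rw [Matrix.mul_apply, Matrix.mul_apply, mul_assoc, Finset.sum_mul_sum, Finset.mul_sum]
  refine Finset.sum_congr rfl fun x _ => ?_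
  rw [Finset.mul_sum]
  refine Finset.sum_congr rfl fun y _ => ?_
  ring

/-- existence of the covariant `B` -/
theorem PolyRep.exists_cov [IsAlgClosed k] [CharZero k] (D : MvPolynomial ι k) (hD : D ≠ 0)
    (c : I → ℤ) (i0 : I)
    (hfree : ∀ v : ι → k, eval v D ≠ 0 → ∀ g : (MatT n k)ˣ, ev ρ.P (g : MatT n k) *ᵥ v = v →
      ∀ N : Matrix (n i0) (n i0) k,
        ((g : MatT n k) i0)ᵀ * N * ((g : MatT n k) i0) = ((chi k c g : kˣ) : k) • N) :
    haveI : Infinite k := CharZero.infinite k
    ∃ B : Matrix (n i0) (n i0) (FF k ι), B.det ≠ 0 ∧ ∀ g : (MatT n k)ˣ,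
      B.map (ρ.A g) = ((chi (FF k ι) c (incU (FF k ι) g) : (FF k ι)ˣ) : FF k ι) •
        (((incU (FF k ι) g⁻¹ : (MatT n (FF k ι))ˣ) : MatT n (FF k ι)) i0)ᵀ * B *
          (((incU (FF k ι) g⁻¹ : (MatT n (FF k ι))ˣ) : MatT n (FF k ι)) i0) := by
  classical
  haveI : Infinite k := CharZero.infinite k
  letI := ρ.actInst
  let d := n i0 × n i0
  have hchi_ep : ∀ g : (MatT n k)ˣ, ((chi k c g : kˣ) : k) * ep (-c) (g : MatT n k) = ep c (g : MatT n k) :=
    fun g => chi_mul_ep c g
  -- rational functions
  obtain ⟨Q, hQ, hQ0, hQP⟩ := ρ.exists_common D hD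
    (fun e : d × d => ep (-c) (gen n k) * gen n k i0 e.2.1 e.1.1 * gen n k i0 e.2.2 e.1.2)
    (ep c (gen n k))
    (by
      intro g
      have := ep_gen (S := k) c (g : MatT n k)
      have h2 : eval (pt (g : MatT n k)) (ep c (gen n k)) = ep c (g : MatT n k) := this
      rw [h2]
      exact ep_ne_zero c g)
    (by
      intro v hv g g' hgg' e
      have hX : ∀ (g : (MatT n k)ˣ) (a b : n i0), eval (pt (g : MatT n k)) (gen n k i0 a b) = (g : MatT n k) i0 a b := by
        intro g a b
        change eval (pt (g : MatT n k)) (X (⟨i0, (a, b)⟩ : Ent n)) = _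
        rw [eval_X]
        rfl
      have hE : ∀ (c : I → ℤ) (g : (MatT n k)ˣ), eval (pt (g : MatT n k)) (ep c (gen n k)) = ep c (g : MatT n k) := by
        intro c g
        exact ep_gen (S := k) c (g : MatT n k)
      simp only [map_mul, hX, hE]
      -- the stabiliser element
      let δ : (MatT n k)ˣ := g'⁻¹ * g
      have hδ : ev ρ.P (δ : MatT n k) *ᵥ v = v := by
        have e1 : (ρ.u k δ : Matrix ι ι k) *ᵥ v = v := by
          rw [map_mul, Units.val_mul, ← Matrix.mulVec_mulVec]
          have e2 : (ρ.u k g : Matrix ι ι k) *ᵥ v = (ρ.u k g' : Matrix ι ι k) *ᵥ v := hgg'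
          rw [e2, Matrix.mulVec_mulVec, ← Units.val_mul, ← map_mul, inv_mul_cancel, map_one,
            Units.val_one, Matrix.one_mulVec]
        exact e1
      have hg : (g : MatT n k) i0 = (g' : MatT n k) i0 * (δ : MatT n k) i0 := by
        have : g = g' * δ := by simp [δ]
        conv_lhs => rw [this]
        rfl
      have h3 := hfree v hv δ hδ (((g' : MatT n k) i0)ᵀ * Matrix.single e.2.1 e.2.2 1 * (g' : MatT n k) i0)
      have h4 : ((g : MatT n k) i0)ᵀ * Matrix.single e.2.1 e.2.2 1 * (g : MatT n k) i0 =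
          ((chi k c δ : kˣ) : k) • (((g' : MatT n k) i0)ᵀ * Matrix.single e.2.1 e.2.2 1 * (g' : MatT n k) i0) := by
        rw [← h3, hg, Matrix.transpose_mul]
        simp only [Matrix.mul_assoc]
      have hsing : ∀ (M : Matrix (n i0) (n i0) k),
          (Mᵀ * Matrix.single e.2.1 e.2.2 (1 : k) * M : Matrix (n i0) (n i0) k) e.1.1 e.1.2 =
            M e.2.1 e.1.1 * M e.2.2 e.1.2 := by
        intro M
        rw [Matrix.mul_apply, Finset.sum_eq_single e.2.2]
        · rw [Matrix.mul_apply, Finset.sum_eq_single e.2.1]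
          · simp
          · intro b _ hb
            have h9 : Matrix.single e.2.1 e.2.2 (1 : k) b e.2.2 = 0 := by
              simp [Matrix.single_apply, hb.symm]
            rw [h9, mul_zero]
          · simp
        · intro b _ hb
          rw [Matrix.mul_apply, Finset.sum_eq_zero, zero_mul]
          intro x _
          have h9 : Matrix.single e.2.1 e.2.2 (1 : k) x b = 0 := by
            simp [Matrix.single_apply, hb.symm]
          rw [h9, mul_zero]
        · simp
      have h5 := congrFun (congrFun h4 e.1.1) e.1.2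
      rw [Matrix.smul_apply, hsing, hsing, smul_eq_mul] at h5
      have h6 : ((chi k c g : kˣ) : k) = ((chi k c g' : kˣ) : k) * ((chi k c δ : kˣ) : k) := by
        have : g = g' * δ := by simp [δ]
        conv_lhs => rw [this]
        rw [map_mul, Units.val_mul]
      have h7 := hchi_ep g
      have h8 := hchi_ep g'
      calc ep (-c) (g : MatT n k) * (g : MatT n k) i0 e.2.1 e.1.1 * (g : MatT n k) i0 e.2.2 e.1.2 * ep c (g' : MatT n k)
          = ep (-c) (g : MatT n k) * ((g : MatT n k) i0 e.2.1 e.1.1 * (g : MatT n k) i0 e.2.2 e.1.2) * ep c (g' : MatT n k) := by ring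
        _ = ep (-c) (g' : MatT n k) * (g' : MatT n k) i0 e.2.1 e.1.1 * (g' : MatT n k) i0 e.2.2 e.1.2 * ep c (g : MatT n k) := by
          rw [h5, ← h7, ← h8, h6]
          ring)
  have hu_w : ∀ (g : ((MatT n k)ˣ)ᵐᵒᵖ) (a b : d),
      algebraMap k (FF k ι) (eval (pt (g.unop : MatT n k))
        (ep (-c) (gen n k) * gen n k i0 b.1 a.1 * gen n k i0 b.2 a.2) /
        eval (pt (g.unop : MatT n k)) (ep c (gen n k))) = tauB (FF k ι) c i0 g a b := by
    intro g a b
    rw [tauB, Matrix.of_apply]
    congr 1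
    have hX : ∀ (g : (MatT n k)ˣ) (a b : n i0), eval (pt (g : MatT n k)) (gen n k i0 a b) = (g : MatT n k) i0 a b := by
      intro g a b
      change eval (pt (g : MatT n k)) (X (⟨i0, (a, b)⟩ : Ent n)) = _
      rw [eval_X]
      rfl
    have hE : ∀ (c : I → ℤ) (g : (MatT n k)ˣ), eval (pt (g : MatT n k)) (ep c (gen n k)) = ep c (g : MatT n k) := by
      intro c g
      exact ep_gen (S := k) c (g : MatT n k)
    simp only [map_mul, hX, hE]
    rw [← hchi_ep, Units.val_inv_eq_inv_val]
    have h1 : ((chi k c g.unop : kˣ) : k) ≠ 0 := Units.ne_zero _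
    have h2 : ep (-c) (g.unop : MatT n k) ≠ 0 := ep_ne_zero _ _
    field_simp
  have hspan := span_cov (G := ((MatT n k)ˣ)ᵐᵒᵖ) (tauB (FF k ι) c i0) (tauB_one _ c i0) (tauB_mul _ c i0)
    (by
      intro g h a b
      exact (ρ.A g.unop).commutes _) Q hQ hQ0
    (by
      intro a b
      have := hQP (a, b)
      simp only [hu_w] at this
      exact this)
  -- the space of covariant matrices
  let W : Submodule k (Matrix (n i0) (n i0) (FF k ι)) :=
    { carrier := {M | IsCov (G := ((MatT n k)ˣ)ᵐᵒᵖ) (tauB (FF k ι) c i0) (fun e : d => M e.1 e.2)}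
      zero_mem' := by
        intro g
        funext e
        simp [Matrix.mulVec, dotProduct]
      add_mem' := by
        intro M N hM hN g
        have h1 := hM g
        have h2 := hN g
        funext e
        have h3 := congrFun h1 e
        have h4 := congrFun h2 e
        simp only [Matrix.mulVec, dotProduct, Matrix.add_apply, smul_add, mul_add,
          Finset.sum_add_distrib] at h3 h4 ⊢
        rw [h3, h4]
      smul_mem' := by
        intro a M hM g
        have h1 := hM g
        funext e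
        have h3 := congrFun h1 e
        simp only [Matrix.mulVec, dotProduct, Matrix.smul_apply] at h3 ⊢
        have h5 : g • (a • M e.1 e.2) = a • (g • M e.1 e.2) := by
          change ρ.A g.unop (a • M e.1 e.2) = a • ρ.A g.unop (M e.1 e.2)
          rw [Algebra.smul_def, map_mul, AlgEquiv.commutes, ← Algebra.smul_def]
        rw [h5, h3, Finset.smul_sum]
        refine Finset.sum_congr rfl fun x _ => ?_
        rw [mul_smul_comm] }
  have hone : (1 : Matrix (n i0) (n i0) (FF k ι)) ∈ Submodule.span (FF k ι) (W : Set (Matrix (n i0) (n i0) (FF k ι))) := by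
    let e : (d → FF k ι) →ₗ[FF k ι] Matrix (n i0) (n i0) (FF k ι) :=
      { toFun := fun w => Matrix.of fun p q => w (p, q)
        map_add' := fun _ _ => rfl
        map_smul' := fun _ _ => rfl }
    have h1 : (fun e : d => (1 : Matrix (n i0) (n i0) (FF k ι)) e.1 e.2) ∈
        Submodule.span (FF k ι) {w : d → FF k ι | IsCov (G := ((MatT n k)ˣ)ᵐᵒᵖ) (tauB (FF k ι) c i0) w} := by
      rw [hspan]
      exact Submodule.mem_top
    have h2 := Submodule.mem_map_of_mem (f := e) h1
    rw [Submodule.map_span] at h2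
    refine Submodule.span_mono ?_ h2
    rintro _ ⟨w, hw, rfl⟩
    exact hw
  obtain ⟨B, hB, hdet⟩ := exists_det_ne_zero W hone
  refine ⟨B, hdet, ?_⟩
  intro g
  have h1 := hB (op g)
  ext p q
  have h2 := congrFun h1 (p, q)
  have h3 : (B.map (ρ.A g)) p q = (tauB (FF k ι) c i0 (op g)⁻¹ *ᵥ fun e : d => B e.1 e.2) (p, q) := h2
  rw [h3]
  simp only [Matrix.mulVec, dotProduct, tauB, Matrix.of_apply, Fintype.sum_prod_type]
  rw [Matrix.mul_apply]
  simp only [Matrix.mul_apply, Matrix.smul_apply, Finset.sum_mul]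
  rw [Finset.sum_comm]
  refine Finset.sum_congr rfl fun y _ => Finset.sum_congr rfl fun x _ => ?_
  rw [chi_inc]
  have e1 : ((op g)⁻¹ : ((MatT n k)ˣ)ᵐᵒᵖ).unop = g⁻¹ := rfl
  rw [e1, map_inv, inv_inv, incU_val, Matrix.transpose_apply, smul_eq_mul, map_mul, map_mul]
  simp only [inc, mapT, Matrix.map_apply]
  ring

end VDual
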