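import Mathlib
import Pool.Agent.Helper59.VDual.Cov

/-!
# The uniform theorem
-/

set_option linter.unusedSectionVars false
set_option linter.style.haveILetI false

open MvPolynomial Matrix MulOpposite

namespace VDual

variable {I : Type*} [Fintype I] [DecidableEq I] {n : I → Type*} [∀ i, Fintype (n i)]
  [∀ i, DecidableEq (n i)]
variable {k : Type*} [Field k] {ι : Type*} [Fintype ι] [DecidableEq ι]

/-- transposition of tuples of matrices -/
def trT {S : Type*} (g : MatT n S) : MatT n S := fun i => (g i)ᵀ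

theorem trT_mul {S : Type*} [CommRing S] (g h : MatT n S) : trT (g * h) = trT h * trT g := by
  funext i
  exact Matrix.transpose_mul _ _

theorem trT_one {S : Type*} [CommRing S] : trT (1 : MatT n S) = 1 := by
  funext i
  exact Matrix.transpose_one

theorem trT_trT {S : Type*} (g : MatT n S) : trT (trT g) = g := by
  funext i
  exact Matrix.transpose_transpose _

theorem trT_scal {S : Type*} [CommRing S] (c : I → S) : trT (scal (n := n) c) = scal c := by
  funext i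
  simp [trT, scal]

theorem scal_mul {S : Type*} [CommRing S] (c : I → S) (g : MatT n S) : scal c * g = fun i => c i • g i := by
  funext i
  simp [scal, Pi.mul_apply]

theorem mul_scal {S : Type*} [CommRing S] (c : I → S) (g : MatT n S) : g * scal c = fun i => c i • g i := by
  funext i
  simp [scal, Pi.mul_apply]

/-- inverse transpose -/
def sig {S : Type*} [CommRing S] (g : (MatT n S)ˣ) : (MatT n S)ˣ where
  val := trT ((g⁻¹ : (MatT n S)ˣ) : MatT n S)
  inv := trT (g : MatT n S)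
  val_inv := by rw [← trT_mul, Units.mul_inv, trT_one]
  inv_val := by rw [← trT_mul, Units.inv_mul, trT_one]

theorem sig_val {S : Type*} [CommRing S] (g : (MatT n S)ˣ) :
    ((sig g : (MatT n S)ˣ) : MatT n S) = trT ((g⁻¹ : (MatT n S)ˣ) : MatT n S) := rfl

theorem sig_sig {S : Type*} [CommRing S] (g : (MatT n S)ˣ) : sig (sig g) = g := by
  apply Units.ext
  rw [sig_val]
  change trT (trT (g : MatT n S)) = _
  exact trT_trT _

theorem incU_sig (L : Type*) [Field L] [Algebra k L] (g : (MatT n k)ˣ) :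
    incU L (sig g) = sig (incU L g) := by
  apply Units.ext
  rfl

variable (ρ : PolyRep k n ι)

/-- covariance of a tuple of bilinear forms -/
def PolyRep.IsCovT [Infinite k] (c : I → I → ℤ) (B : MatT n (FF k ι)) : Prop :=
  ∀ g : (MatT n k)ˣ, mapT (ρ.A g) B =
    scal (fun i => ((chi (FF k ι) (c i) (incU (FF k ι) g) : (FF k ι)ˣ) : FF k ι)) *
      (((sig (incU (FF k ι) g) : (MatT n (FF k ι))ˣ) : MatT n (FF k ι)) * B *
        ((incU (FF k ι) g⁻¹ : (MatT n (FF k ι))ˣ) : MatT n (FF k ι)))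

theorem mapT_trT {S S' : Type*} (φ : S → S') (g : MatT n S) : mapT φ (trT g) = trT (mapT φ g) := rfl

theorem PolyRep.IsCovT.trT [Infinite k] {c : I → I → ℤ} {B : MatT n (FF k ι)} (h : ρ.IsCovT c B) :
    ρ.IsCovT c (trT B) := by
  intro g
  rw [mapT_trT, h g, trT_mul, trT_scal, mul_scal, scal_mul]
  funext i
  congr 1
  rw [trT_mul, trT_mul]
  have e1 : VDual.trT ((incU (FF k ι) g⁻¹ : (MatT n (FF k ι))ˣ) : MatT n (FF k ι)) =
      ((sig (incU (FF k ι) g) : (MatT n (FF k ι))ˣ) : MatT n (FF k ι)) := by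
    rw [sig_val, map_inv]
  have e2 : VDual.trT ((sig (incU (FF k ι) g) : (MatT n (FF k ι))ˣ) : MatT n (FF k ι)) =
      ((incU (FF k ι) g⁻¹ : (MatT n (FF k ι))ˣ) : MatT n (FF k ι)) := by
    rw [sig_val, trT_trT, map_inv]
  rw [e1, e2, mul_assoc]

/-- the hypothesis that the scalars `χ_i(g)` act trivially -/
def PolyRep.ChiTriv (c : I → I → ℤ) : Prop :=
  ∀ g : (MatT n (FF k ι))ˣ,
    ev ρ.P (scal (fun i => ((chi (FF k ι) (c i) g : (FF k ι)ˣ) : FF k ι))) = 1

/-- the vector `Φ = ρ(B) x` -/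
noncomputable def PolyRep.Phi (B : MatT n (FF k ι)) : ι → FF k ι := ev ρ.P B *ᵥ xx k ι

theorem PolyRep.A_vec [Infinite k] (g : (MatT n k)ˣ) (M : MatT n (FF k ι)) (v : ι → FF k ι) (t : ι) :
    ρ.A g ((ev ρ.P M *ᵥ v) t) = (ev ρ.P (mapT (ρ.A g) M) *ᵥ (fun t => ρ.A g (v t))) t := by
  have h := ev_map ((ρ.A g : FF k ι ≃ₐ[k] FF k ι) : FF k ι →ₐ[k] FF k ι) ρ.P M
  have h' : ∀ a b, ρ.A g (ev ρ.P M a b) = ev ρ.P (mapT (ρ.A g) M) a b := by
    intro a b
    exact congrFun (congrFun h a) b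
  simp only [mulVec, dotProduct, map_sum, map_mul, h']

theorem PolyRep.A_Phi [Infinite k] {c : I → I → ℤ} (hc : ρ.ChiTriv c) {B : MatT n (FF k ι)}
    (hB : ρ.IsCovT c B) (g : (MatT n k)ˣ) (t : ι) :
    ρ.A g (ρ.Phi B t) =
      (ev ρ.P ((sig (incU (FF k ι) g) : (MatT n (FF k ι))ˣ) : MatT n (FF k ι)) *ᵥ ρ.Phi B) t := by
  rw [PolyRep.Phi, ρ.A_vec]
  have e1 : (fun t => ρ.A g (xx k ι t)) = ev ρ.P (inc (FF k ι) (g : MatT n k)) *ᵥ xx k ι := by
    funext t
    exact ρ.A_xx g t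
  rw [e1, hB g, ρ.mul', ρ.mul', ρ.mul', hc, one_mul, Matrix.mulVec_mulVec, Matrix.mulVec_mulVec]
  have e2 : ev ρ.P ((incU (FF k ι) g⁻¹ : (MatT n (FF k ι))ˣ) : MatT n (FF k ι)) *
      ev ρ.P (inc (FF k ι) (g : MatT n k)) = 1 := by
    rw [← ρ.mul', ← incU_val, ← Units.val_mul, ← map_mul, inv_mul_cancel, map_one, Units.val_one,
      ρ.one']
  rw [mul_assoc, e2, mul_one]

theorem PolyRep.Phi_injective [Infinite k] {c : I → I → ℤ} (hc : ρ.ChiTriv c)
    (B : (MatT n (FF k ι))ˣ) (hB : ρ.IsCovT c (B : MatT n (FF k ι))) :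
    Function.Injective (aeval (ρ.Phi (B : MatT n (FF k ι))) : MvPolynomial ι k →ₐ[k] FF k ι) := by
  rw [injective_iff_map_eq_zero]
  intro p hp
  -- `p (ρ(h) Φ) = 0` for all `h ∈ G(k)`
  have h1 : ∀ h : (MatT n k)ˣ,
      aeval (ev ρ.P (inc (FF k ι) (h : MatT n k)) *ᵥ ρ.Phi (B : MatT n (FF k ι))) p = 0 := by
    intro h
    have h2 : ((ρ.A (sig h) : FF k ι ≃ₐ[k] FF k ι) : FF k ι →ₐ[k] FF k ι).comp
        (aeval (ρ.Phi (B : MatT n (FF k ι)))) =
        (aeval (ev ρ.P (inc (FF k ι) (h : MatT n k)) *ᵥ ρ.Phi (B : MatT n (FF k ι))) :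
          MvPolynomial ι k →ₐ[k] FF k ι) := by
      apply MvPolynomial.algHom_ext
      intro t
      rw [AlgHom.comp_apply, aeval_X, aeval_X]
      have h3 := ρ.A_Phi hc hB (sig h) t
      rw [incU_sig, sig_sig] at h3
      exact h3
    have h3 := DFunLike.congr_fun h2 p
    rw [AlgHom.comp_apply, hp, map_zero] at h3
    exact h3.symm
  have h2 : aeval (ρ.Y (ρ.Phi (B : MatT n (FF k ι)))) p = 0 := by
    apply eq_zero_of_GL (k := k)
    intro h
    rw [ρ.aeval_Y_eval]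
    exact h1 h
  have h3 := ρ.aeval_Y_eval (ρ.Phi (B : MatT n (FF k ι))) ((B⁻¹ : (MatT n (FF k ι))ˣ) : MatT n (FF k ι)) p
  rw [h2, map_zero] at h3
  have h4 : ev ρ.P ((B⁻¹ : (MatT n (FF k ι))ˣ) : MatT n (FF k ι)) *ᵥ ρ.Phi (B : MatT n (FF k ι)) = xx k ι := by
    rw [PolyRep.Phi, Matrix.mulVec_mulVec, ← ρ.mul', Units.inv_mul, ρ.one', Matrix.one_mulVec]
  rw [h4, aeval_xx] at h3
  exact (IsFractionRing.injective (MvPolynomial ι k) (FF k ι)) (by rw [← h3, map_zero])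

/-- the field homomorphism `Θ_B` -/
noncomputable def PolyRep.Th [Infinite k] {c : I → I → ℤ} (hc : ρ.ChiTriv c)
    (B : (MatT n (FF k ι))ˣ) (hB : ρ.IsCovT c (B : MatT n (FF k ι))) : FF k ι →ₐ[k] FF k ι :=
  IsFractionRing.liftAlgHom (ρ.Phi_injective hc B hB)

theorem PolyRep.Th_xx [Infinite k] {c : I → I → ℤ} (hc : ρ.ChiTriv c)
    (B : (MatT n (FF k ι))ˣ) (hB : ρ.IsCovT c (B : MatT n (FF k ι))) (t : ι) :
    ρ.Th hc B hB (xx k ι t) = ρ.Phi (B : MatT n (FF k ι)) t := by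
  rw [PolyRep.Th, xx, IsFractionRing.liftAlgHom_apply, IsFractionRing.lift_algebraMap]
  change aeval _ (X t) = _
  rw [aeval_X]

theorem PolyRep.Th_B [Infinite k] {c : I → I → ℤ} (hc : ρ.ChiTriv c)
    (B : (MatT n (FF k ι))ˣ) (hB : ρ.IsCovT c (B : MatT n (FF k ι))) :
    mapT (ρ.Th hc B hB) (B : MatT n (FF k ι)) =
      scal (fun i => ((chi (FF k ι) (c i) B : (FF k ι)ˣ) : FF k ι)) *
        ((sig B : (MatT n (FF k ι))ˣ) : MatT n (FF k ι)) := by
  classical
  -- `Bᵀ Θ(B) B = χ(B) B`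
  have key : ∀ i, ((B : MatT n (FF k ι)) i)ᵀ * (mapT (ρ.Th hc B hB) (B : MatT n (FF k ι)) i) *
      (B : MatT n (FF k ι)) i = ((chi (FF k ι) (c i) B : (FF k ι)ˣ) : FF k ι) • (B : MatT n (FF k ι)) i := by
    intro i
    ext p q
    let u : Option (n i × n i) → FF k ι := fun o => o.elim 1 (fun e => (B : MatT n (FF k ι)) i e.1 e.2)
    let cc : Option (n i × n i) → MvPolynomial (Ent n) (FF k ι) := fun o =>
      o.elim (-(ep (c i) (gen n (FF k ι)) * C ((B : MatT n (FF k ι)) i p q)))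
        (fun e => ep (-(c i)) (gen n (FF k ι)) * gen n (FF k ι) i e.1 p * gen n (FF k ι) i e.2 q)
    have hX : ∀ (θ : MatT n (FF k ι)) (a b : n i), eval (pt θ) (gen n (FF k ι) i a b) = θ i a b := by
      intro θ a b
      change eval (pt θ) (X (⟨i, (a, b)⟩ : Ent n)) = _
      rw [eval_X]
      rfl
    have hE : ∀ (c : I → ℤ) (θ : MatT n (FF k ι)), eval (pt θ) (ep c (gen n (FF k ι))) = ep c θ := by
      intro c θ
      exact ep_gen (S := FF k ι) c θ
    have hsum : ∀ (θ : MatT n (FF k ι)) (φ : FF k ι →ₐ[k] FF k ι),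
        ∑ l, eval (pt θ) (cc l) * φ (u l) =
          -(ep (c i) θ * (B : MatT n (FF k ι)) i p q) +
            ep (-(c i)) θ * ((θ i)ᵀ * (mapT φ (B : MatT n (FF k ι)) i) * θ i) p q := by
      intro θ φ
      rw [Fintype.sum_option]
      simp only [cc, u, Option.elim, map_one, mul_one, map_neg, map_mul, hX, hE, eval_C]
      congr 1
      rw [Fintype.sum_prod_type, Matrix.mul_apply, Finset.mul_sum, Finset.sum_comm]
      refine Finset.sum_congr rfl fun y _ => ?_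
      rw [Matrix.mul_apply, Finset.sum_mul, Finset.mul_sum]
      refine Finset.sum_congr rfl fun x _ => ?_
      simp only [Matrix.transpose_apply, mapT, Matrix.map_apply]
      ring
    have htr := ρ.transfer (B : MatT n (FF k ι)) (ρ.Th hc B hB) (fun t => ρ.Th_xx hc B hB t) u cc
      (by
        intro g
        have h1 := hsum (inc (FF k ι) (g : MatT n k)) ((ρ.A g : FF k ι ≃ₐ[k] FF k ι) : FF k ι →ₐ[k] FF k ι)
        have h1' : ∑ l, eval (pt (inc (FF k ι) (g : MatT n k))) (cc l) * ρ.A g (u l) = _ := h1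
        rw [h1']
        have h2 := congrFun (hB g) i
        have h3 : mapT ((ρ.A g : FF k ι ≃ₐ[k] FF k ι) : FF k ι →ₐ[k] FF k ι) (B : MatT n (FF k ι)) i =
          mapT (ρ.A g) (B : MatT n (FF k ι)) i := rfl
        rw [h3, h2, scal_mul]
        have h4 : (inc (FF k ι) (g : MatT n k) i)ᵀ *
            (((sig (incU (FF k ι) g) : (MatT n (FF k ι))ˣ) : MatT n (FF k ι)) *
              (B : MatT n (FF k ι)) * ((incU (FF k ι) g⁻¹ : (MatT n (FF k ι))ˣ) : MatT n (FF k ι))) i *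
            (inc (FF k ι) (g : MatT n k) i) = (B : MatT n (FF k ι)) i := by
          have e1 : trT (incU (FF k ι) g : MatT n (FF k ι)) *
              ((((sig (incU (FF k ι) g) : (MatT n (FF k ι))ˣ) : MatT n (FF k ι)) *
              (B : MatT n (FF k ι)) * ((incU (FF k ι) g⁻¹ : (MatT n (FF k ι))ˣ) : MatT n (FF k ι)))) *
              (incU (FF k ι) g : MatT n (FF k ι)) = (B : MatT n (FF k ι)) := by
            have e2 : trT (incU (FF k ι) g : MatT n (FF k ι)) *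
              ((sig (incU (FF k ι) g) : (MatT n (FF k ι))ˣ) : MatT n (FF k ι)) = 1 :=
              (sig (incU (FF k ι) g)).inv_mul
            have e3 : ((incU (FF k ι) g⁻¹ : (MatT n (FF k ι))ˣ) : MatT n (FF k ι)) *
              (incU (FF k ι) g : MatT n (FF k ι)) = 1 := by
              rw [map_inv]
              exact Units.inv_mul _
            rw [← mul_assoc, ← mul_assoc, e2, one_mul, mul_assoc, e3, mul_one]
          exact congrFun e1 i
        have h5 := chi_mul_ep (c i) (incU (FF k ι) g)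
        rw [incU_val] at h5
        rw [Matrix.mul_smul, Matrix.smul_mul, h4, Matrix.smul_apply, smul_eq_mul, ← h5]
        ring)
    rw [hsum] at htr
    have h5 := chi_mul_ep (c i) B
    have h6 : ep (-(c i)) (B : MatT n (FF k ι)) ≠ 0 := ep_ne_zero _ _
    rw [← h5] at htr
    rw [Matrix.smul_apply, smul_eq_mul]
    have h7 : ep (-(c i)) (B : MatT n (FF k ι)) * ((((B : MatT n (FF k ι)) i)ᵀ *
        (mapT (ρ.Th hc B hB) (B : MatT n (FF k ι)) i) * (B : MatT n (FF k ι)) i) p q) =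
        ep (-(c i)) (B : MatT n (FF k ι)) * (((chi (FF k ι) (c i) B : (FF k ι)ˣ) : FF k ι) *
          (B : MatT n (FF k ι)) i p q) := by
      linear_combination htr
    exact mul_left_cancel₀ h6 h7
  -- conclude
  have key2 : trT (B : MatT n (FF k ι)) * mapT (ρ.Th hc B hB) (B : MatT n (FF k ι)) * (B : MatT n (FF k ι)) =
      scal (fun i => ((chi (FF k ι) (c i) B : (FF k ι)ˣ) : FF k ι)) * (B : MatT n (FF k ι)) := by
    rw [scal_mul]
    funext i
    exact key i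
  have e2 : ((sig B : (MatT n (FF k ι))ˣ) : MatT n (FF k ι)) * trT (B : MatT n (FF k ι)) = 1 :=
    (sig B).mul_inv
  have e3 : (B : MatT n (FF k ι)) * ((B⁻¹ : (MatT n (FF k ι))ˣ) : MatT n (FF k ι)) = 1 := B.mul_inv
  calc mapT (ρ.Th hc B hB) (B : MatT n (FF k ι))
      = (((sig B : (MatT n (FF k ι))ˣ) : MatT n (FF k ι)) * trT (B : MatT n (FF k ι))) *
          mapT (ρ.Th hc B hB) (B : MatT n (FF k ι)) *
          ((B : MatT n (FF k ι)) * ((B⁻¹ : (MatT n (FF k ι))ˣ) : MatT n (FF k ι))) := by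
        rw [e2, e3, one_mul, mul_one]
    _ = ((sig B : (MatT n (FF k ι))ˣ) : MatT n (FF k ι)) *
          (trT (B : MatT n (FF k ι)) * mapT (ρ.Th hc B hB) (B : MatT n (FF k ι)) *
            (B : MatT n (FF k ι))) * ((B⁻¹ : (MatT n (FF k ι))ˣ) : MatT n (FF k ι)) := by
        simp only [mul_assoc]
    _ = ((sig B : (MatT n (FF k ι))ˣ) : MatT n (FF k ι)) *
          scal (fun i => ((chi (FF k ι) (c i) B : (FF k ι)ˣ) : FF k ι)) *
          ((B : MatT n (FF k ι)) * ((B⁻¹ : (MatT n (FF k ι))ˣ) : MatT n (FF k ι))) := by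
        rw [key2]
        simp only [mul_assoc]
    _ = _ := by
        rw [e3, mul_one, mul_scal, scal_mul]

/-- `Θ_B ∘ Θ_{Bᵀ} = id` -/
theorem PolyRep.Th_Phi_tr [Infinite k] {c : I → I → ℤ} (hc : ρ.ChiTriv c)
    (B : (MatT n (FF k ι))ˣ) (hB : ρ.IsCovT c (B : MatT n (FF k ι))) (t : ι) :
    ρ.Th hc B hB (ρ.Phi (trT (B : MatT n (FF k ι))) t) = xx k ι t := by
  have h1 : mapT (ρ.Th hc B hB) (trT (B : MatT n (FF k ι))) =
      scal (fun i => ((chi (FF k ι) (c i) B : (FF k ι)ˣ) : FF k ι)) *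
        ((B⁻¹ : (MatT n (FF k ι))ˣ) : MatT n (FF k ι)) := by
    rw [mapT_trT, ρ.Th_B hc B hB, trT_mul, trT_scal, sig_val, trT_trT, mul_scal, scal_mul]
  have h2 : ∀ a b, ρ.Th hc B hB (ev ρ.P (trT (B : MatT n (FF k ι))) a b) =
      ev ρ.P ((B⁻¹ : (MatT n (FF k ι))ˣ) : MatT n (FF k ι)) a b := by
    intro a b
    have h := ev_map (ρ.Th hc B hB) ρ.P (trT (B : MatT n (FF k ι)))
    have h3 := congrFun (congrFun h a) b
    rw [Matrix.map_apply] at h3
    rw [h3, h1, ρ.mul', hc, one_mul]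
  have h3 : ρ.Th hc B hB (ρ.Phi (trT (B : MatT n (FF k ι))) t) =
      (ev ρ.P ((B⁻¹ : (MatT n (FF k ι))ˣ) : MatT n (FF k ι)) *ᵥ ρ.Phi (B : MatT n (FF k ι))) t := by
    rw [PolyRep.Phi]
    simp only [mulVec, dotProduct, map_sum, map_mul, h2]
    refine Finset.sum_congr rfl fun j _ => ?_
    rw [ρ.Th_xx]
  rw [h3, PolyRep.Phi, Matrix.mulVec_mulVec, ← ρ.mul', Units.inv_mul, ρ.one', Matrix.one_mulVec]

/-- **uniform theorem** -/
theorem PolyRep.uniform [IsAlgClosed k] [CharZero k] (D : MvPolynomial ι k) (hD : D ≠ 0)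
    (c : I → I → ℤ)
    (hfree : ∀ v : ι → k, eval v D ≠ 0 → ∀ g : (MatT n k)ˣ, ev ρ.P (g : MatT n k) *ᵥ v = v →
      ∀ (i : I) (N : Matrix (n i) (n i) k),
        ((g : MatT n k) i)ᵀ * N * ((g : MatT n k) i) = ((chi k (c i) g : kˣ) : k) • N)
    (hchi : ρ.ChiTriv c) :
    haveI : Infinite k := CharZero.infinite k
    ∃ Θ : FF k ι ≃ₐ[k] FF k ι, ∀ (g : (MatT n k)ˣ) (f : FF k ι),
      Θ (ρ.A (sig g) f) = ρ.A g (Θ f) := by
  classical
  haveI : Infinite k := CharZero.infinite k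
  choose B0 hdet hcov using fun i => ρ.exists_cov D hD (c i) i (fun v hv g hg N => hfree v hv g hg i N)
  have hunit : IsUnit (B0 : MatT n (FF k ι)) := by
    rw [Pi.isUnit_iff]
    intro i
    rw [Matrix.isUnit_iff_isUnit_det]
    exact isUnit_iff_ne_zero.mpr (hdet i)
  obtain ⟨B, hBB⟩ := hunit
  have hB : ρ.IsCovT c (B : MatT n (FF k ι)) := by
    intro g
    rw [hBB, scal_mul]
    funext i
    have h1 := hcov i g
    have h2 : mapT (ρ.A g) B0 i = (B0 i).map (ρ.A g) := rfl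
    rw [h2, h1, Matrix.smul_mul, Matrix.smul_mul, sig_val, ← map_inv]
    rfl
  let Bt : (MatT n (FF k ι))ˣ := (sig B)⁻¹
  have hBt : (Bt : MatT n (FF k ι)) = trT (B : MatT n (FF k ι)) := rfl
  have hcovt : ρ.IsCovT c (Bt : MatT n (FF k ι)) := by
    rw [hBt]
    exact hB.trT
  let Θ := ρ.Th hchi B hB
  let Θ' := ρ.Th hchi Bt hcovt
  have hcomp : Θ.comp Θ' = AlgHom.id k _ := by
    apply ff_hom_ext
    intro t
    change Θ (Θ' (xx k ι t)) = xx k ι t
    have h1 : Θ' (xx k ι t) = ρ.Phi (Bt : MatT n (FF k ι)) t := ρ.Th_xx hchi Bt hcovt t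
    rw [h1, hBt]
    exact ρ.Th_Phi_tr hchi B hB t
  have hsurj : Function.Surjective Θ := by
    intro y
    exact ⟨Θ' y, DFunLike.congr_fun hcomp y⟩
  have hinj : Function.Injective Θ := Θ.toRingHom.injective
  refine ⟨AlgEquiv.ofBijective Θ ⟨hinj, hsurj⟩, ?_⟩
  intro g f
  change Θ (ρ.A (sig g) f) = ρ.A g (Θ f)
  have h1 : Θ.comp ((ρ.A (sig g) : FF k ι ≃ₐ[k] FF k ι) : FF k ι →ₐ[k] FF k ι) =
      ((ρ.A g : FF k ι ≃ₐ[k] FF k ι) : FF k ι →ₐ[k] FF k ι).comp Θ := by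
    apply ff_hom_ext
    intro t
    change Θ (ρ.A (sig g) (xx k ι t)) = ρ.A g (Θ (xx k ι t))
    have e1 : Θ (xx k ι t) = ρ.Phi (B : MatT n (FF k ι)) t := ρ.Th_xx hchi B hB t
    rw [e1, ρ.A_Phi hchi hB, ρ.A_xx, ev_inc, ← incU_sig, incU_val, ev_inc]
    simp only [mulVec, dotProduct, map_sum, map_mul, Matrix.map_apply]
    refine Finset.sum_congr rfl fun j _ => ?_
    rw [AlgHom.commutes]
    congr 1
    exact ρ.Th_xx hchi B hB j
  exact DFunLike.congr_fun h1 f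

end VDual
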