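import Mathlib

/-!
# Irreducible representations with equal traces are isomorphic (characteristic zero)
-/

set_option linter.unusedSectionVars false
set_option linter.style.haveILetI false

namespace VDual

open scoped MonoidAlgebra

section modules

variable {k A M1 M2 : Type*} [Field k] [CharZero k] [Ring A] [Algebra k A]
  [AddCommGroup M1] [Module k M1] [Module A M1] [IsScalarTower k A M1]
  [AddCommGroup M2] [Module k M2] [Module A M2] [IsScalarTower k A M2]
  [FiniteDimensional k M1] [FiniteDimensional k M2]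
  [IsSimpleModule A M1] [IsSimpleModule A M2]

theorem nonempty_equiv_of_trace
    (h : ∀ r : A, LinearMap.trace k M1 (Algebra.lsmul k k M1 r) =
      LinearMap.trace k M2 (Algebra.lsmul k k M2 r)) : Nonempty (M1 ≃ₗ[A] M2) := by
  classical
  by_contra hne
  have h12 : ∀ f : M1 →ₗ[A] M2, f = 0 := by
    intro f
    rcases LinearMap.bijective_or_eq_zero f with hf | hf
    · exact absurd ⟨LinearEquiv.ofBijective f hf⟩ hne
    · exact hf
  have h21 : ∀ f : M2 →ₗ[A] M1, f = 0 := by
    intro f
    rcases LinearMap.bijective_or_eq_zero f with hf | hf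
    · exact absurd ⟨(LinearEquiv.ofBijective f hf).symm⟩ hne
    · exact hf
  haveI : IsSemisimpleModule A (M1 × M2) := by
    have e1 : IsSemisimpleModule A (LinearMap.range (LinearMap.inl A M1 M2)) := .range _
    have e2 : IsSemisimpleModule A (LinearMap.range (LinearMap.inr A M1 M2)) := .range _
    have e3 := IsSemisimpleModule.sup e1 e2
    rw [LinearMap.sup_range_inl_inr] at e3
    exact IsSemisimpleModule.congr (Submodule.topEquiv (R := A) (M := M1 × M2)).symm
  -- the projection onto `M1`
  let pr : Module.End A (M1 × M2) := (LinearMap.inl A M1 M2).comp (LinearMap.fst A M1 M2)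
  have hcomm : ∀ (e : Module.End A (M1 × M2)) (m : M1 × M2), pr (e m) = e (pr m) := by
    intro e m
    have e12 : (LinearMap.fst A M1 M2).comp (e.comp (LinearMap.inr A M1 M2)) = 0 := h21 _
    have e21 : (LinearMap.snd A M1 M2).comp (e.comp (LinearMap.inl A M1 M2)) = 0 := h12 _
    have d1 : (e (0, m.2)).1 = 0 := LinearMap.congr_fun e12 m.2
    have d2 : (e (m.1, 0)).2 = 0 := LinearMap.congr_fun e21 m.1
    have hm : m = (m.1, 0) + (0, m.2) := by simp
    have h3 : e m = e (m.1, 0) + e (0, m.2) := by
      conv_lhs => rw [hm]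
      rw [map_add]
    apply Prod.ext
    · change (e m).1 = (e (m.1, 0)).1
      rw [h3, Prod.fst_add, d1, add_zero]
    · change 0 = (e (m.1, 0)).2
      rw [d2]
  let f : Module.End (Module.End A (M1 × M2)) (M1 × M2) :=
    { toFun := fun m => pr m
      map_add' := fun x y => map_add pr x y
      map_smul' := by
        intro e m
        exact hcomm e m }
  let b1 := Module.finBasis k M1
  let b2 := Module.finBasis k M2
  let s : Finset (M1 × M2) := (Finset.univ.image fun i => (b1 i, (0 : M2))) ∪
    (Finset.univ.image fun j => ((0 : M1), b2 j))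
  obtain ⟨r, hr⟩ := jacobson_density f s
  have hr1 : Algebra.lsmul k k M1 r = LinearMap.id := by
    apply b1.ext
    intro i
    have h1 := hr (b1 i, 0) (Finset.mem_union_left _ (Finset.mem_image_of_mem _ (Finset.mem_univ i)))
    have h2 := congrArg Prod.fst h1
    exact h2.symm
  have hr2 : Algebra.lsmul k k M2 r = 0 := by
    apply b2.ext
    intro i
    have h1 := hr (0, b2 i) (Finset.mem_union_right _ (Finset.mem_image_of_mem _ (Finset.mem_univ i)))
    have h2 := congrArg Prod.snd h1
    exact h2.symm
  have h3 := h r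
  rw [hr1, hr2, map_zero, LinearMap.trace_id] at h3
  haveI : Nontrivial M1 := IsSimpleModule.nontrivial A M1
  have h4 : Module.finrank k M1 ≠ 0 := (Module.finrank_pos (R := k) (M := M1)).ne'
  exact h4 (by exact_mod_cast h3)

end modules

section reps

variable {k G : Type*} [Field k] [CharZero k] [Monoid G] {τ : Type*} [Fintype τ] [DecidableEq τ]

/-- a matrix representation as a `Representation` -/
noncomputable def toRep (ρ : G →* Matrix τ τ k) : Representation k G (τ → k) :=
  (Matrix.toLinAlgEquiv' (R := k) (n := τ)).toAlgHom.toMonoidHom.comp ρ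

theorem toRep_apply (ρ : G →* Matrix τ τ k) (g : G) (v : τ → k) :
    toRep ρ g v = (ρ g).mulVec v := rfl

/-- irreducibility of a matrix representation -/
def IsIrr (ρ : G →* Matrix τ τ k) : Prop :=
  Nonempty τ ∧ ∀ W : Submodule k (τ → k), (∀ g, ∀ w ∈ W, (ρ g).mulVec w ∈ W) → W = ⊥ ∨ W = ⊤

theorem IsIrr.irreducible {ρ : G →* Matrix τ τ k} (h : IsIrr ρ) : (toRep ρ).IsIrreducible := by
  obtain ⟨hne, h⟩ := h
  haveI := hne
  haveI : Nontrivial (Subrepresentation (toRep ρ)) := by
    refine ⟨⊥, ⊤, ?_⟩
    intro heq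
    have h1 : (⊥ : Subrepresentation (toRep ρ)).toSubmodule = (⊤ : Subrepresentation (toRep ρ)).toSubmodule := by
      rw [heq]
    have h2 : (⊥ : Submodule k (τ → k)) = ⊤ := h1
    exact bot_ne_top h2
  refine ⟨?_⟩
  intro W
  rcases h W.toSubmodule (fun g w hw => W.apply_mem_toSubmodule g hw) with h1 | h1
  · left
    exact Subrepresentation.toSubmodule_injective h1
  · right
    exact Subrepresentation.toSubmodule_injective h1

theorem trace_of (ρ : G →* Matrix τ τ k) (g : G) :
    LinearMap.trace k (toRep ρ).asModule (Algebra.lsmul k k (toRep ρ).asModule (MonoidAlgebra.of k G g)) =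
      (ρ g).trace := by
  have h1 : (toRep ρ).asModuleEquiv.conj
      (Algebra.lsmul k k (toRep ρ).asModule (MonoidAlgebra.of k G g)) = (ρ g).toLin' := by
    apply LinearMap.ext
    intro v
    rw [LinearEquiv.conj_apply_apply]
    change (toRep ρ).asModuleEquiv ((MonoidAlgebra.of k G g) • ((toRep ρ).asModuleEquiv.symm v)) = _
    rw [← Representation.asModuleEquiv_symm_map_rho, LinearEquiv.apply_symm_apply]
    rfl
  rw [← LinearMap.trace_conj' _ (toRep ρ).asModuleEquiv, h1, Matrix.trace_toLin'_eq]

/-- **equal traces imply isomorphic** -/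
theorem exists_conj_of_trace {ρ1 ρ2 : G →* Matrix τ τ k} (h1 : IsIrr ρ1) (h2 : IsIrr ρ2)
    (htr : ∀ g, (ρ1 g).trace = (ρ2 g).trace) :
    ∃ J : (Matrix τ τ k)ˣ, ∀ g, (J : Matrix τ τ k) * ρ1 g = ρ2 g * (J : Matrix τ τ k) := by
  haveI := h1.irreducible
  haveI := h2.irreducible
  haveI : FiniteDimensional k (toRep ρ1).asModule := inferInstanceAs (FiniteDimensional k (τ → k))
  haveI : FiniteDimensional k (toRep ρ2).asModule := inferInstanceAs (FiniteDimensional k (τ → k))
  have hne : Nonempty ((toRep ρ1).asModule ≃ₗ[k[G]] (toRep ρ2).asModule) := by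
    apply nonempty_equiv_of_trace (k := k)
    intro r
    induction r using MonoidAlgebra.induction_on with
    | of g => rw [trace_of, trace_of, htr]
    | add x y hx hy => rw [map_add, map_add, map_add, map_add, hx, hy]
    | smul c x hx => rw [map_smul, map_smul, map_smul, map_smul, hx]
  obtain ⟨e⟩ := hne
  -- the underlying linear equivalence
  let e0 : (τ → k) ≃ₗ[k] (τ → k) :=
    ((toRep ρ1).asModuleEquiv.symm.trans (e.restrictScalars k)).trans (toRep ρ2).asModuleEquiv
  have he0 : ∀ (g : G) (v : τ → k), e0 ((ρ1 g).mulVec v) = (ρ2 g).mulVec (e0 v) := by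
    intro g v
    change (toRep ρ2).asModuleEquiv (e ((toRep ρ1).asModuleEquiv.symm (toRep ρ1 g v))) = _
    rw [Representation.asModuleEquiv_symm_map_rho, map_smul, Representation.asModuleEquiv_map_smul,
      Representation.asAlgebraHom_of]
    rfl
  let Jm : Matrix τ τ k := LinearMap.toMatrix' (e0 : (τ → k) →ₗ[k] (τ → k))
  let Ji : Matrix τ τ k := LinearMap.toMatrix' (e0.symm : (τ → k) →ₗ[k] (τ → k))
  refine ⟨⟨Jm, Ji, ?_, ?_⟩, ?_⟩
  · rw [← LinearMap.toMatrix'_comp]
    simp
  · rw [← LinearMap.toMatrix'_comp]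
    simp
  · intro g
    change Jm * ρ1 g = ρ2 g * Jm
    apply Matrix.toLin'.injective
    apply LinearMap.ext
    intro v
    rw [Matrix.toLin'_mul, Matrix.toLin'_mul]
    simp only [Jm, LinearMap.comp_apply, Matrix.toLin'_toMatrix', Matrix.toLin'_apply]
    exact he0 g v

end reps

end VDual
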