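import Mathlib
import Pool.Agent.Helper59.VDual.Core
import Pool.Agent.Helper59.VDual.TraceIso

/-!
# `tr ρ(gᵀ) = tr ρ(g)` and the isomorphism `σ V ≅ V*` for irreducible polynomial representations
-/

set_option linter.unusedSectionVars false
set_option linter.style.haveILetI false

open MvPolynomial Matrix

namespace VDual

variable {I : Type*} [Fintype I] [DecidableEq I] {m : I → ℕ}
variable {k : Type*} [Field k] {ι : Type*} [Fintype ι] [DecidableEq ι]

/-- Krylov matrix for the all-ones column vector -/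
def PP {S : Type*} [CommRing S] (g : MatT (fun i => Fin (m i)) S) : MatT (fun i => Fin (m i)) S :=
  fun i => Matrix.of fun a j => ∑ q, (g i ^ (j : ℕ)) a q

/-- Krylov matrix for the all-ones row vector -/
def QQ {S : Type*} [CommRing S] (g : MatT (fun i => Fin (m i)) S) : MatT (fun i => Fin (m i)) S :=
  fun i => Matrix.of fun j a => ∑ p, (g i ^ (j : ℕ)) p a

theorem QQ_mul_pow_PP {S : Type*} [CommRing S] (g : MatT (fun i => Fin (m i)) S) (e : ℕ) (i : I)
    (j l : Fin (m i)) :
    (QQ g * g ^ e * PP g) i j l = ∑ p, ∑ q, (g i ^ ((j : ℕ) + e + (l : ℕ))) p q := by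
  change (QQ g i * (g i) ^ e * PP g i) j l = _
  have h1 : QQ g i = Matrix.of (fun (j : Fin (m i)) a => ∑ p, (g i ^ (j : ℕ)) p a) := rfl
  have h2 : ∀ (M : Matrix (Fin (m i)) (Fin (m i)) S), (QQ g i * M) j =
      fun a => ∑ p, (g i ^ (j : ℕ) * M) p a := by
    intro M
    funext a
    rw [Matrix.mul_apply, h1]
    simp only [Matrix.of_apply, Matrix.mul_apply, Finset.sum_mul]
    rw [Finset.sum_comm]
  rw [Matrix.mul_apply, h2]
  simp only [PP, Matrix.of_apply, Finset.sum_mul]
  rw [Finset.sum_comm]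
  refine Finset.sum_congr rfl fun p _ => ?_
  rw [← pow_add]
  simp only [Finset.mul_sum]
  rw [Finset.sum_comm]
  refine Finset.sum_congr rfl fun q _ => ?_
  rw [pow_add (g i) ((j : ℕ) + e) (l : ℕ), Matrix.mul_apply]

theorem trT_Hankel {S : Type*} [CommRing S] (g : MatT (fun i => Fin (m i)) S) (e : ℕ) :
    trT (QQ g * g ^ e * PP g) = QQ g * g ^ e * PP g := by
  funext i
  ext j l
  change (QQ g * g ^ e * PP g) i l j = _
  rw [QQ_mul_pow_PP, QQ_mul_pow_PP]
  have h1 : (l : ℕ) + e + (j : ℕ) = (j : ℕ) + e + (l : ℕ) := by omega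
  rw [h1]

theorem trace_tr_of_units {S : Type*} [CommRing S]
    (f : MatT (fun i => Fin (m i)) S →* Matrix ι ι S) (g : MatT (fun i => Fin (m i)) S)
    (hP : IsUnit (PP g)) (hQ : IsUnit (QQ g)) : (f (trT g)).trace = (f g).trace := by
  obtain ⟨P, hP⟩ := hP
  obtain ⟨Q, hQ⟩ := hQ
  obtain ⟨H', hH'⟩ : ∃ H' : MatT (fun i => Fin (m i)) S, H' = QQ g * g * PP g := ⟨_, rfl⟩
  have hs' : trT H' = H' := by
    have := trT_Hankel g 1
    rw [pow_one, ← hH'] at this
    exact this
  obtain ⟨H, hH⟩ : ∃ H : MatT (fun i => Fin (m i)) S, H = QQ g * PP g := ⟨_, rfl⟩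
  have hs : trT H = H := by
    have := trT_Hankel g 0
    rw [pow_zero, mul_one, ← hH] at this
    exact this
  obtain ⟨Pi, hPi⟩ : ∃ Pi : MatT (fun i => Fin (m i)) S, Pi = (P⁻¹ : (MatT (fun i => Fin (m i)) S)ˣ) := ⟨_, rfl⟩
  obtain ⟨Qi, hQi⟩ : ∃ Qi : MatT (fun i => Fin (m i)) S, Qi = (Q⁻¹ : (MatT (fun i => Fin (m i)) S)ˣ) := ⟨_, rfl⟩
  have p1 : PP g * Pi = 1 := by rw [← hP, hPi, Units.mul_inv]
  have q2 : Qi * QQ g = 1 := by rw [← hQ, hQi, Units.inv_mul]
  have q1 : QQ g * Qi = 1 := by rw [← hQ, hQi, Units.mul_inv]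
  have hg : g = Qi * H' * Pi := by
    calc g = 1 * g * 1 := by rw [one_mul, mul_one]
      _ = (Qi * QQ g) * g * (PP g * Pi) := by rw [p1, q2]
      _ = Qi * (QQ g * g * PP g) * Pi := by simp only [mul_assoc]
      _ = Qi * H' * Pi := by rw [hH']
  have hNH : H * (Pi * Qi) = 1 := by
    calc H * (Pi * Qi) = QQ g * (PP g * Pi) * Qi := by rw [hH]; simp only [mul_assoc]
      _ = 1 := by rw [p1, mul_one, q1]
  have hNs : trT (Pi * Qi) = Pi * Qi := by
    have h1 : trT (Pi * Qi) * H = 1 := by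
      conv_lhs => rw [← hs]
      rw [← trT_mul, hNH, trT_one]
    calc trT (Pi * Qi) = trT (Pi * Qi) * (H * (Pi * Qi)) := by rw [hNH, mul_one]
      _ = (trT (Pi * Qi) * H) * (Pi * Qi) := by rw [mul_assoc (trT (Pi * Qi))]
      _ = Pi * Qi := by rw [h1, one_mul]
  have h1 : (f g).trace = (f H' * f (Pi * Qi)).trace := by
    rw [hg, map_mul, map_mul, map_mul, mul_assoc, Matrix.trace_mul_comm, mul_assoc]
  have h2 : trT g = trT Pi * H' * trT Qi := by
    rw [hg, trT_mul, trT_mul, hs', mul_assoc]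
  have h3 : (f (trT g)).trace = (f H' * f (Pi * Qi)).trace := by
    rw [h2, map_mul, map_mul, mul_assoc, Matrix.trace_mul_comm, mul_assoc, ← map_mul, ← trT_mul, hNs]
  rw [h1, h3]

theorem PP_map {S T : Type*} [CommRing S] [CommRing T] (φ : S →+* T)
    (g : MatT (fun i => Fin (m i)) S) : mapT φ (PP g) = PP (mapT φ g) := by
  funext i
  ext a j
  simp only [mapT, PP, Matrix.map_apply, Matrix.of_apply, map_sum]
  refine Finset.sum_congr rfl fun q _ => ?_
  have := congrFun (congrFun (Matrix.map_pow (g i) φ (j : ℕ)) a) q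
  exact this

theorem QQ_map {S T : Type*} [CommRing S] [CommRing T] (φ : S →+* T)
    (g : MatT (fun i => Fin (m i)) S) : mapT φ (QQ g) = QQ (mapT φ g) := by
  funext i
  ext a j
  simp only [mapT, QQ, Matrix.map_apply, Matrix.of_apply, map_sum]
  refine Finset.sum_congr rfl fun q _ => ?_
  have := congrFun (congrFun (Matrix.map_pow (g i) φ (a : ℕ)) q) j
  exact this

/-- **invariance of the trace under transposition** -/
theorem PolyRep.trace_tr [CharZero k] (ρ : PolyRep k (fun i => Fin (m i)) ι)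
    (g : MatT (fun i => Fin (m i)) k) : (ev ρ.P (trT g)).trace = (ev ρ.P g).trace := by
  haveI : Infinite k := CharZero.infinite k
  let G := gen (fun i => Fin (m i)) k
  let T : MvPolynomial (Ent fun i => Fin (m i)) k := (ev ρ.P (trT G)).trace - (ev ρ.P G).trace
  let W : MvPolynomial (Ent fun i => Fin (m i)) k := (∏ i, (PP G i).det) * ∏ i, (QQ G i).det
  have hgen : ∀ g : MatT (fun i => Fin (m i)) k,
      mapT (aeval (pt g) : MvPolynomial (Ent fun i => Fin (m i)) k →ₐ[k] k) G = g := by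
    intro g
    funext i
    exact gen_eval g i
  have hT : ∀ g : MatT (fun i => Fin (m i)) k, eval (pt g) T =
      (ev ρ.P (trT g)).trace - (ev ρ.P g).trace := by
    intro g
    have e1 : ∀ M : MatT (fun i => Fin (m i)) (MvPolynomial (Ent fun i => Fin (m i)) k),
        eval (pt g) (ev ρ.P M).trace = (ev ρ.P (mapT (aeval (pt g) : MvPolynomial (Ent fun i => Fin (m i)) k →ₐ[k] k) M)).trace := by
      intro M
      rw [← ev_map]
      simp only [Matrix.trace, map_sum]
      rfl
    simp only [T, map_sub, e1, hgen, mapT_trT]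
  have hW : ∀ g : MatT (fun i => Fin (m i)) k, eval (pt g) W =
      (∏ i, (PP g i).det) * ∏ i, (QQ g i).det := by
    intro g
    have e1 : ∀ M : MatT (fun i => Fin (m i)) (MvPolynomial (Ent fun i => Fin (m i)) k),
        ∀ i, eval (pt g) (M i).det = (mapT (eval (pt g)) M i).det := by
      intro M i
      rw [RingHom.map_det]
      rfl
    have e2 : mapT (eval (pt g)) G = g := hgen g
    simp only [W, map_mul, map_prod, e1]
    rw [PP_map, QQ_map, e2]
  have hW0 : W ≠ 0 := by
    intro h0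
    have h1 := hW (fun i => Matrix.diagonal fun a => ((a : ℕ) : k))
    rw [h0, map_zero] at h1
    have hinj : ∀ i, Function.Injective (fun a : Fin (m i) => ((a : ℕ) : k)) := by
      intro i a b hab
      exact Fin.ext (Nat.cast_injective hab)
    have e1 : ∀ i, PP (fun i => Matrix.diagonal fun a : Fin (m i) => ((a : ℕ) : k)) i =
        Matrix.vandermonde (fun a : Fin (m i) => ((a : ℕ) : k)) := by
      intro i
      ext a j
      simp only [PP, Matrix.of_apply, Matrix.vandermonde_apply, Matrix.diagonal_pow]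
      rw [Finset.sum_eq_single a]
      · simp
      · intro b _ hb
        rw [Matrix.diagonal_apply_ne _ hb.symm]
      · simp
    have e2 : ∀ i, QQ (fun i => Matrix.diagonal fun a : Fin (m i) => ((a : ℕ) : k)) i =
        (Matrix.vandermonde (fun a : Fin (m i) => ((a : ℕ) : k)))ᵀ := by
      intro i
      ext j a
      simp only [QQ, Matrix.of_apply, Matrix.transpose_apply, Matrix.vandermonde_apply, Matrix.diagonal_pow]
      rw [Finset.sum_eq_single a]
      · simp
      · intro b _ hb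
        rw [Matrix.diagonal_apply_ne _ hb]
      · simp
    simp only [e1, e2, Matrix.det_transpose] at h1
    have h2 : ∀ i, (Matrix.vandermonde (fun a : Fin (m i) => ((a : ℕ) : k))).det ≠ 0 := fun i =>
      Matrix.det_vandermonde_ne_zero_iff.mpr (hinj i)
    have h3 : (∏ i, (Matrix.vandermonde (fun a : Fin (m i) => ((a : ℕ) : k))).det) ≠ 0 :=
      Finset.prod_ne_zero_iff.mpr fun i _ => h2 i
    exact (mul_ne_zero h3 h3) h1.symm
  have hTW : T * W = 0 := by
    apply MvPolynomial.funext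
    intro s
    rw [map_mul, map_zero, ← pt_unpt s, hT, hW]
    by_cases h1 : ∏ i, (PP (unpt s) i).det = 0
    · rw [h1]; ring
    by_cases h2 : ∏ i, (QQ (unpt s) i).det = 0
    · rw [h2]; ring
    have h3 := trace_tr_of_units (ρ.hom k) (unpt s) (isUnit_of_omg_ne_zero _ h1)
      (isUnit_of_omg_ne_zero _ h2)
    have h4 : (ev ρ.P (trT (unpt s))).trace = (ev ρ.P (unpt s)).trace := h3
    rw [h4, sub_self, zero_mul]
  have hT0 : T = 0 := by
    rcases mul_eq_zero.mp hTW with h | h
    · exact h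
    · exact absurd h hW0
  have := hT g
  rw [hT0, map_zero] at this
  exact (sub_eq_zero.mp this.symm)

/-- the transposed representation `g ↦ ρ(gᵀ)ᵀ` -/
noncomputable def PolyRep.homT [Infinite k] (ρ : PolyRep k (fun i => Fin (m i)) ι) :
    MatT (fun i => Fin (m i)) k →* Matrix ι ι k where
  toFun g := (ev ρ.P (trT g))ᵀ
  map_one' := by rw [trT_one, ρ.one', Matrix.transpose_one]
  map_mul' g h := by rw [trT_mul, ρ.mul', Matrix.transpose_mul]

/-- the dot-product annihilator -/
def ann (W : Submodule k (ι → k)) : Submodule k (ι → k) where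
  carrier := {v | ∀ w ∈ W, v ⬝ᵥ w = 0}
  zero_mem' := by intro w _; simp
  add_mem' := by
    intro a b ha hb w hw
    rw [add_dotProduct, ha w hw, hb w hw, add_zero]
  smul_mem' := by
    intro c a ha w hw
    rw [smul_dotProduct, ha w hw, smul_zero]

theorem ann_eq_top {W : Submodule k (ι → k)} (h : ann W = ⊤) : W = ⊥ := by
  rw [eq_bot_iff]
  intro w hw
  rw [Submodule.mem_bot]
  funext i
  have h1 : (Pi.single i (1 : k) : ι → k) ∈ ann W := by rw [h]; exact Submodule.mem_top
  have h2 := h1 w hw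
  rw [single_dotProduct, one_mul] at h2
  exact h2

theorem ann_eq_bot {W : Submodule k (ι → k)} (h : ann W = ⊥) : W = ⊤ := by
  by_contra hne
  obtain ⟨x, hx⟩ : ∃ x, x ∉ W := by
    by_contra hcon
    push Not at hcon
    exact hne (eq_top_iff.mpr fun x _ => hcon x)
  obtain ⟨l, hl, hl'⟩ := Submodule.exists_le_ker_of_notMem hx
  let v : ι → k := fun i => l (Pi.single i 1)
  have hv : ∀ w, v ⬝ᵥ w = l w := by
    intro w
    have e1 : w = ∑ i, (w i) • (Pi.single i (1 : k) : ι → k) := by
      funext j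
      simp [Finset.sum_apply, Pi.single_apply]
    conv_rhs => rw [e1]
    rw [map_sum, dotProduct]
    refine Finset.sum_congr rfl fun i _ => ?_
    rw [map_smul, smul_eq_mul, mul_comm]
  have h1 : v ∈ ann W := by
    intro w hw
    rw [hv]
    exact hl' hw
  rw [h, Submodule.mem_bot] at h1
  apply hl
  rw [← hv, h1, zero_dotProduct]

/-- **self-duality up to the transpose**: `J ρ(gᵀ) = ρ(g)ᵀ J` -/
theorem PolyRep.exists_J [CharZero k] (ρ : PolyRep k (fun i => Fin (m i)) ι)
    (hirr : haveI : Infinite k := CharZero.infinite k; IsIrr (ρ.hom k)) :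
    ∃ J : (Matrix ι ι k)ˣ, ∀ g : MatT (fun i => Fin (m i)) k,
      (J : Matrix ι ι k) * ev ρ.P (trT g) = (ev ρ.P g)ᵀ * (J : Matrix ι ι k) := by
  haveI : Infinite k := CharZero.infinite k
  have h2 : IsIrr ρ.homT := by
    refine ⟨hirr.1, ?_⟩
    intro W hW
    have h3 := hirr.2 (ann W) (by
      intro g v hv w hw
      have h4 := hW (trT g) w hw
      have h5 : (ρ.homT (trT g)) = (ev ρ.P g)ᵀ := by
        change (ev ρ.P (trT (trT g)))ᵀ = _
        rw [trT_trT]
      rw [h5] at h4
      have h6 := hv _ h4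
      change (ev ρ.P g *ᵥ v) ⬝ᵥ w = 0
      rw [Matrix.mulVec_transpose] at h6
      rw [← h6, dotProduct_comm, Matrix.dotProduct_mulVec, dotProduct_comm])
    rcases h3 with h3 | h3
    · right
      exact ann_eq_bot h3
    · left
      exact ann_eq_top h3
  obtain ⟨J, hJ⟩ := exists_conj_of_trace (k := k) hirr h2 (by
    intro g
    change (ev ρ.P g).trace = ((ev ρ.P (trT g))ᵀ).trace
    rw [Matrix.trace_transpose, ρ.trace_tr])
  refine ⟨J, ?_⟩
  intro g
  have h3 := hJ (trT g)
  have h4 : (ρ.homT (trT g)) = (ev ρ.P g)ᵀ := by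
    change (ev ρ.P (trT (trT g)))ᵀ = _
    rw [trT_trT]
  rw [h4] at h3
  exact h3

end VDual
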