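import Mathlib
import Pool.Agent.Helper59.VDual.TraceTr
import Pool.Agent.Helper59.VDual.Extend
import Pool.Agent.Helper59.VDual.Numerics

/-!
# Direct sums of polynomial representations with extra scalars
-/

set_option linter.unusedSectionVars false
set_option linter.style.haveILetI false

open MvPolynomial Matrix

namespace VDual

variable {k : Type*} [Field k]
variable {I J A : Type*} [Fintype I] [DecidableEq I] [Fintype J] [DecidableEq J]
  [Fintype A] [DecidableEq A] {n : I → ℕ} {τ : A → Type*} [∀ a, Fintype (τ a)]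
  [∀ a, DecidableEq (τ a)]

/-- sizes with the extra one-dimensional factors -/
abbrev nn (n : I → ℕ) (J : Type*) : I ⊕ J → ℕ := Sum.elim n (fun _ => 1)

/-- index types with the extra one-dimensional factors -/
abbrev NN (n : I → ℕ) (J : Type*) : I ⊕ J → Type := fun x => Fin (nn n J x)

/-- the unique index of an extra factor -/
def z1 (n : I → ℕ) {J : Type*} (j : J) : Fin (nn n J (Sum.inr j)) := (0 : Fin 1)

/-- the matrix part -/
def prI {S : Type*} (g : MatT (NN n J) S) : MatT (fun i => Fin (n i)) S :=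
  fun i => g (Sum.inl i)

/-- the scalar part -/
def prJ {S : Type*} (g : MatT (NN n J) S) : J → S :=
  fun j => g (Sum.inr j) (z1 n j) (z1 n j)

theorem prI_mul {S : Type*} [CommRing S] (g h : MatT (NN n J) S) :
    prI (g * h) = prI g * prI h := rfl

theorem prI_one {S : Type*} [CommRing S] : prI (1 : MatT (NN n J) S) = 1 := rfl

theorem prJ_one {S : Type*} [CommRing S] (j : J) :
    prJ (1 : MatT (NN n J) S) j = 1 := Matrix.one_apply_eq _

theorem prJ_mul {S : Type*} [CommRing S] (g h : MatT (NN n J) S) (j : J) :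
    prJ (g * h) j = prJ g j * prJ h j := by
  change (g (Sum.inr j) * h (Sum.inr j)) (z1 n j) (z1 n j) = _
  rw [Matrix.mul_apply]
  exact Fin.sum_univ_one (fun x : Fin 1 => g (Sum.inr j) (z1 n j) x * h (Sum.inr j) x (z1 n j))

/-- the inclusion of variables -/
def incE : Ent (fun i => Fin (n i)) → Ent (NN n J) :=
  fun e => ⟨Sum.inl e.1, (e.2.1, e.2.2)⟩

/-- the block diagonal polynomial matrix -/
noncomputable def blockP (b : A → J) (ρ : ∀ a, PolyRep k (fun i => Fin (n i)) (τ a)) :
    Matrix (Σ a, τ a) (Σ a, τ a) (MvPolynomial (Ent (NN n J)) k) :=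
  Matrix.blockDiagonal' fun a =>
    (X (⟨Sum.inr (b a), (z1 n (b a), z1 n (b a))⟩ : Ent (NN n J)) :
      MvPolynomial (Ent (NN n J)) k) • ((ρ a).P.map (rename incE))

theorem ev_blockP {S : Type*} [CommRing S] [Algebra k S] (b : A → J)
    (ρ : ∀ a, PolyRep k (fun i => Fin (n i)) (τ a)) (g : MatT (NN n J) S) :
    ev (blockP b ρ) g = Matrix.blockDiagonal' fun a => prJ g (b a) • ev (ρ a).P (prI g) := by
  rw [ev, blockP, Matrix.blockDiagonal'_map _ _ (map_zero _)]
  congr 1
  funext a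
  ext x y
  rw [Matrix.map_apply, Matrix.smul_apply, Matrix.smul_apply, smul_eq_mul, smul_eq_mul, map_mul,
    aeval_X, Matrix.map_apply, aeval_rename]
  rfl

/-- the direct sum with extra scalars, as a polynomial representation -/
noncomputable def blockRep [Infinite k] (b : A → J) (ρ : ∀ a, PolyRep k (fun i => Fin (n i)) (τ a)) :
    PolyRep k (NN n J) (Σ a, τ a) where
  P := blockP b ρ
  one := by
    rw [ev_blockP]
    have : (fun a => prJ (1 : MatT (NN n J) k) (b a) •
        ev (ρ a).P (prI (1 : MatT (NN n J) k))) = fun a => (1 : Matrix (τ a) (τ a) k) := by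
      funext a
      rw [prI_one, prJ_one, (ρ a).one', one_smul]
    rw [this]
    exact Matrix.blockDiagonal'_one
  mul := by
    intro g h
    rw [ev_blockP, ev_blockP, ev_blockP, ← Matrix.blockDiagonal'_mul]
    congr 1
    funext a
    rw [prI_mul, prJ_mul, (ρ a).mul', Matrix.smul_mul, Matrix.mul_smul, smul_smul]

theorem chi_lin {I' : Type*} [Fintype I'] [DecidableEq I'] {n' : I' → Type*} [∀ i, Fintype (n' i)]
    [∀ i, DecidableEq (n' i)] {K : Type*} [Fintype K] (S : Type*) [CommRing S] (c : K → I' → ℤ)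
    (m : K → ℤ) (g : (MatT n' S)ˣ) :
    chi S (fun x => ∑ i, m i * c i x) g = ∏ i, (chi S (c i) g) ^ (m i) := by
  rw [chi_apply]
  simp only [chi_apply]
  have h1 : ∀ l, (detl S l g) ^ (∑ i, m i * c i l) = ∏ i, ((detl S l g) ^ (c i l)) ^ (m i) := by
    intro l
    have : ∀ (s : Finset K), (detl S l g) ^ (∑ i ∈ s, m i * c i l) =
        ∏ i ∈ s, ((detl S l g) ^ (c i l)) ^ (m i) := by
      classical
      intro s
      induction s using Finset.induction_on with
      | empty => simp
      | insert a s ha ih =>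
        rw [Finset.sum_insert ha, Finset.prod_insert ha, _root_.zpow_add, ih, mul_comm (m a),
          _root_.zpow_mul]
    exact this Finset.univ
  simp only [h1]
  rw [Finset.prod_comm]
  refine Finset.prod_congr rfl fun i _ => ?_
  rw [Finset.prod_zpow]

/-- the integer matrix of characters for the extended index set -/
def cExt (c : I → I → ℤ) (ε : I → J → ℤ) (e : J → I → ℕ) : I ⊕ J → I ⊕ J → ℤ :=
  Sum.elim (fun i => Sum.elim (c i) (ε i))
    (fun j x => ∑ i, (-(e j i : ℤ)) * (Sum.elim (c i) (ε i) : I ⊕ J → ℤ) x)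

theorem chiTriv_block [Infinite k] (b : A → J) (ρ : ∀ a, PolyRep k (fun i => Fin (n i)) (τ a))
    (e : J → I → ℕ)
    (hsc : ∀ (a : A) (c : I → FF k (Σ a, τ a)) (g : MatT (fun i => Fin (n i)) (FF k (Σ a, τ a))),
      ev (ρ a).P (scal c * g) = (∏ i, c i ^ e (b a) i) • ev (ρ a).P g)
    (c : I → I → ℤ) (ε : I → J → ℤ) : (blockRep b ρ).ChiTriv (cExt c ε e) := by
  intro g
  change ev (blockP b ρ) _ = 1
  rw [ev_blockP]
  have : (fun a => prJ (scal (n := NN n J) fun i => ((chi (FF k (Σ a, τ a)) (cExt c ε e i) g : (FF k (Σ a, τ a))ˣ) : FF k (Σ a, τ a))) (b a) •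
      ev (ρ a).P (prI (scal (n := NN n J) fun i => ((chi (FF k (Σ a, τ a)) (cExt c ε e i) g : (FF k (Σ a, τ a))ˣ) : FF k (Σ a, τ a))))) =
      fun a => (1 : Matrix (τ a) (τ a) (FF k (Σ a, τ a))) := by
    funext a
    have e1 : prI (scal (n := NN n J) fun i => ((chi (FF k (Σ a, τ a)) (cExt c ε e i) g : (FF k (Σ a, τ a))ˣ) : FF k (Σ a, τ a))) =
        scal (fun i => ((chi (FF k (Σ a, τ a)) (cExt c ε e (Sum.inl i)) g : (FF k (Σ a, τ a))ˣ) : FF k (Σ a, τ a))) * 1 := by
      rw [mul_one]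
      rfl
    have e2 : prJ (scal (n := NN n J) fun i => ((chi (FF k (Σ a, τ a)) (cExt c ε e i) g : (FF k (Σ a, τ a))ˣ) : FF k (Σ a, τ a))) (b a) =
        ((chi (FF k (Σ a, τ a)) (cExt c ε e (Sum.inr (b a))) g : (FF k (Σ a, τ a))ˣ) : FF k (Σ a, τ a)) := by
      simp only [prJ, scal, Matrix.smul_apply, Matrix.one_apply_eq, smul_eq_mul, mul_one]
    rw [e1, e2, hsc, (ρ a).one', smul_smul]
    have e3 : chi (FF k (Σ a, τ a)) (cExt c ε e (Sum.inr (b a))) g =
        ∏ i, (chi (FF k (Σ a, τ a)) (cExt c ε e (Sum.inl i)) g) ^ (-(e (b a) i : ℤ)) := by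
      exact chi_lin (FF k (Σ a, τ a)) (fun i => cExt c ε e (Sum.inl i)) (fun i => -(e (b a) i : ℤ)) g
    have e4 : ((chi (FF k (Σ a, τ a)) (cExt c ε e (Sum.inr (b a))) g : (FF k (Σ a, τ a))ˣ) : FF k (Σ a, τ a)) *
        ∏ i, ((chi (FF k (Σ a, τ a)) (cExt c ε e (Sum.inl i)) g : (FF k (Σ a, τ a))ˣ) : FF k (Σ a, τ a)) ^ e (b a) i = 1 := by
      rw [e3, Units.coe_prod, ← Finset.prod_mul_distrib]
      apply Finset.prod_eq_one
      intro i _
      rw [← Units.val_pow_eq_pow_val, ← Units.val_mul, _root_.zpow_neg, _root_.zpow_natCast,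
        inv_mul_cancel, Units.val_one]
    rw [e4, one_smul]
  rw [this]
  exact Matrix.blockDiagonal'_one

end VDual
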