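import Mathlib
import Pool.Agent.Helper59.VDual.Blocks

/-!
# The theorem for direct sums of polynomial representations
-/

set_option linter.unusedSectionVars false
set_option linter.style.haveILetI false

open MvPolynomial Matrix

namespace VDual

variable {k : Type*} [Field k]
variable {I J A : Type*} [Fintype I] [DecidableEq I] [Fintype J] [DecidableEq J]
  [Fintype A] [DecidableEq A] {n : I → ℕ} {τ : A → Type*} [∀ a, Fintype (τ a)]
  [∀ a, DecidableEq (τ a)]

theorem blockDiagonal'_mulVec (M : ∀ a, Matrix (τ a) (τ a) k) (v : (Σ a, τ a) → k) (a : A) (x : τ a) :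
    (Matrix.blockDiagonal' M *ᵥ v) ⟨a, x⟩ = (M a *ᵥ (fun y => v ⟨a, y⟩)) x := by
  simp only [mulVec, dotProduct]
  rw [Fintype.sum_sigma, Finset.sum_eq_single a]
  · refine Finset.sum_congr rfl fun y _ => ?_
    rw [Matrix.blockDiagonal'_apply_eq]
  · intro a' _ ha'
    apply Finset.sum_eq_zero
    intro y _
    rw [Matrix.blockDiagonal'_apply_ne _ _ _ ha'.symm, zero_mul]
  · simp

theorem uniform_free [IsAlgClosed k] [CharZero k] (hn : ∀ i, n i ≠ 0) (b : A → J)
    (hb : Function.Surjective b) (ρ : ∀ a, PolyRep k (fun i => Fin (n i)) (τ a)) (e : J → I → ℕ)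
    (hsc : ∀ (a : A) (c : I → k) (g : MatT (fun i => Fin (n i)) k),
      ev (ρ a).P (scal c * g) = (∏ i, c i ^ e (b a) i) • ev (ρ a).P g)
    (c : I → I → ℤ) (ε : I → J → ℤ)
    (hcε : ∀ i l, (n l : ℤ) * c i l - ∑ j, (e j l : ℤ) * ε i j = if l = i then 2 else 0)
    (D : MvPolynomial (Σ a, τ a) k)
    (hfree : ∀ v : (Σ a, τ a) → k, eval v D ≠ 0 → ∀ h : MatT (fun i => Fin (n i)) k,
      (∀ i, (h i).det = 1) → ∀ t : J → k,
      (∀ a, ev (ρ a).P h *ᵥ (fun x => v ⟨a, x⟩) = t (b a) • (fun x => v ⟨a, x⟩)) →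
      ∀ i, ∃ c : k, h i = c • (1 : Matrix (Fin (n i)) (Fin (n i)) k))
    (x0 : ∀ a, τ a) (v : (Σ a, τ a) → k) (hv : eval v (D * ∏ a, X (⟨a, x0 a⟩ : Σ a, τ a)) ≠ 0)
    (g : (MatT (NN n J) k)ˣ) (hg : ev (blockP b ρ) (g : MatT (NN n J) k) *ᵥ v = v)
    (x : I ⊕ J) (N : Matrix (NN n J x) (NN n J x) k) :
    ((g : MatT (NN n J) k) x)ᵀ * N * ((g : MatT (NN n J) k) x) =
      ((chi k (cExt c ε e x) g : kˣ) : k) • N := by
  classical
  rw [map_mul, map_prod] at hv
  have hvD : eval v D ≠ 0 := left_ne_zero_of_mul hv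
  have hva : ∀ a, v ⟨a, x0 a⟩ ≠ 0 := by
    intro a
    have h1 := right_ne_zero_of_mul hv
    have h2 := Finset.prod_ne_zero_iff.mp h1 a (Finset.mem_univ a)
    rwa [eval_X] at h2
  have hdet : ∀ x, ((g : MatT (NN n J) k) x).det ≠ 0 := by
    intro x
    have h1 := detl_val k x g
    rw [← h1]
    exact Units.ne_zero _
  obtain ⟨π, hπ⟩ : ∃ π : MatT (fun i => Fin (n i)) k, π = prI (g : MatT (NN n J) k) := ⟨_, rfl⟩
  obtain ⟨s, hs⟩ : ∃ s : J → k, s = prJ (g : MatT (NN n J) k) := ⟨_, rfl⟩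
  have hdetJ : ∀ j, ((g : MatT (NN n J) k) (Sum.inr j)).det = s j := by
    intro j
    rw [hs]
    exact Matrix.det_fin_one ((g : MatT (NN n J) k) (Sum.inr j))
  have hs0 : ∀ j, s j ≠ 0 := fun j => by
    rw [← hdetJ]
    exact hdet _
  have hdetI : ∀ i, (π i).det ≠ 0 := fun i => by
    rw [hπ]
    exact hdet (Sum.inl i)
  -- the eigenvector equations
  have heig : ∀ a, (s (b a) • ev (ρ a).P π) *ᵥ (fun y => v ⟨a, y⟩) = (fun y => v ⟨a, y⟩) := by
    intro a
    funext y
    have h1 := congrFun hg ⟨a, y⟩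
    rw [ev_blockP, blockDiagonal'_mulVec, ← hs, ← hπ] at h1
    exact h1
  -- normalise determinants
  choose lam hlam using fun i => IsAlgClosed.exists_pow_nat_eq ((π i).det) (Nat.pos_of_ne_zero (hn i))
  have hlam0 : ∀ i, lam i ≠ 0 := by
    intro i h0
    apply hdetI i
    rw [← hlam i, h0, zero_pow (hn i)]
  obtain ⟨h, hh⟩ : ∃ h : MatT (fun i => Fin (n i)) k, h = scal (fun i => (lam i)⁻¹) * π := ⟨_, rfl⟩
  have hhi : ∀ i, h i = (lam i)⁻¹ • π i := by
    intro i
    rw [hh, scal_mul]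
  have hdeth : ∀ i, (h i).det = 1 := by
    intro i
    rw [hhi, Matrix.det_smul, Fintype.card_fin, inv_pow, hlam]
    exact inv_mul_cancel₀ (hdetI i)
  have hπh : π = scal lam * h := by
    rw [scal_mul]
    funext i
    rw [hhi, smul_smul, mul_inv_cancel₀ (hlam0 i), one_smul]
  have hfr := hfree v hvD h hdeth (fun j => (s j * ∏ i, lam i ^ e j i)⁻¹) (by
    intro a
    have h1 := heig a
    rw [hπh, hsc, smul_smul, Matrix.smul_mulVec] at h1
    have h2 : s (b a) * ∏ i, lam i ^ e (b a) i ≠ 0 :=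
      mul_ne_zero (hs0 _) (Finset.prod_ne_zero_iff.mpr fun i _ => pow_ne_zero _ (hlam0 i))
    conv_rhs => rw [← h1]
    rw [smul_smul, inv_mul_cancel₀ h2, one_smul])
  choose cc hcc using hfr
  obtain ⟨μ, hμ⟩ : ∃ μ : I → k, μ = fun i => lam i * cc i := ⟨_, rfl⟩
  have hπμ : ∀ i, π i = μ i • (1 : Matrix (Fin (n i)) (Fin (n i)) k) := by
    intro i
    rw [hπh, scal_mul, hμ]
    change lam i • h i = _
    rw [hcc, smul_smul]
  have hμ0 : ∀ i, μ i ≠ 0 := by
    intro i h0
    apply hdetI i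
    rw [hπμ, h0, zero_smul]
    haveI : Nonempty (Fin (n i)) := ⟨⟨0, Nat.pos_of_ne_zero (hn i)⟩⟩
    exact Matrix.det_zero
  have hπμ' : π = scal μ * 1 := by
    rw [mul_one]
    funext i
    exact hπμ i
  have hsμ : ∀ j, s j * ∏ i, μ i ^ e j i = 1 := by
    intro j
    obtain ⟨a, rfl⟩ := hb j
    have h1 := congrFun (heig a) (x0 a)
    rw [hπμ', hsc, (ρ a).one, smul_smul, Matrix.smul_mulVec, Matrix.one_mulVec, Pi.smul_apply,
      smul_eq_mul] at h1
    exact mul_right_cancel₀ (hva a) (by rw [h1, one_mul])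
  -- the characters
  have hchiI : ∀ i, ((chi k (cExt c ε e (Sum.inl i)) g : kˣ) : k) = μ i ^ 2 := by
    intro i
    have h1 : ((chi k (cExt c ε e (Sum.inl i)) g : kˣ) : k) =
        (∏ l, (μ l ^ n l) ^ (c i l)) * ∏ j, (s j) ^ (ε i j) := by
      rw [chi_apply, Units.coe_prod, Fintype.prod_sum_type]
      congr 1
      · refine Finset.prod_congr rfl fun l _ => ?_
        rw [Units.val_zpow_eq_zpow_val, detl_val]
        have e2 : (π l).det = μ l ^ n l := by
          rw [hπμ, Matrix.det_smul, Matrix.det_one, mul_one, Fintype.card_fin]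
        have : ((g : MatT (NN n J) k) (Sum.inl l)).det = μ l ^ n l := by
          rw [← e2, hπ]
          rfl
        rw [this]
        rfl
      · refine Finset.prod_congr rfl fun j _ => ?_
        rw [Units.val_zpow_eq_zpow_val, detl_val, hdetJ]
        rfl
    have h2 : ∀ j, (s j) ^ (ε i j) = ∏ l, (μ l) ^ (-((e j l : ℤ) * ε i j)) := by
      intro j
      have h3 : s j = (∏ l, μ l ^ e j l)⁻¹ := eq_inv_of_mul_eq_one_left (hsμ j)
      rw [h3, ← Finset.prod_inv_distrib, ← Finset.prod_zpow]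
      refine Finset.prod_congr rfl fun l _ => ?_
      rw [← _root_.zpow_natCast, ← _root_.zpow_neg, ← _root_.zpow_mul]
      congr 1
      ring
    have h4 : ∀ l, (μ l ^ n l) ^ (c i l) * ∏ j, (μ l) ^ (-((e j l : ℤ) * ε i j)) =
        (μ l) ^ (if l = i then 2 else 0 : ℤ) := by
      intro l
      rw [← hcε i l, sub_eq_add_neg, zpow_add₀ (hμ0 l), ← Finset.sum_neg_distrib]
      congr 1
      · rw [← _root_.zpow_natCast, ← _root_.zpow_mul]
      · have : ∀ (t : Finset J), ∏ j ∈ t, (μ l) ^ (-((e j l : ℤ) * ε i j)) =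
            (μ l) ^ (∑ j ∈ t, -((e j l : ℤ) * ε i j)) := by
          intro t
          induction t using Finset.induction_on with
          | empty => simp
          | insert a t ha ih =>
            rw [Finset.prod_insert ha, Finset.sum_insert ha, zpow_add₀ (hμ0 l), ih]
        exact this Finset.univ
    rw [h1]
    simp only [h2]
    rw [Finset.prod_comm, ← Finset.prod_mul_distrib, Finset.prod_congr rfl fun l _ => h4 l,
      Finset.prod_eq_single i]
    · rw [if_pos rfl]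
      exact zpow_ofNat _ 2
    · intro l _ hl
      rw [if_neg hl, _root_.zpow_zero]
    · simp
  have hchiJ : ∀ j, ((chi k (cExt c ε e (Sum.inr j)) g : kˣ) : k) = s j ^ 2 := by
    intro j
    have e3 : chi k (cExt c ε e (Sum.inr j)) g =
        ∏ i, (chi k (cExt c ε e (Sum.inl i)) g) ^ (-(e j i : ℤ)) :=
      chi_lin k (fun i => cExt c ε e (Sum.inl i)) (fun i => -(e j i : ℤ)) g
    have h3 : s j = (∏ l, μ l ^ e j l)⁻¹ := eq_inv_of_mul_eq_one_left (hsμ j)
    rw [e3, Units.coe_prod, h3, inv_pow, ← Finset.prod_pow, ← Finset.prod_inv_distrib]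
    refine Finset.prod_congr rfl fun i _ => ?_
    rw [Units.val_zpow_eq_zpow_val, hchiI, _root_.zpow_neg, _root_.zpow_natCast, ← pow_mul,
      ← pow_mul, mul_comm]
  rcases x with i | j
  · have e1 : (g : MatT (NN n J) k) (Sum.inl i) = μ i • 1 := by
      have : (g : MatT (NN n J) k) (Sum.inl i) = π i := by rw [hπ]; rfl
      rw [this, hπμ]
      rfl
    rw [hchiI, e1, Matrix.transpose_smul, Matrix.transpose_one, Matrix.smul_mul, Matrix.one_mul,
      Matrix.mul_smul, Matrix.mul_one, smul_smul, pow_two]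
  · have e1 : (g : MatT (NN n J) k) (Sum.inr j) = s j • 1 := by
      ext p q
      have hp : p = z1 n j := Subsingleton.elim (α := Fin 1) _ _
      have hq : q = z1 n j := Subsingleton.elim (α := Fin 1) _ _
      rw [hp, hq, Matrix.smul_apply, Matrix.one_apply_eq, smul_eq_mul, mul_one, hs]
      rfl
    rw [hchiJ, e1, Matrix.transpose_smul, Matrix.transpose_one, Matrix.smul_mul, Matrix.one_mul,
      Matrix.mul_smul, Matrix.mul_one, smul_smul, pow_two]

/-- the dual (inverse transpose) of an invertible matrix -/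
def dualU {ι : Type*} [Fintype ι] [DecidableEq ι] (M : Matrix.GeneralLinearGroup ι k) :
    Matrix.GeneralLinearGroup ι k where
  val := ((M⁻¹ : Matrix.GeneralLinearGroup ι k) : Matrix ι ι k)ᵀ
  inv := (M : Matrix ι ι k)ᵀ
  val_inv := by rw [← Matrix.transpose_mul, Units.mul_inv, Matrix.transpose_one]
  inv_val := by rw [← Matrix.transpose_mul, Units.inv_mul, Matrix.transpose_one]

/-- **the theorem for direct sums of polynomial representations** -/
theorem block_main [IsAlgClosed k] [CharZero k] (hn : ∀ i, n i ≠ 0) (b : A → J)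
    (hb : Function.Surjective b) (ρ : ∀ a, PolyRep k (fun i => Fin (n i)) (τ a)) (e : J → I → ℕ)
    (hsc : ∀ (a : A) (c : I → k) (g : MatT (fun i => Fin (n i)) k),
      ev (ρ a).P (scal c * g) = (∏ i, c i ^ e (b a) i) • ev (ρ a).P g)
    (hscL : ∀ (a : A) (c : I → FF k (Σ a, τ a)) (g : MatT (fun i => Fin (n i)) (FF k (Σ a, τ a))),
      ev (ρ a).P (scal c * g) = (∏ i, c i ^ e (b a) i) • ev (ρ a).P g)
    (hker : ∀ z : I → kˣ, (∀ i, z i ^ n i = 1) → (∀ j, ∏ i, z i ^ e j i = 1) → ∀ i, z i ^ 2 = 1)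
    (D : MvPolynomial (Σ a, τ a) k) (hD : D ≠ 0)
    (hfree : ∀ v : (Σ a, τ a) → k, eval v D ≠ 0 → ∀ h : MatT (fun i => Fin (n i)) k,
      (∀ i, (h i).det = 1) → ∀ t : J → k,
      (∀ a, ev (ρ a).P h *ᵥ (fun x => v ⟨a, x⟩) = t (b a) • (fun x => v ⟨a, x⟩)) →
      ∀ i, ∃ c : k, h i = c • (1 : Matrix (Fin (n i)) (Fin (n i)) k))
    (hτ : ∀ a, Nonempty (τ a))
    (hJ : ∀ a, ∃ Ja : (Matrix (τ a) (τ a) k)ˣ, ∀ g : MatT (fun i => Fin (n i)) k,
      (Ja : Matrix (τ a) (τ a) k) * ev (ρ a).P (trT g) = (ev (ρ a).P g)ᵀ * (Ja : Matrix (τ a) (τ a) k)) :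
    ∃ Θ : FF k (Σ a, τ a) ≃ₐ[k] FF k (Σ a, τ a), ∀ g : MatT (fun i => Fin (n i)) k,
      (∀ i, (g i).det = 1) → ∀ M : Matrix.GeneralLinearGroup (Σ a, τ a) k,
      (M : Matrix (Σ a, τ a) (Σ a, τ a) k) = Matrix.blockDiagonal' (fun a => ev (ρ a).P g) →
      ∀ f, Θ (ffSub (dualU M) f) = ffSub M (Θ f) := by
  classical
  haveI : Infinite k := CharZero.infinite k
  choose c ε hcε using exists_int k n hn e hker
  choose Jb hJb using hJ
  let x0 : ∀ a, τ a := fun a => (hτ a).some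
  have hD' : D * ∏ a, X (⟨a, x0 a⟩ : Σ a, τ a) ≠ 0 := by
    apply mul_ne_zero hD
    rw [Finset.prod_ne_zero_iff]
    intro a _
    exact X_ne_zero _
  obtain ⟨Θ0, hΘ0⟩ := (blockRep b ρ).uniform (D * ∏ a, X (⟨a, x0 a⟩ : Σ a, τ a)) hD' (cExt c ε e)
    (fun v hv g hg x N => uniform_free hn b hb ρ e hsc c ε hcε D hfree x0 v hv g hg x N)
    (chiTriv_block b ρ e hscL c ε)
  -- the change of coordinates
  let JU : Matrix.GeneralLinearGroup (Σ a, τ a) k :=
    { val := Matrix.blockDiagonal' fun a => ((Jb a : (Matrix (τ a) (τ a) k)ˣ) : Matrix (τ a) (τ a) k)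
      inv := Matrix.blockDiagonal' fun a => (((Jb a)⁻¹ : (Matrix (τ a) (τ a) k)ˣ) : Matrix (τ a) (τ a) k)
      val_inv := by
        rw [← Matrix.blockDiagonal'_mul]
        have : (fun a => ((Jb a : (Matrix (τ a) (τ a) k)ˣ) : Matrix (τ a) (τ a) k) *
          (((Jb a)⁻¹ : (Matrix (τ a) (τ a) k)ˣ) : Matrix (τ a) (τ a) k)) = fun a => 1 := by
          funext a
          exact Units.mul_inv _
        rw [this]
        exact Matrix.blockDiagonal'_one
      inv_val := by
        rw [← Matrix.blockDiagonal'_mul]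
        have : (fun a => (((Jb a)⁻¹ : (Matrix (τ a) (τ a) k)ˣ) : Matrix (τ a) (τ a) k) *
          ((Jb a : (Matrix (τ a) (τ a) k)ˣ) : Matrix (τ a) (τ a) k)) = fun a => 1 := by
          funext a
          exact Units.inv_mul _
        rw [this]
        exact Matrix.blockDiagonal'_one }
  have hJU : ∀ h : MatT (NN n J) k, (JU : Matrix (Σ a, τ a) (Σ a, τ a) k) * ev (blockP b ρ) (trT h) =
      (ev (blockP b ρ) h)ᵀ * (JU : Matrix (Σ a, τ a) (Σ a, τ a) k) := by
    intro h
    rw [ev_blockP, ev_blockP, Matrix.blockDiagonal'_transpose]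
    change Matrix.blockDiagonal' (fun a => ((Jb a : (Matrix (τ a) (τ a) k)ˣ) : Matrix (τ a) (τ a) k)) * _ =
      _ * Matrix.blockDiagonal' (fun a => ((Jb a : (Matrix (τ a) (τ a) k)ˣ) : Matrix (τ a) (τ a) k))
    rw [← Matrix.blockDiagonal'_mul, ← Matrix.blockDiagonal'_mul]
    congr 1
    funext a
    rw [Matrix.mul_smul, Matrix.transpose_smul, Matrix.smul_mul]
    have e1 : prI (trT h) = trT (prI h) := rfl
    have e2 : prJ (trT h) (b a) = prJ h (b a) := rfl
    rw [e1, e2, hJb]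
  refine ⟨(ffSub JU).trans Θ0, ?_⟩
  intro g hg M hM f
  -- the element of the extended group
  let g1 : MatT (NN n J) k := fun x => match x with
    | Sum.inl i => g i
    | Sum.inr j => 1
  have hg1 : IsUnit g1 := by
    apply isUnit_of_omg_ne_zero
    rw [Finset.prod_ne_zero_iff]
    intro x _
    rcases x with i | j
    · change (g i).det ≠ 0
      rw [hg]
      exact one_ne_zero
    · change (1 : Matrix (NN n J (Sum.inr j)) (NN n J (Sum.inr j)) k).det ≠ 0
      rw [Matrix.det_one]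
      exact one_ne_zero
  obtain ⟨g', hg'⟩ := hg1
  have hU : (blockRep b ρ).u k g' = M := by
    apply Units.ext
    rw [PolyRep.u_val, hM]
    change ev (blockP b ρ) _ = _
    rw [ev_blockP, hg']
    congr 1
    funext a
    have e1 : prJ g1 (b a) = 1 := Matrix.one_apply_eq _
    have e2 : prI g1 = g := rfl
    rw [e1, e2, one_smul]
  have hUs : (blockRep b ρ).u k (sig g') = JU⁻¹ * dualU M * JU := by
    have h1 : JU * (blockRep b ρ).u k (sig g') = dualU M * JU := by
      apply Units.ext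
      rw [Units.val_mul, Units.val_mul, PolyRep.u_val, sig_val]
      have h2 := hJU ((g'⁻¹ : (MatT (NN n J) k)ˣ) : MatT (NN n J) k)
      have h3 : (ev (blockP b ρ) ((g'⁻¹ : (MatT (NN n J) k)ˣ) : MatT (NN n J) k)) =
          ((M⁻¹ : Matrix.GeneralLinearGroup (Σ a, τ a) k) : Matrix (Σ a, τ a) (Σ a, τ a) k) := by
        rw [← hU, ← map_inv]
        rfl
      rw [h3] at h2
      exact h2
    rw [mul_assoc, ← h1, inv_mul_cancel_left]
  have h1 := hΘ0 g' (ffSub JU f)
  change Θ0 (ffSub ((blockRep b ρ).u k (sig g')) (ffSub JU f)) =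
    ffSub ((blockRep b ρ).u k g') (Θ0 (ffSub JU f)) at h1
  rw [hU, hUs, ffSub_mul, ffSub_mul, ← ffSub_mul JU JU⁻¹, mul_inv_cancel, ffSub_one] at h1
  exact h1

end VDual
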