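import Mathlib
import Pool.Agent.Helper59.VDual.BlockMain

/-!
# From irreducible rational representations of `∏ SL_{n_i}(k)` to polynomial representations
-/

set_option linter.unusedSectionVars false
set_option linter.style.haveILetI false

open MvPolynomial Matrix

namespace VDual

variable {k : Type*} [Field k]
variable {I : Type*} [Fintype I] [DecidableEq I] {n : I → ℕ}

/-- the group `∏ SL_{n_i}(k)` -/
abbrev SLP (k : Type*) [Field k] {I : Type*} (n : I → ℕ) : Type _ :=
  ∀ i, Matrix.SpecialLinearGroup (Fin (n i)) k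

/-- the underlying tuple of matrices -/
def toT (g : SLP k n) : MatT (fun i => Fin (n i)) k := fun i => (g i : Matrix (Fin (n i)) (Fin (n i)) k)

theorem toT_mul (g h : SLP k n) : toT (g * h) = toT g * toT h := by
  funext i
  exact Matrix.SpecialLinearGroup.coe_mul _ _

theorem toT_one : toT (1 : SLP k n) = 1 := by
  funext i
  exact Matrix.SpecialLinearGroup.coe_one

/-- a tuple of matrices of determinant one as an element of the group -/
def ofT (g : MatT (fun i => Fin (n i)) k) (hg : ∀ i, (g i).det = 1) : SLP k n := fun i => ⟨g i, hg i⟩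

theorem toT_ofT (g : MatT (fun i => Fin (n i)) k) (hg : ∀ i, (g i).det = 1) : toT (ofT g hg) = g := rfl

/-- the central element attached to a tuple of roots of unity -/
def zS (z : I → kˣ) (hz : ∀ i, z i ^ n i = 1) : SLP k n :=
  ofT (fun i => ((z i : kˣ) : k) • (1 : Matrix (Fin (n i)) (Fin (n i)) k)) (by
    intro i
    rw [Matrix.det_smul, Matrix.det_one, mul_one, Fintype.card_fin, ← Units.val_pow_eq_pow_val, hz,
      Units.val_one])

theorem toT_zS (z : I → kˣ) (hz : ∀ i, z i ^ n i = 1) :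
    toT (zS z hz) = scal (n := fun i => Fin (n i)) (fun i => ((z i : kˣ) : k)) := rfl

theorem zS_central (z : I → kˣ) (hz : ∀ i, z i ^ n i = 1) (g : SLP k n) : zS z hz * g = g * zS z hz := by
  funext i
  apply Subtype.ext
  change (((z i : kˣ) : k) • (1 : Matrix (Fin (n i)) (Fin (n i)) k)) * (g i : Matrix (Fin (n i)) (Fin (n i)) k) =
    (g i : Matrix (Fin (n i)) (Fin (n i)) k) * (((z i : kˣ) : k) • (1 : Matrix (Fin (n i)) (Fin (n i)) k))
  rw [Matrix.smul_mul, Matrix.mul_smul, Matrix.one_mul, Matrix.mul_one]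

theorem zS_mul (z w : I → kˣ) (hz : ∀ i, z i ^ n i = 1) (hw : ∀ i, w i ^ n i = 1) :
    zS (z * w) (fun i => by rw [Pi.mul_apply, mul_pow, hz, hw, one_mul]) = zS z hz * zS w hw := by
  funext i
  apply Subtype.ext
  change (((z * w : I → kˣ) i : kˣ) : k) • (1 : Matrix (Fin (n i)) (Fin (n i)) k) =
    (((z i : kˣ) : k) • (1 : Matrix (Fin (n i)) (Fin (n i)) k)) * (((w i : kˣ) : k) • (1 : Matrix (Fin (n i)) (Fin (n i)) k))
  rw [Matrix.smul_mul, Matrix.mul_smul, Matrix.one_mul, smul_smul, Pi.mul_apply, Units.val_mul]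

variable {m : ℕ}

/-- Schur's lemma for central elements -/
theorem exists_scalar [IsAlgClosed k] (R : SLP k n →* Matrix (Fin m) (Fin m) k) (hirr : IsIrr R)
    (z : SLP k n) (hz : ∀ g, z * g = g * z) : ∃ c : k, R z = c • (1 : Matrix (Fin m) (Fin m) k) := by
  obtain ⟨hne, hirr⟩ := hirr
  haveI := hne
  obtain ⟨c, hc⟩ := Module.End.exists_eigenvalue (Matrix.toLin' (R z))
  refine ⟨c, ?_⟩
  have h1 := hirr (Module.End.eigenspace (Matrix.toLin' (R z)) c) (by
    intro g w hw
    rw [Module.End.mem_eigenspace_iff] at hw ⊢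
    rw [Matrix.toLin'_apply] at hw ⊢
    rw [Matrix.mulVec_mulVec, ← map_mul, hz, map_mul, ← Matrix.mulVec_mulVec, hw, Matrix.mulVec_smul])
  rcases h1 with h1 | h1
  · exact absurd h1 hc
  · apply Matrix.toLin'.injective
    apply LinearMap.ext
    intro w
    have h2 : w ∈ Module.End.eigenspace (Matrix.toLin' (R z)) c := by rw [h1]; exact Submodule.mem_top
    rw [Module.End.mem_eigenspace_iff] at h2
    rw [h2, Matrix.toLin'_apply, Matrix.smul_mulVec, Matrix.one_mulVec]

/-- the central character -/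
theorem exists_central_char [IsAlgClosed k] [CharZero k] (hn : ∀ i, n i ≠ 0)
    (R : SLP k n →* Matrix (Fin m) (Fin m) k) (hirr : IsIrr R) :
    ∃ d : I → ℕ, (∀ i, d i < n i) ∧ ∀ (z : I → kˣ) (hz : ∀ i, z i ^ n i = 1),
      R (zS z hz) = (∏ i, ((z i : kˣ) : k) ^ d i) • (1 : Matrix (Fin m) (Fin m) k) := by
  classical
  haveI := hirr.1
  haveI : ∀ i, NeZero (n i) := fun i => ⟨hn i⟩
  have hsc : ∀ (z : I → kˣ) (hz : ∀ i, z i ^ n i = 1), ∃ c : k,
      R (zS z hz) = c • (1 : Matrix (Fin m) (Fin m) k) := fun z hz =>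
    exists_scalar R hirr _ (zS_central z hz)
  choose θ hθ using hsc
  have hinj : ∀ c c' : k, c • (1 : Matrix (Fin m) (Fin m) k) = c' • (1 : Matrix (Fin m) (Fin m) k) → c = c' := by
    intro c c' h
    have x := hirr.1.some
    have h2 := congrFun (congrFun h x) x
    simpa using h2
  have hmul : ∀ (z w : I → kˣ) (hz : ∀ i, z i ^ n i = 1) (hw : ∀ i, w i ^ n i = 1),
      θ (z * w) (fun i => by rw [Pi.mul_apply, mul_pow, hz, hw, one_mul]) = θ z hz * θ w hw := by
    intro z w hz hw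
    apply hinj
    rw [← hθ, zS_mul z w hz hw, map_mul, hθ, hθ, Matrix.smul_mul, Matrix.mul_smul, Matrix.one_mul,
      smul_smul]
  have hone : ∀ h, θ 1 h = 1 := by
    intro h
    apply hinj
    rw [← hθ, one_smul]
    have : zS (1 : I → kˣ) h = (1 : SLP k n) := by
      funext i
      apply Subtype.ext
      change ((1 : kˣ) : k) • (1 : Matrix (Fin (n i)) (Fin (n i)) k) = 1
      rw [Units.val_one, one_smul]
    rw [this, map_one]
  -- primitive roots
  choose ζ0 hζ0 using fun i => HasEnoughRootsOfUnity.exists_primitiveRoot k (n i)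
  have hζu : ∀ i, ∃ u : kˣ, (u : k) = ζ0 i := fun i => ((hζ0 i).isUnit (hn i))
  choose ζ hζ using hζu
  have hζp : ∀ i, IsPrimitiveRoot (ζ i) (n i) := by
    intro i
    rw [← IsPrimitiveRoot.coe_units_iff, hζ]
    exact hζ0 i
  have hsingle : ∀ (i : I) (u : kˣ), u ^ n i = 1 → ∀ j, (Pi.mulSingle i u : I → kˣ) j ^ n j = 1 := by
    intro i u hu j
    by_cases hj : j = i
    · subst hj
      rw [Pi.mulSingle_eq_same, hu]
    · rw [Pi.mulSingle_eq_of_ne hj, one_pow]
  have hcongr : ∀ (z w : I → kˣ) (hz : ∀ i, z i ^ n i = 1) (hw : ∀ i, w i ^ n i = 1), z = w →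
      θ z hz = θ w hw := by
    intro z w hz hw h
    subst h
    rfl
  have hpow : ∀ (z : I → kˣ) (hz : ∀ i, z i ^ n i = 1) (t : ℕ),
      θ (z ^ t) (fun i => by rw [Pi.pow_apply, ← pow_mul, mul_comm, pow_mul, hz, one_pow]) =
        θ z hz ^ t := by
    intro z hz t
    induction t with
    | zero =>
      rw [pow_zero (θ z hz)]
      have h1 : ∀ i, (1 : I → kˣ) i ^ n i = 1 := fun i => by rw [Pi.one_apply, one_pow]
      rw [hcongr _ 1 _ h1 (pow_zero z)]
      exact hone _
    | succ t ih =>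
      have h1 : ∀ i, (z ^ t) i ^ n i = 1 := fun i => by
        rw [Pi.pow_apply, ← pow_mul, mul_comm, pow_mul, hz, one_pow]
      have h2 : ∀ i, (z ^ t * z) i ^ n i = 1 := fun i => by
        rw [Pi.mul_apply, mul_pow, h1, hz, one_mul]
      rw [hcongr _ (z ^ t * z) _ h2 (pow_succ z t), hmul (z ^ t) z h1 hz, ih, pow_succ]
  have hd : ∀ i, ∃ d, d < n i ∧ (ζ0 i) ^ d = θ (Pi.mulSingle i (ζ i)) (hsingle i (ζ i) (hζp i).pow_eq_one) := by
    intro i
    apply (hζ0 i).eq_pow_of_pow_eq_one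
    rw [← hpow]
    have h1 : ∀ i, (1 : I → kˣ) i ^ n i = 1 := fun i => by rw [Pi.one_apply, one_pow]
    rw [hcongr _ 1 _ h1 (by
      rw [← Pi.mulSingle_pow, (hζp i).pow_eq_one, Pi.mulSingle_one])]
    exact hone _
  choose d hdlt hd using hd
  refine ⟨d, hdlt, ?_⟩
  intro z hz
  rw [hθ]
  congr 1
  -- write `z` as a product
  have ht : ∀ i, ∃ t : ℕ, (ζ i) ^ t = z i := by
    intro i
    obtain ⟨t, _, ht⟩ := (hζ0 i).eq_pow_of_pow_eq_one (ξ := ((z i : kˣ) : k)) (by
      rw [← Units.val_pow_eq_pow_val, hz, Units.val_one])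
    refine ⟨t, ?_⟩
    apply Units.ext
    rw [Units.val_pow_eq_pow_val, hζ]
    exact ht
  choose t ht using ht
  have hprod : ∀ (s : Finset I), ∃ hs : (∀ i, (∏ j ∈ s, (Pi.mulSingle j (z j) : I → kˣ)) i ^ n i = 1),
      θ (∏ j ∈ s, (Pi.mulSingle j (z j) : I → kˣ)) hs = ∏ i ∈ s, ((z i : kˣ) : k) ^ d i := by
    intro s
    induction s using Finset.induction_on with
    | empty =>
      have h1 : ∀ i, (1 : I → kˣ) i ^ n i = 1 := fun i => by rw [Pi.one_apply, one_pow]
      refine ⟨by rw [Finset.prod_empty]; exact h1, ?_⟩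
      rw [Finset.prod_empty (f := fun i => ((z i : kˣ) : k) ^ d i)]
      rw [hcongr _ 1 _ h1 Finset.prod_empty]
      exact hone _
    | insert a s ha ih =>
      obtain ⟨h1, h2⟩ := ih
      have h3 : ∀ i, (Pi.mulSingle a (z a) : I → kˣ) i ^ n i = 1 := hsingle a (z a) (hz a)
      have h4 : ∀ i, ((Pi.mulSingle a (z a) : I → kˣ) * ∏ j ∈ s, (Pi.mulSingle j (z j) : I → kˣ)) i ^ n i = 1 :=
        fun i => by rw [Pi.mul_apply, mul_pow, h3, h1, one_mul]
      refine ⟨by rw [Finset.prod_insert ha]; exact h4, ?_⟩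
      rw [hcongr _ _ _ h4 (Finset.prod_insert ha), hmul _ _ h3 h1, h2, Finset.prod_insert ha]
      congr 1
      have h5 : (Pi.mulSingle a (z a) : I → kˣ) = (Pi.mulSingle a (ζ a)) ^ (t a) := by
        rw [← Pi.mulSingle_pow, ht]
      have h6 : ∀ i, ((Pi.mulSingle a (ζ a) : I → kˣ) ^ (t a)) i ^ n i = 1 := by
        intro i
        rw [← h5]
        exact h3 i
      rw [hcongr _ _ _ h6 h5, hpow _ (hsingle a (ζ a) (hζp a).pow_eq_one), ← hd, ← hζ a, ← pow_mul,
        ← ht a, Units.val_pow_eq_pow_val, ← pow_mul, mul_comm]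
  obtain ⟨h1, h2⟩ := hprod Finset.univ
  rw [← h2]
  exact hcongr _ _ _ _ (Finset.univ_prod_mulSingle z).symm

end VDual
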