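import Mathlib
import Pool.Agent.Helper59.VDual.SLRep

/-!
# The theorem for irreducible rational representations of `∏ SL_{n_i}(k)`
-/

set_option linter.unusedSectionVars false
set_option linter.style.haveILetI false

open MvPolynomial Matrix

namespace VDual

variable {k : Type*} [Field k]
variable {I : Type*} [Fintype I] [DecidableEq I]

section ofSL

variable {n : I → Type*} [∀ i, Fintype (n i)] [∀ i, DecidableEq (n i)]
variable {ι : Type*} [Fintype ι] [DecidableEq ι]

/-- extension of a polynomial matrix, multiplicative on `∏ SL`, to a polynomial representation -/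
theorem exists_polyRep [IsAlgClosed k] [CharZero k] [∀ i, Nonempty (n i)]
    (P : Matrix ι ι (MvPolynomial (Ent n) k)) (h1 : ev P (1 : MatT n k) = 1)
    (hmul : ∀ g h : MatT n k, (∀ i, (g i).det = 1) → (∀ i, (h i).det = 1) →
      ev P (g * h) = ev P g * ev P h) (e : I → ℕ)
    (hz : ∀ z : ZZ n k, ev P (scal fun i => (((z i : kˣ)) : k)) =
      (∏ i, ((z i : kˣ) : k) ^ e i) • (1 : Matrix ι ι k))
    (hdeg : ∀ a b, ∀ s ∈ (P a b).support, ∀ i, bdeg s i ≤ e i) :
    ∃ ρ : PolyRep k n ι, ρ.P = P.map (extP e) ∧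
      ∀ g : MatT n k, (∀ i, (g i).det = 1) → ev ρ.P g = ev P g := by
  haveI : Infinite k := CharZero.infinite k
  have hdetz : ∀ (z : ZZ n k) i, ((scal fun i => (((z i : kˣ)) : k) : MatT n k) i).det = 1 := by
    intro z i
    rw [scal, Matrix.det_smul, Matrix.det_one, mul_one]
    have := (z i).2
    rw [mem_rootsOfUnity] at this
    rw [← Units.val_pow_eq_pow_val, this, Units.val_one]
  have hSL : ∀ g : MatT n k, (∀ i, (g i).det = 1) → ev (P.map (extP e)) g = ev P g := by
    intro g hg
    ext a b
    rw [ev_apply, ev_apply, Matrix.map_apply]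
    apply extP_SL e (P a b) (hdeg a b) g hg
    intro z
    have h2 := hmul (scal fun i => (((z i : kˣ)) : k)) g (hdetz z) hg
    rw [hz z, Matrix.smul_mul, Matrix.one_mul] at h2
    exact congrFun (congrFun h2 a) b
  have hscal : ∀ (c : I → k) (g : MatT n k), ev (P.map (extP e)) (scal c * g) =
      (∏ i, c i ^ e i) • ev (P.map (extP e)) g := by
    intro c g
    ext a b
    rw [ev_apply, Matrix.smul_apply, ev_apply, Matrix.map_apply, aeval_extP_scal, smul_eq_mul]
  refine ⟨PolyRep.ofGL (P.map (extP e)) ?_ ?_, rfl, hSL⟩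
  · rw [hSL 1 (fun i => by rw [Pi.one_apply, Matrix.det_one]), h1]
  · intro g h
    have key : ∀ g : (MatT n k)ˣ, ∃ (c : I → k) (g1 : MatT n k), (∀ i, (g1 i).det = 1) ∧
        (g : MatT n k) = scal c * g1 := by
      intro g
      have hdet : ∀ i, ((g : MatT n k) i).det ≠ 0 := fun i => by
        rw [← detl_val]
        exact Units.ne_zero _
      choose lam hlam using fun i =>
        IsAlgClosed.exists_pow_nat_eq (((g : MatT n k) i).det) (Fintype.card_pos (α := n i))
      have hlam0 : ∀ i, lam i ≠ 0 := by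
        intro i h0
        apply hdet i
        rw [← hlam i, h0, zero_pow Fintype.card_ne_zero]
      refine ⟨lam, fun i => (lam i)⁻¹ • (g : MatT n k) i, ?_, ?_⟩
      · intro i
        rw [Matrix.det_smul, inv_pow, hlam]
        exact inv_mul_cancel₀ (hdet i)
      · rw [scal_mul]
        funext i
        rw [smul_smul, mul_inv_cancel₀ (hlam0 i), one_smul]
    obtain ⟨c, g1, hg1, hg⟩ := key g
    obtain ⟨c', h1', hh1, hh⟩ := key h
    have e1 : (g : MatT n k) * (h : MatT n k) = scal (fun i => c i * c' i) * (g1 * h1') := by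
      rw [hg, hh]
      funext i
      simp only [scal, Pi.mul_apply, Matrix.smul_mul, Matrix.mul_smul, Matrix.one_mul, smul_smul]
      rw [mul_comm (c' i)]
    have hgh : ∀ i, ((g1 * h1' : MatT n k) i).det = 1 := by
      intro i
      rw [Pi.mul_apply, Matrix.det_mul, hg1, hh1, one_mul]
    rw [e1, hscal, hSL _ hgh, hmul _ _ hg1 hh1, hg, hh, hscal, hscal, hSL _ hg1, hSL _ hh1,
      Matrix.smul_mul, Matrix.mul_smul, smul_smul, ← Finset.prod_mul_distrib]
    congr 1
    refine Finset.prod_congr rfl fun i _ => ?_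
    rw [mul_pow]

theorem ev_extP_scal {S : Type*} [CommRing S] [Algebra k S] (P : Matrix ι ι (MvPolynomial (Ent n) k))
    (e : I → ℕ) (c : I → S) (g : MatT n S) : ev (P.map (extP e)) (scal c * g) =
      (∏ i, c i ^ e i) • ev (P.map (extP e)) g := by
  ext a b
  rw [ev_apply, Matrix.smul_apply, ev_apply, Matrix.map_apply, aeval_extP_scal, smul_eq_mul]

theorem bdeg_le (s : Ent n →₀ ℕ) (i : I) (p : MvPolynomial (Ent n) k) (hs : s ∈ p.support) :
    bdeg s i ≤ p.totalDegree := by
  refine le_trans ?_ (MvPolynomial.le_totalDegree hs)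
  rw [Finsupp.sum_fintype _ _ (fun _ => rfl), Fintype.sum_sigma]
  exact Finset.single_le_sum (f := fun i => ∑ pq : n i × n i, s ⟨i, pq⟩)
    (fun _ _ => Nat.zero_le _) (Finset.mem_univ i)

end ofSL

variable {A : Type*} [Fintype A] [DecidableEq A] {n : I → ℕ} {m : A → ℕ}

/-- rationality of a homomorphism `∏ SL_{n_i}(k) → Mat_m(k)` -/
def IsRat {m : ℕ} (R : SLP k n →* Matrix (Fin m) (Fin m) k) : Prop :=
  ∃ P : Matrix (Fin m) (Fin m) (MvPolynomial (Ent fun i => Fin (n i)) k),
    ∀ g, R g = ev P (toT g)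

theorem sl_main [IsAlgClosed k] [CharZero k] (hn : ∀ i, n i ≠ 0)
    (R : ∀ a, SLP k n →* Matrix (Fin (m a)) (Fin (m a)) k) (hrat : ∀ a, IsRat (R a))
    (hirr : ∀ a, IsIrr (R a))
    (hker : ∀ g, (∀ a, R a g = 1) → g * g = 1)
    (D : MvPolynomial (Σ a, Fin (m a)) k) (hD : D ≠ 0)
    (hfree : ∀ v : (Σ a, Fin (m a)) → k, eval v D ≠ 0 → ∀ (g : SLP k n) (t : A → k),
      (∀ a, R a g *ᵥ (fun x => v ⟨a, x⟩) = t a • (fun x => v ⟨a, x⟩)) →
      (∀ a a', (∀ z : SLP k n, (∀ g, z * g = g * z) → ∀ c : k, R a z = c • 1 ↔ R a' z = c • 1) →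
        t a = t a') →
      ∀ i, ∃ c : k, toT g i = c • 1) :
    ∃ Θ : FF k (Σ a, Fin (m a)) ≃ₐ[k] FF k (Σ a, Fin (m a)), ∀ (g : SLP k n)
      (M : Matrix.GeneralLinearGroup (Σ a, Fin (m a)) k),
      (M : Matrix (Σ a, Fin (m a)) (Σ a, Fin (m a)) k) = Matrix.blockDiagonal' (fun a => R a g) →
      ∀ f, Θ (ffSub (dualU M) f) = ffSub M (Θ f) := by
  classical
  haveI : Infinite k := CharZero.infinite k
  haveI : ∀ i, Nonempty (Fin (n i)) := fun i => ⟨⟨0, Nat.pos_of_ne_zero (hn i)⟩⟩
  choose P hP using hrat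
  choose d hdlt hd using fun a => exists_central_char hn (R a) (hirr a)
  let J := Set.range d
  haveI : Fintype J := Fintype.ofFinite J
  let b : A → J := fun a => ⟨d a, a, rfl⟩
  have hb : Function.Surjective b := by
    rintro ⟨_, a, rfl⟩
    exact ⟨a, rfl⟩
  let K : ℕ := ∑ a, ∑ x, ∑ y, (P a x y).totalDegree
  let e : J → I → ℕ := fun j i => j.1 i + n i * K
  have hpow : ∀ (z : I → kˣ) (hz : ∀ i, z i ^ n i = 1) (j : J),
      ∏ i, z i ^ e j i = ∏ i, z i ^ (j.1 i) := by
    intro z hz j
    refine Finset.prod_congr rfl fun i _ => ?_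
    rw [pow_add, pow_mul, hz, one_pow, mul_one]
  have hpowk : ∀ (z : I → kˣ) (hz : ∀ i, z i ^ n i = 1) (j : J),
      ∏ i, ((z i : kˣ) : k) ^ e j i = ∏ i, ((z i : kˣ) : k) ^ (j.1 i) := by
    intro z hz j
    have := congrArg (fun u : kˣ => (u : k)) (hpow z hz j)
    simp only [Units.coe_prod, Units.val_pow_eq_pow_val] at this
    exact this
  -- the polynomial representations
  have hex : ∀ a, ∃ ρ : PolyRep k (fun i => Fin (n i)) (Fin (m a)), ρ.P = (P a).map (extP (e (b a))) ∧
      ∀ g : MatT (fun i => Fin (n i)) k, (∀ i, (g i).det = 1) → ev ρ.P g = ev (P a) g := by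
    intro a
    apply exists_polyRep
    · rw [← toT_one, ← hP, map_one]
    · intro g h hg hh
      have hgh : ∀ i, ((g * h : MatT (fun i => Fin (n i)) k) i).det = 1 := by
        intro i
        rw [Pi.mul_apply, Matrix.det_mul, hg, hh, one_mul]
      have e1 := hP a (ofT g hg)
      have e2 := hP a (ofT h hh)
      have e3 := hP a (ofT g hg * ofT h hh)
      rw [toT_ofT] at e1 e2
      rw [toT_mul, toT_ofT, toT_ofT] at e3
      rw [← e1, ← e2, ← e3, map_mul]
    · intro z
      have hz : ∀ i, ((z i : kˣ)) ^ n i = 1 := by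
        intro i
        have h1 := (z i).2
        rw [mem_rootsOfUnity] at h1
        have aux : ∀ (u : kˣ) (a b : ℕ), a = b → u ^ a = 1 → u ^ b = 1 := by
          rintro u a _ rfl h
          exact h
        exact aux _ _ _ (Fintype.card_fin _) h1
      have e1 := hd a (fun i => (z i : kˣ)) hz
      rw [hP a, toT_zS] at e1
      have e2 := hpowk (fun i => (z i : kˣ)) hz (b a)
      rw [e2]
      exact e1
    · intro x y s hs i
      have h1 := bdeg_le s i (P a x y) hs
      have h2 : (P a x y).totalDegree ≤ K := by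
        calc (P a x y).totalDegree ≤ ∑ y, (P a x y).totalDegree :=
              Finset.single_le_sum (f := fun y => (P a x y).totalDegree)
                (fun _ _ => Nat.zero_le _) (Finset.mem_univ y)
          _ ≤ ∑ x, ∑ y, (P a x y).totalDegree :=
              Finset.single_le_sum (f := fun x => ∑ y, (P a x y).totalDegree)
                (fun _ _ => Nat.zero_le _) (Finset.mem_univ x)
          _ ≤ K :=
              Finset.single_le_sum (f := fun a => ∑ x, ∑ y, (P a x y).totalDegree)
                (fun _ _ => Nat.zero_le _) (Finset.mem_univ a)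
      have h3 : K ≤ n i * K := Nat.le_mul_of_pos_left K (Nat.pos_of_ne_zero (hn i))
      change bdeg s i ≤ (b a).1 i + n i * K
      omega
  choose ρ hρP hρ using hex
  have hR : ∀ a (g : SLP k n), R a g = ev (ρ a).P (toT g) := by
    intro a g
    rw [hρ a (toT g) (fun i => (g i).2), hP]
  obtain ⟨Θ, hΘ⟩ := block_main (k := k) hn b hb ρ e
    (by
      intro a c g
      rw [hρP]
      exact ev_extP_scal _ _ _ _)
    (by
      intro a c g
      rw [hρP]
      exact ev_extP_scal _ _ _ _)
    (by
      intro z hz h1 i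
      have h2 : ∀ a, R a (zS z hz) = 1 := by
        intro a
        rw [hd a z hz]
        have h3 := h1 (b a)
        rw [hpow z hz] at h3
        have h4 : ∏ i, ((z i : kˣ) : k) ^ d a i = 1 := by
          have := congrArg (fun u : kˣ => (u : k)) h3
          simp only [Units.coe_prod, Units.val_pow_eq_pow_val, Units.val_one] at this
          exact this
        rw [h4, one_smul]
      have h3 := hker _ h2
      have h4 : (toT (zS z hz) * toT (zS z hz)) i = (1 : MatT (fun i => Fin (n i)) k) i := by
        rw [← toT_mul, h3, toT_one]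
      have x : Fin (n i) := ⟨0, Nat.pos_of_ne_zero (hn i)⟩
      have h5 := congrFun (congrFun h4 x) x
      rw [toT_zS, scal_mul] at h5
      simp only [scal, Pi.one_apply, Matrix.smul_apply, Matrix.one_apply_eq, smul_eq_mul, mul_one] at h5
      apply Units.ext
      rw [Units.val_pow_eq_pow_val, pow_two, Units.val_one]
      exact h5)
    D hD
    (by
      intro v hv h hh t heq
      have h1 := hfree v hv (ofT h hh) (fun a => t (b a)) (by
        intro a
        rw [hR, toT_ofT]
        exact heq a) (by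
        intro a a' hcc
        congr 1
        apply Subtype.ext
        change d a = d a'
        funext i
        haveI : NeZero (n i) := ⟨hn i⟩
        obtain ⟨ζ0, hζ0⟩ := HasEnoughRootsOfUnity.exists_primitiveRoot k (n i)
        obtain ⟨ζ, hζ⟩ : ∃ u : kˣ, (u : k) = ζ0 := (hζ0.isUnit (hn i))
        have hz : ∀ j, (Pi.mulSingle i ζ : I → kˣ) j ^ n j = 1 := by
          intro j
          by_cases hj : j = i
          · subst hj
            rw [Pi.mulSingle_eq_same]
            apply Units.ext
            rw [Units.val_pow_eq_pow_val, hζ, hζ0.pow_eq_one, Units.val_one]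
          · rw [Pi.mulSingle_eq_of_ne hj, one_pow]
        have hprod : ∀ f : I → ℕ, ∏ j, (((Pi.mulSingle i ζ : I → kˣ) j : kˣ) : k) ^ f j = ζ0 ^ f i := by
          intro f
          rw [Finset.prod_eq_single i]
          · rw [Pi.mulSingle_eq_same, hζ]
          · intro j _ hj
            rw [Pi.mulSingle_eq_of_ne hj, Units.val_one, one_pow]
          · simp
        have e1 := hd a _ hz
        have e2 := hd a' _ hz
        rw [hprod] at e1 e2
        have e3 := (hcc (zS _ hz) (zS_central _ hz) (ζ0 ^ d a i)).mp e1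
        rw [e2] at e3
        obtain ⟨x⟩ := (hirr a').1
        have e4 := congrFun (congrFun e3 x) x
        simp only [Matrix.smul_apply, Matrix.one_apply_eq, smul_eq_mul, mul_one] at e4
        exact (hζ0.pow_inj (hdlt a i) (hdlt a' i) e4.symm))
      exact h1)
    (fun a => (hirr a).1)
    (by
      intro a
      apply PolyRep.exists_J
      refine ⟨(hirr a).1, ?_⟩
      intro W hW
      apply (hirr a).2 W
      intro g w hw
      rw [hR]
      exact hW (toT g) w hw)
  refine ⟨Θ, ?_⟩
  intro g M hM f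
  apply hΘ (toT g) (fun i => (g i).2) M
  rw [hM]
  congr 1
  funext a
  exact hR a g

end VDual
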